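import Pool.Agent.SZD.St
import Pool.Agent.SSX.Main
import Pool.Agent.SNT.All2
import Pool.Agent.SNR.Lm

/-!
# SZD, module C56 (helper60): `crk R ≥ 2`, at most six members
-/

set_option autoImplicit false

noncomputable section

open Finset Pool.Agent.Helper64.Rho Pool.Agent.SDG Pool.Agent.SNW Pool.Agent.SNR
open scoped Classical Pointwise

namespace Pool.Agent.SZD

/-! ### groups -/

private theorem C56_dvd {G : Type} [AddCommGroup G] [Finite G] {p : ℕ} (hp : p.Prime) (h : p ∣ Nat.card G) :
    p ∣ AddMonoid.exponent G := by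
  haveI : Fact p.Prime := ⟨hp⟩
  obtain ⟨x, hx⟩ := exists_prime_addOrderOf_dvd_card' p h
  rw [← hx]
  exact AddMonoid.addOrder_dvd_exponent x

private theorem C56_expdvd (G : Type) [AddCommGroup G] [Finite G] : AddMonoid.exponent G ∣ Nat.card G := by
  refine AddMonoid.exponent_dvd_of_forall_nsmul_eq_zero fun x => ?_
  exact card_nsmul_eq_zero'

private theorem C56_subexp {G : Type} [AddCommGroup G] [Finite G] (R : AddSubgroup G) {p : ℕ} (hp : p.Prime)
    (h : p ∣ Nat.card R) : p ∣ AddMonoid.exponent G :=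
  C56_dvd hp (h.trans (AddSubgroup.card_addSubgroup_dvd_card R))

/-- the cap 2 statement with gain one -/
private theorem C56_M1 (H ι : Type) [AddCommGroup H] [Finite H] (hnc : ¬ IsAddCyclic H) (s : Finset ι) (f : ι → H)
    (h0 : ∀ i ∈ s, f i ≠ 0) (hc : Cap 2 s f) (hA : Aper (FS s f)) (hg : gen s f = ⊤) :
    min (pn s.card) (cf 2 s.card + 1) ≤ (FS s f).card ∨ Nat.card H ≤ (FS s f).card + jj s.card * (jj s.card - 1) := by
  have h1 := Pool.Agent.SNT.A1_l0_two H hnc
  rcases Pool.Agent.SNT.all_M1Pr H hnc ι s f h0 hc hA hg with h2 | h2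
  · left
    refine le_trans (min_le_min le_rfl ?_) h2
    omega
  · exact Or.inr h2

/-! ### the members outside -/

section
variable {G H ι : Type} [AddCommGroup G] [Finite G] [AddCommGroup H] [Finite H] {π : G →+ H} {s : Finset ι} {f : ι → G}
  {R : AddSubgroup G} {j : ℕ}

private theorem C56_nc (h : Ctx π s f R j) (h2 : 2 ≤ crk R) : ¬ IsAddCyclic H := by
  intro hc
  have h3 := crk_cyc hc
  have h4 := h.rH
  omega

private theorem C56_lin (h : Ctx π s f R j) (h2 : 2 ≤ crk R) : 2 * (Out s f R).card ≤ NN π s f R + 1 := by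
  have h1 := thm_LINm 2 (by norm_num) H ι (Out s f R) (fun i => π (f i)) h.q0 h.qap h.qgn (h2.trans h.rH) (by
    intro L _ hL
    have hT : L = ⊤ := by
      by_contra hne
      have := crk_pos hne
      omega
    rw [hT, crk_top, pow_zero, mul_one, AddSubgroup.card_top]
    exact h.qlt)
  have h3 : 2 ^ (2 - 1) * (2 * (Out s f R).card + 3 - 2 * 2) ≤ 2 * NN π s f R := h1
  have h4 := h.er
  norm_num at h3
  omega

private theorem C56_Y (h : Ctx π s f R j) : cf 2 (Inn s f R).card ≤ YY s f R := by
  refine Pool.Agent.SSX.PAG_all G ι (Inn s f R) f (fun i hi => h.h0 i (mem_filter.1 hi).1) ?_ ?_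
  · exact P1_cap_mono le_rfl (filter_subset _ _) h.cap
  · exact (all_Ba1 G ι f).2.1 _ _ (filter_subset _ _) h.ap

/-- cap for the quotient from the number of members in cyclic groups -/
private theorem C56_cap (b : ℕ)
    (hb : ∀ i ∈ Out s f R, ((Out s f R).filter fun k => π (f k) ∈ AddSubgroup.zmultiples (π (f i))).card ≤ b) :
    Cap b (Out s f R) (fun i => π (f i)) := by
  intro x
  rcases (filter (fun i => π (f i) = x ∨ π (f i) = -x) (Out s f R)).eq_empty_or_nonempty with he | ⟨i, hi⟩
  · rw [he]
    simp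
  · obtain ⟨hi1, hi2⟩ := mem_filter.1 hi
    refine (card_le_card ?_).trans (hb i hi1)
    intro k hk
    obtain ⟨hk1, hk2⟩ := mem_filter.1 hk
    refine mem_filter.2 ⟨hk1, ?_⟩
    have hk2 : π (f k) = x ∨ π (f k) = -x := hk2
    have hx : π (f k) = π (f i) ∨ π (f k) = -π (f i) := by
      rcases hi2 with hi2 | hi2 <;> rcases hk2 with hk2 | hk2
      · left
        rw [hk2, hi2]
      · right
        rw [hk2, hi2]
      · right
        rw [hk2, hi2, neg_neg]
      · left
        rw [hk2, hi2]
    rcases hx with hx | hx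
    · rw [hx]
      exact AddSubgroup.mem_zmultiples _
    · rw [hx]
      exact AddSubgroup.neg_mem _ (AddSubgroup.mem_zmultiples _)

private theorem C56_N (h : Ctx π s f R j) (hc : Cap 2 (Out s f R) (fun i => π (f i))) :
    cf 2 (Out s f R).card ≤ NN π s f R :=
  Pool.Agent.SSX.PAG_all H ι (Out s f R) (fun i => π (f i)) h.q0 hc h.qap

/-- three members outside: cap 2 -/
private theorem C56_cap3 (h : Ctx π s f R j) (hnc : ¬ IsAddCyclic H) (he : (Out s f R).card = 3) :
    Cap 2 (Out s f R) (fun i => π (f i)) := by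
  intro x
  by_contra hcon
  have h1 : (filter (fun i => π (f i) = x ∨ π (f i) = -x) (Out s f R)) = Out s f R := by
    refine eq_of_subset_of_card_le (filter_subset _ _) ?_
    rw [he]
    have : ¬ (filter (fun i => π (f i) = x ∨ π (f i) = -x) (Out s f R)).card ≤ 2 := hcon
    omega
  apply hnc
  refine ⟨x, fun y => ?_⟩
  have hy : y ∈ gen (Out s f R) (fun i => π (f i)) := by
    rw [h.qgn]
    trivial
  have hle : gen (Out s f R) (fun i => π (f i)) ≤ AddSubgroup.zmultiples x := by
    unfold gen
    rw [AddSubgroup.closure_le]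
    rintro _ ⟨i, hi, rfl⟩
    have hi' : i ∈ Out s f R := mem_coe.1 hi
    rw [← h1] at hi'
    rcases (mem_filter.1 hi').2 with h2 | h2
    · show π (f i) ∈ AddSubgroup.zmultiples x
      rw [h2]
      exact AddSubgroup.mem_zmultiples _
    · show π (f i) ∈ AddSubgroup.zmultiples x
      rw [h2]
      exact AddSubgroup.neg_mem _ (AddSubgroup.mem_zmultiples _)
  exact AddSubgroup.mem_zmultiples_iff.1 (hle hy)

end

/-! ### numbers -/

private theorem C56_cf1 : cf 2 1 = 2 := by simp [cf, Finset.sum_range_succ]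
private theorem C56_cf2 : cf 2 2 = 3 := by simp [cf, Finset.sum_range_succ]
private theorem C56_cf3 : cf 2 3 = 5 := by simp [cf, Finset.sum_range_succ]
private theorem C56_cf4 : cf 2 4 = 7 := by simp [cf, Finset.sum_range_succ]
private theorem C56_cf5 : cf 2 5 = 10 := by simp [cf, Finset.sum_range_succ]
private theorem C56_pn3 : pn 3 = 6 := by simp [pn, C56_cf2]
private theorem C56_pn4 : pn 4 = 9 := by simp [pn]
private theorem C56_U4 : SBN.U 4 = 12 := rfl
private theorem C56_U5 : SBN.U 5 = 18 := rfl
private theorem C56_U6 : SBN.U 6 = 24 := rfl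

private theorem C56_num6 (e k N Y y X j : ℕ) (he : 3 ≤ e) (hk : 1 ≤ k) (ht : e + k = 6)
    (hN : cf 2 e ≤ N) (hY : cf 2 k ≤ Y) (hy : Y + 1 ≤ y) (n1 : y * N + j * Y ≤ X + j * y)
    (n2 : N * Y ≤ X) (hX : X ≤ 23) (hj : j ≤ 5) : e = 4 ∧ N = 7 ∧ X = 23 ∧ y = 4 := by
  have h1 : (Y + 1) * N ≤ X + j := by
    rcases Nat.le_total j N with h | h
    · obtain ⟨n, rfl⟩ := Nat.exists_eq_add_of_le h
      have h2 : (Y + 1) * n ≤ y * n := Nat.mul_le_mul_right n hy
      nlinarith
    · have h2 : (Y + 1) * N = N * Y + N := by ring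
      omega
  have h3 : (e = 5 ∧ k = 1) ∨ (e = 4 ∧ k = 2) ∨ (e = 3 ∧ k = 3) := by omega
  rcases h3 with ⟨rfl, rfl⟩ | ⟨rfl, rfl⟩ | ⟨rfl, rfl⟩
  · rw [C56_cf5] at hN
    rw [C56_cf1] at hY
    exfalso
    have := Nat.mul_le_mul (Nat.add_le_add_right hY 1) hN
    omega
  · rw [C56_cf4] at hN
    rw [C56_cf2] at hY
    have hY4 : Y = 3 := by
      by_contra hne
      have := Nat.mul_le_mul (show 5 ≤ Y + 1 by omega) hN
      omega
    subst hY4
    have hN7 : N = 7 := by omega
    subst hN7
    have hX23 : X = 23 := by omega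
    have hj5 : j = 5 := by omega
    subst hX23
    subst hj5
    refine ⟨rfl, rfl, rfl, by omega⟩
  · rw [C56_cf3] at hN hY
    exfalso
    have := Nat.mul_le_mul hN hY
    omega

private theorem C56_num5 (N Y y X j : ℕ) (hl : 7 ≤ N) (hY : 2 ≤ Y) (hy : Y + 1 ≤ y) (n1 : y * N + j * Y ≤ X + j * y)
    (n2 : N * Y ≤ X) (hX : X ≤ 17) (hj : j ≤ 5) : N = 7 ∧ y = 3 ∧ 16 ≤ X := by
  have hY2 : Y = 2 := by
    by_contra hne
    have := Nat.mul_le_mul hl (show 3 ≤ Y by omega)
    omega
  subst hY2
  have hN : N = 7 ∨ N = 8 := by omega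
  rcases hN with rfl | rfl
  · interval_cases j <;> omega
  · exfalso
    interval_cases j <;> omega

/-! ### small groups -/

private theorem C56_cyc67 {H : Type} [AddCommGroup H] [Finite H] (hnc : ¬ IsAddCyclic H) (h1 : 5 < Nat.card H)
    (h2 : Nat.card H ≤ 7) : False := by
  apply hnc
  apply IsAddCyclic.of_exponent_eq_card
  apply Nat.dvd_antisymm (C56_expdvd H)
  have h3 : Nat.card H = 6 ∨ Nat.card H = 7 := by omega
  rcases h3 with h3 | h3
  · have a1 : 2 ∣ AddMonoid.exponent H := C56_dvd Nat.prime_two (by rw [h3]; norm_num)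
    have a2 : 3 ∣ AddMonoid.exponent H := C56_dvd Nat.prime_three (by rw [h3]; norm_num)
    rw [h3]
    omega
  · rw [h3]
    exact C56_dvd (by norm_num) (by rw [h3])

/-- `T` misses two elements of `H`, `lam T w ≤ 1`: `w` is the difference of the two -/
private theorem C56_two {H : Type} [AddCommGroup H] [Finite H] (T : Finset H) (h : T.card + 2 = Nat.card H) :
    ∃ d : H, ∀ w : H, w ≠ 0 → lam T w ≤ 1 → w = d ∨ w = -d := by
  haveI := Fintype.ofFinite H
  have h1 : (Tᶜ).card = 2 := by
    rw [card_compl, ← Nat.card_eq_fintype_card]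
    omega
  obtain ⟨c1, c2, hne, hc⟩ := card_eq_two.1 h1
  refine ⟨c1 - c2, fun w hw hl => ?_⟩
  have hm : ∀ x, x ∉ T ↔ x = c1 ∨ x = c2 := by
    intro x
    rw [← mem_compl, hc, mem_insert, mem_singleton]
  have h2 : c1 - w ∉ T ∨ c2 - w ∉ T := by
    by_contra hcon
    push_neg at hcon
    have h3 : ({c1 - w, c2 - w} : Finset H) ⊆ T.filter fun b => b + w ∉ T := by
      intro x hx
      rw [mem_insert, mem_singleton] at hx
      rcases hx with rfl | rfl
      · refine mem_filter.2 ⟨hcon.1, ?_⟩
        rw [sub_add_cancel, hm]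
        exact Or.inl rfl
      · refine mem_filter.2 ⟨hcon.2, ?_⟩
        rw [sub_add_cancel, hm]
        exact Or.inr rfl
    have h4 := card_le_card h3
    rw [card_pair (fun hh => hne (sub_left_injective hh))] at h4
    have h5 : (T.filter fun b => b + w ∉ T).card ≤ 1 := hl
    omega
  rcases h2 with h2 | h2
  · rcases (hm _).1 h2 with h3 | h3
    · exact absurd (by simpa using h3) hw
    · left
      rw [← h3]
      abel
  · rcases (hm _).1 h2 with h3 | h3
    · right
      rw [← h3]
      abel
    · exact absurd (by simpa using h3) hw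

/-- two members not in one cyclic group generate a group of order nine -/
private theorem C56_gen9 {H ι : Type} [AddCommGroup H] [Finite H] (h9 : Nat.card H = 9) (u : Finset ι) (g : ι → H) (a b : ι)
    (ha : a ∈ u) (hb : b ∈ u) (ha0 : g a ≠ 0) (hab : g b ∉ AddSubgroup.zmultiples (g a)) : gen u g = ⊤ := by
  apply AddSubgroup.eq_top_of_card_eq
  rw [h9]
  have hd1 : Nat.card (gen u g) ∣ 9 := by
    rw [← h9]
    exact AddSubgroup.card_addSubgroup_dvd_card _
  have hd2 : Nat.card (AddSubgroup.zmultiples (g a)) ∣ 9 := by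
    rw [← h9]
    exact AddSubgroup.card_addSubgroup_dvd_card _
  have hle : AddSubgroup.zmultiples (g a) ≤ gen u g := by
    rw [AddSubgroup.zmultiples_le]
    exact P1_mem_gen ha
  have hlt : Nat.card (AddSubgroup.zmultiples (g a)) < Nat.card (gen u g) := by
    rcases Nat.lt_or_ge (Nat.card (AddSubgroup.zmultiples (g a))) (Nat.card (gen u g)) with h | h
    · exact h
    · exfalso
      apply hab
      have := AddSubgroup.eq_of_le_of_card_ge hle h
      rw [this]
      exact P1_mem_gen hb
  have h1 : Nat.card (AddSubgroup.zmultiples (g a)) ≠ 1 := by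
    rw [Nat.card_zmultiples]
    intro h
    exact ha0 (AddMonoid.addOrderOf_eq_one_iff.1 h)
  have h2 : (9 : ℕ).divisors = {1, 3, 9} := by decide
  have m1 : Nat.card (gen u g) ∈ (9 : ℕ).divisors := Nat.mem_divisors.2 ⟨hd1, by norm_num⟩
  have m2 : Nat.card (AddSubgroup.zmultiples (g a)) ∈ (9 : ℕ).divisors := Nat.mem_divisors.2 ⟨hd2, by norm_num⟩
  rw [h2] at m1 m2
  simp only [mem_insert, mem_singleton] at m1 m2
  omega

/-! ### the theorem -/

theorem thm_C56 (hBI : St_BI) (hEx : St_Ex) (hNb : St_Nb) : St_C56 := by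
  intro G H ι _ _ _ _ π s f R j h hR ht
  have hnc := C56_nc h hR
  have hlin := C56_lin h hR
  have hY := C56_Y h
  have n1 := h.n1
  have n2 := h.n2
  have hk := h.k1
  have hkY := h.kY
  have hYy := h.Yy
  have hek := h.ek
  have her := h.er
  have hxU := h.xU
  have hjU := h.jU
  have hqlt := h.qlt
  have hcrd := h.crd
  have ht5 := h.t5
  have hbt : (⊥ : AddSubgroup G) ≠ ⊤ := by
    intro hh
    have := h.rk
    rw [hh, crk_top] at this
    omega
  have hex := hEx G (FS s f).card hbt h.g2
  have hc56 : s.card = 5 ∨ s.card = 6 := by omega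
  rcases hc56 with hs | hs
  · -- five members
    rw [hs] at hxU hjU hek
    rw [C56_U5] at hxU
    norm_num only at hjU
    rw [C56_U5, C56_U4] at hjU
    have hcase : ((Out s f R).card = 3 ∧ (Inn s f R).card = 2) ∨ ((Out s f R).card = 4 ∧ (Inn s f R).card = 1) := by omega
    rcases hcase with ⟨he, hk2⟩ | ⟨he, hk1⟩
    · -- three outside
      rw [hk2, C56_cf2] at hY
      rw [he] at hlin
      have hcap := C56_cap3 h hnc he
      have hM := C56_M1 H ι hnc (Out s f R) (fun i => π (f i)) h.q0 hcap h.qap h.qgn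
      rw [he, C56_pn3, C56_cf3] at hM
      have hjj : jj 3 * (jj 3 - 1) = 2 := rfl
      rw [hjj] at hM
      rcases hM with hM | hM
      · have hM' : 6 ≤ NN π s f R := by
          have : min 6 (5 + 1) = 6 := rfl
          rw [this] at hM
          exact hM
        have := Nat.mul_le_mul hM' hY
        omega
      · have hM' : Nat.card H ≤ NN π s f R + 2 := hM
        rcases Nat.lt_or_ge (NN π s f R) 6 with h6 | h6
        · exact C56_cyc67 hnc (by omega) (by omega)
        · have := Nat.mul_le_mul h6 hY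
          omega
    · -- four outside
      rw [hk1, C56_cf1] at hY
      rw [he] at hlin
      obtain ⟨hN7, hy3, hX16⟩ := C56_num5 (NN π s f R) (YY s f R) (Nat.card R) (FS s f).card j (by omega) hY hYy n1 n2
        (by omega) (by omega)
      have hb : ∀ i ∈ Out s f R,
          ((Out s f R).filter fun k => π (f k) ∈ AddSubgroup.zmultiples (π (f i))).card ≤ 1 := by
        intro i hi
        have h1 := hBI G H ι π s f R j h i (mem_filter.1 hi).1 (mem_filter.1 hi).2
        rw [hN7, hy3] at h1
        by_contra hcon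
        have h2 : 3 ≤ ((Out s f R).filter fun k => π (f k) ∈ AddSubgroup.zmultiples (π (f i))).card + 1 := by omega
        have h3 := Nat.mul_le_mul h2 hX16
        omega
      have hcap1 := C56_cap (π := π) (s := s) (f := f) (R := R) 1 hb
      have hcap : Cap 2 (Out s f R) (fun i => π (f i)) := P1_cap_mono (by norm_num) Subset.rfl hcap1
      have hM := C56_M1 H ι hnc (Out s f R) (fun i => π (f i)) h.q0 hcap h.qap h.qgn
      rw [he, C56_pn4, C56_cf4] at hM
      have hjj : jj 4 * (jj 4 - 1) = 2 := rfl
      rw [hjj] at hM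
      have hNc : (FS (Out s f R) (fun i => π (f i))).card = 7 := hN7
      rw [hNc] at hM
      have hH9 : Nat.card H ≤ 9 := by
        rcases hM with hM | hM
        · have : min 9 (7 + 1) = 8 := rfl
          omega
        · exact hM
      rw [hy3] at hcrd
      have hE3 : AddMonoid.exponent G ≤ 3 := by
        by_contra hcon
        have h1 : 4 * 16 ≤ AddMonoid.exponent G * (FS s f).card := Nat.mul_le_mul (by omega) hX16
        omega
      have h3E : 3 ∣ AddMonoid.exponent G := C56_subexp R Nat.prime_three (by rw [hy3])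
      have hE0 : AddMonoid.exponent G ≠ 0 := AddMonoid.exponent_ne_zero_of_finite
      have hE : AddMonoid.exponent G = 3 := by omega
      have hHc : Nat.card H = 9 := by
        by_contra hne
        have h8 : Nat.card H = 8 := by omega
        have h2 : 2 ∣ AddMonoid.exponent G := C56_dvd Nat.prime_two (by rw [hcrd, h8]; norm_num)
        rw [hE] at h2
        omega
      obtain ⟨d, hd⟩ := C56_two (FS (Out s f R) (fun i => π (f i))) (by rw [hNc, hHc])
      have hnotin : ∀ a ∈ Out s f R, ∀ b ∈ Out s f R, a ≠ b → π (f b) ∉ AddSubgroup.zmultiples (π (f a)) := by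
        intro a ha b hb' hab hcon
        have h1 : ({a, b} : Finset ι) ⊆ (Out s f R).filter fun k => π (f k) ∈ AddSubgroup.zmultiples (π (f a)) := by
          intro x hx
          rw [mem_insert, mem_singleton] at hx
          rcases hx with rfl | rfl
          · exact mem_filter.2 ⟨ha, AddSubgroup.mem_zmultiples _⟩
          · exact mem_filter.2 ⟨hb', hcon⟩
        have h2 := (card_le_card h1).trans (hb a ha)
        rw [card_pair hab] at h2
        omega
      have hlam : ∀ i ∈ Out s f R, π (f i) = d ∨ π (f i) = -d := by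
        intro i hi
        refine hd _ (h.q0 i hi) ?_
        have he3 : ((Out s f R).erase i).card = 3 := by
          rw [card_erase_of_mem hi, he]
        obtain ⟨a, ha, b, hb', hab⟩ := one_lt_card.1 (show 1 < ((Out s f R).erase i).card by omega)
        have ha2 := mem_of_mem_erase ha
        have hb2 := mem_of_mem_erase hb'
        have hgen := C56_gen9 hHc ((Out s f R).erase i) (fun i => π (f i)) a b ha hb' (h.q0 a ha2) (hnotin a ha2 b hb2 hab)
        have hM3 := C56_M1 H ι hnc ((Out s f R).erase i) (fun i => π (f i)) (fun k hk => h.q0 k (mem_of_mem_erase hk))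
          (P1_cap_mono le_rfl (erase_subset _ _) hcap) ((all_Ba1 H ι _).2.1 _ _ (erase_subset _ _) h.qap) hgen
        rw [he3, C56_pn3, C56_cf3] at hM3
        have hjj3 : jj 3 * (jj 3 - 1) = 2 := rfl
        rw [hjj3, hHc] at hM3
        have hb3 := (all_Ba1 H ι (fun i => π (f i))).2.2.1 (Out s f R) i hi
        rw [hNc] at hb3
        have h6 : 6 ≤ (FS ((Out s f R).erase i) (fun i => π (f i))).card := by
          rcases hM3 with hM3 | hM3
          · have : min 6 (5 + 1) = 6 := rfl
            omega
          · omega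
        have hb4 : (FS ((Out s f R).erase i) (fun i => π (f i))).card +
            lam (FS (Out s f R) (fun i => π (f i))) (π (f i)) ≤ 7 := hb3
        omega
      obtain ⟨a, ha, b, hb', hab⟩ := one_lt_card.1 (show 1 < (Out s f R).card by omega)
      apply hnotin a ha b hb' hab
      have hx : π (f b) = π (f a) ∨ π (f b) = -π (f a) := by
        rcases hlam a ha with h1 | h1 <;> rcases hlam b hb' with h2 | h2
        · left
          rw [h1, h2]
        · right
          rw [h1, h2]
        · right
          rw [h1, h2, neg_neg]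
        · left
          rw [h1, h2]
      rcases hx with hx | hx
      · rw [hx]
        exact AddSubgroup.mem_zmultiples _
      · rw [hx]
        exact AddSubgroup.neg_mem _ (AddSubgroup.mem_zmultiples _)
  · -- six members
    have hb : ∀ i ∈ Out s f R,
        ((Out s f R).filter fun k => π (f k) ∈ AddSubgroup.zmultiples (π (f i))).card ≤ 2 := by
      intro i hi
      have h1 := hBI G H ι π s f R j h i (mem_filter.1 hi).1 (mem_filter.1 hi).2
      exact hNb (Out s f R).card (Inn s f R).card s.card (NN π s f R) (YY s f R) (Nat.card R) (FS s f).card j _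
        (by omega) hk hek (by omega) hlin hY hkY hYy n1 n2 hxU hjU h1
    have hcap := C56_cap (π := π) (s := s) (f := f) (R := R) 2 hb
    have hN := C56_N h hcap
    rw [hs] at hxU hjU hek
    rw [C56_U6] at hxU
    norm_num only at hjU
    rw [C56_U6, C56_U5] at hjU
    obtain ⟨he, hN7, hX, hy4⟩ := C56_num6 (Out s f R).card (Inn s f R).card (NN π s f R) (YY s f R) (Nat.card R)
      (FS s f).card j (by omega) hk hek hN hY hYy n1 n2 (by omega) (by omega)
    have hM := C56_M1 H ι hnc (Out s f R) (fun i => π (f i)) h.q0 hcap h.qap h.qgn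
    rw [he, C56_pn4, C56_cf4] at hM
    have hjj : jj 4 * (jj 4 - 1) = 2 := rfl
    rw [hjj] at hM
    have hNc : (FS (Out s f R) (fun i => π (f i))).card = 7 := hN7
    rw [hNc] at hM
    have hH9 : Nat.card H ≤ 9 := by
      rcases hM with hM | hM
      · have : min 9 (7 + 1) = 8 := rfl
        omega
      · exact hM
    rw [hy4] at hcrd
    rw [hX] at hex
    have hE3 : AddMonoid.exponent G ≤ 3 := by omega
    have h2E : 2 ∣ AddMonoid.exponent G := C56_subexp R Nat.prime_two (by rw [hy4]; norm_num)
    have hE0 : AddMonoid.exponent G ≠ 0 := AddMonoid.exponent_ne_zero_of_finite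
    have hE : AddMonoid.exponent G = 2 := by omega
    obtain ⟨i, hi⟩ : s.Nonempty := by
      rw [← card_pos]
      omega
    refine (all_Ba1 G ι f).2.2.2.2.1 s i hi h.ap (h.h0 i hi) ?_
    have h1 := AddMonoid.exponent_nsmul_eq_zero (f i)
    rw [hE, two_nsmul] at h1
    exact eq_neg_of_add_eq_zero_left h1

end Pool.Agent.SZD
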