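import Pool.Agent.SZD.Pre
import Pool.Agent.SZD.C56

/-!
# SZD, assembly (helper97): cap 2, level 2, rank at least 3, no drop, without hypotheses
-/

set_option autoImplicit false

noncomputable section

open Finset Pool.Agent.Helper64.Rho Pool.Agent.SDG Pool.Agent.SNW Pool.Agent.SNR
open scoped Classical Pointwise

namespace Pool.Agent.SZD

theorem all_C56 : St_C56 := thm_C56 all_BI thm_Ex thm_Nb

/-- the theorem ND2 -/
theorem all_ND2 : SBN.St_ND2 := ND2_of all_C56

end Pool.Agent.SZD
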