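import Pool.Agent.SZD.St
import Pool.Agent.SDG.All

/-!
# SZD, module B4: four members (helper47)
-/

set_option autoImplicit false

noncomputable section

open Finset Pool.Agent.Helper64.Rho Pool.Agent.SDG Pool.Agent.SNW Pool.Agent.SNR
open scoped Classical Pointwise

namespace Pool.Agent.SZD

private theorem B4_sum {G ι : Type} [AddCommGroup G] (f : ι → G) (u v : Finset ι) (h : u ⊆ v) :
    ∑ i ∈ u, f i ∈ gen v f := by
  unfold gen
  apply AddSubgroup.sum_mem
  intro i hi
  exact AddSubgroup.subset_closure ⟨i, h hi, rfl⟩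

private theorem B4_inj {G ι : Type} [AddCommGroup G] (f : ι → G) (t : Finset ι)
    (hmem : ∀ a ∈ t, f a ∉ gen (t.erase a) f) (B C : Finset ι) (hB : B ⊆ t) (hC : C ⊆ t)
    (h : ∑ i ∈ B, f i = ∑ i ∈ C, f i) : B ⊆ C := by
  intro a ha
  by_contra hac
  apply hmem a (hB ha)
  have h1 := Finset.add_sum_erase B f ha
  have h2 : f a = ∑ i ∈ C, f i - ∑ i ∈ B.erase a, f i := by
    rw [← h, ← h1]
    abel
  rw [h2]
  apply AddSubgroup.sub_mem
  · apply B4_sum
    intro i hi
    rw [mem_erase]
    exact ⟨fun e => hac (e ▸ hi), hC hi⟩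
  · exact B4_sum f _ _ (erase_subset_erase a hB)

private theorem B4_comp {G ι : Type} [AddCommGroup G] (f : ι → G) (t : Finset ι) (d : ι)
    (hd : ∀ a ∈ t, f d ∉ gen (t.erase a) f) (B C : Finset ι) (hB : B ⊆ t) (hC : C ⊆ t)
    (h : ∑ i ∈ B, f i + f d = ∑ i ∈ C, f i) : C = t \ B := by
  have key : ∀ a ∈ t, ¬ (a ∈ B ↔ a ∈ C) := by
    intro a ha hiff
    apply hd a ha
    by_cases haB : a ∈ B
    · have haC := hiff.mp haB
      have h1 := Finset.add_sum_erase B f haB
      have h2 := Finset.add_sum_erase C f haC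
      have h3 : f d = ∑ i ∈ C.erase a, f i - ∑ i ∈ B.erase a, f i := by
        have h4 : f a + ∑ i ∈ B.erase a, f i + f d = f a + ∑ i ∈ C.erase a, f i := by
          rw [h1, h2, h]
        have h5 : ∑ i ∈ B.erase a, f i + f d = ∑ i ∈ C.erase a, f i := by
          rw [add_assoc] at h4
          exact add_left_cancel h4
        rw [← h5]
        abel
      rw [h3]
      exact AddSubgroup.sub_mem _ (B4_sum f _ _ (erase_subset_erase a hC))
        (B4_sum f _ _ (erase_subset_erase a hB))
    · have haC : a ∉ C := fun e => haB (hiff.mpr e)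
      have h3 : f d = ∑ i ∈ C, f i - ∑ i ∈ B, f i := by
        rw [← h]
        abel
      rw [h3]
      apply AddSubgroup.sub_mem
      · apply B4_sum
        intro i hi
        rw [mem_erase]
        exact ⟨fun e => haC (e ▸ hi), hC hi⟩
      · apply B4_sum
        intro i hi
        rw [mem_erase]
        exact ⟨fun e => haB (e ▸ hi), hB hi⟩
  ext a
  rw [mem_sdiff]
  constructor
  · intro ha
    exact ⟨hC ha, fun hb => key a (hC ha) ⟨fun _ => ha, fun _ => hb⟩⟩
  · rintro ⟨ha, hb⟩
    by_contra hc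
    exact key a ha ⟨fun e => absurd e hb, fun e => absurd e hc⟩

theorem thm_B4 : St_B4 := by
  intro G ι _ _ s f hs h0 hap hg hnd hrk
  obtain ⟨-, -, -, -, hB5, hB6, -⟩ := all_Ba1 G ι f
  obtain ⟨d, t, hdt, hst, ht⟩ := Finset.card_eq_succ.mp hs
  subst hst
  have hsmall : ∀ u : Finset ι, u.card ≤ 2 → gen u f ≠ ⊤ := by
    intro u hu h
    have := crk_bot_le u f h
    omega
  have htop : gen t f = ⊤ := by
    have h := hnd d (mem_insert_self d t)
    rwa [erase_insert hdt] at h
  have hce : ∀ a ∈ t, (t.erase a).card ≤ 2 := by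
    intro a ha
    rw [card_erase_of_mem ha]
    omega
  have hmem : ∀ a ∈ t, f a ∉ gen (t.erase a) f := by
    intro a ha h
    exact hsmall (t.erase a) (hce a ha) ((hB6 t a ha h).trans htop)
  have hd : ∀ a ∈ t, f d ∉ gen (t.erase a) f := by
    intro a ha h
    have h1 : gen ((insert d t).erase a) f = ⊤ := hnd a (mem_insert_of_mem ha)
    have h2 : gen ((insert d t).erase a) f ≤ gen (t.erase a) f := by
      unfold gen
      rw [AddSubgroup.closure_le]
      rintro _ ⟨i, hi, rfl⟩
      rw [mem_coe, mem_erase, mem_insert] at hi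
      rcases hi.2 with h3 | h3
      · rw [h3]
        exact h
      · exact AddSubgroup.subset_closure ⟨i, by rw [mem_coe, mem_erase]; exact ⟨hi.1, h3⟩, rfl⟩
    exact hsmall (t.erase a) (hce a ha) (eq_top_iff.mpr (h1 ▸ h2))
  have hinj : ∀ B ⊆ t, ∀ C ⊆ t, ∑ i ∈ B, f i = ∑ i ∈ C, f i → B = C := by
    intro B hB C hC h
    exact Finset.Subset.antisymm (B4_inj f t hmem B C hB hC h) (B4_inj f t hmem C B hC hB h.symm)
  -- the sets with both sums
  set Pp : Finset (Finset ι) := t.powerset.filter fun B => ∑ i ∈ B, f i + f d ∈ FS t f with hPp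
  have htwo : ∀ B ∈ Pp, ∑ i ∈ B, f i + ∑ i ∈ B, f i + f d = ∑ i ∈ t, f i := by
    intro B hB
    rw [hPp, mem_filter, mem_powerset] at hB
    obtain ⟨C, hC, hCe⟩ := mem_FS.mp hB.2
    have h1 := B4_comp f t d hd B C hB.1 hC hCe.symm
    rw [h1] at hCe
    rw [add_assoc, ← hCe, add_comm]
    exact Finset.sum_sdiff hB.1
  obtain ⟨a, ha⟩ : t.Nonempty := card_pos.mp (by omega)
  have ha2 : f a ≠ -f a := hB5 (insert d t) a (mem_insert_of_mem ha) hap (h0 a (mem_insert_of_mem ha))
  have hpair : ∀ B ∈ Pp, ∀ B' ∈ Pp, B.erase a = B'.erase a → a ∈ B → a ∈ B' := by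
    intro B hB B' hB' he haB
    by_contra haB'
    have h1 := Finset.add_sum_erase B f haB
    rw [he, erase_eq_of_notMem haB'] at h1
    have h2 := htwo B hB
    have h3 := htwo B' hB'
    rw [← h3, ← h1] at h2
    have h4 : f a + f a + (∑ i ∈ B', f i + ∑ i ∈ B', f i + f d) =
        ∑ i ∈ B', f i + ∑ i ∈ B', f i + f d := by
      refine Eq.trans ?_ h2
      abel
    have h5 : f a + f a = 0 := by
      have := add_eq_right.mp h4
      exact this
    exact ha2 (eq_neg_of_add_eq_zero_left h5)
  have hPcard : Pp.card ≤ 4 := by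
    have h1 : Pp.card ≤ ((t.erase a).powerset).card := by
      apply Finset.card_le_card_of_injOn (fun B => B.erase a)
      · intro B hB
        rw [mem_coe, hPp, mem_filter, mem_powerset] at hB
        rw [mem_coe, mem_powerset]
        exact erase_subset_erase a hB.1
      · intro B hB B' hB' he
        rw [mem_coe] at hB hB'
        have he' : B.erase a = B'.erase a := he
        by_cases haB : a ∈ B
        · have haB' := hpair B hB B' hB' he' haB
          rw [← insert_erase haB, ← insert_erase haB', he']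
        · have haB' : a ∉ B' := fun h => haB (hpair B' hB' B hB he'.symm h)
          rw [← erase_eq_of_notMem haB, ← erase_eq_of_notMem haB', he']
    rw [card_powerset, card_erase_of_mem ha, ht] at h1
    exact h1
  -- counting
  have hS : (FS t f).card = 8 := by
    unfold FS
    rw [card_image_of_injOn, card_powerset, ht]
    · rfl
    · intro B hB C hC h
      rw [mem_coe, mem_powerset] at hB hC
      exact hinj B hB C hC h
  set S2 : Finset G := (FS t f).image fun x => x + f d with hS2
  have hS2c : S2.card = 8 := by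
    rw [hS2, card_image_of_injective _ (fun x y h => add_right_cancel h), hS]
  have hint : (FS t f ∩ S2).card ≤ 4 := by
    refine le_trans ?_ hPcard
    have h1 : FS t f ∩ S2 ⊆ Pp.image fun B => ∑ i ∈ B, f i + f d := by
      intro y hy
      rw [mem_inter, hS2, mem_image] at hy
      obtain ⟨hy1, x, hx, hxy⟩ := hy
      obtain ⟨B, hB, hBe⟩ := mem_FS.mp hx
      rw [mem_image]
      refine ⟨B, ?_, by rw [hBe, hxy]⟩
      rw [hPp, mem_filter, mem_powerset]
      refine ⟨hB, ?_⟩
      rw [hBe, hxy]
      exact hy1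
    exact (card_le_card h1).trans card_image_le
  have hsub : FS t f ∪ S2 ⊆ FS (insert d t) f := by
    intro y hy
    rw [mem_union] at hy
    rcases hy with hy | hy
    · obtain ⟨B, hB, hBe⟩ := mem_FS.mp hy
      exact mem_FS.mpr ⟨B, hB.trans (subset_insert d t), hBe⟩
    · rw [hS2, mem_image] at hy
      obtain ⟨x, hx, hxy⟩ := hy
      obtain ⟨B, hB, hBe⟩ := mem_FS.mp hx
      refine mem_FS.mpr ⟨insert d B, insert_subset_insert d hB, ?_⟩
      rw [sum_insert (fun h => hdt (hB h)), hBe, ← hxy, add_comm]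
  have h1 := card_le_card hsub
  have h2 := card_union_add_card_inter (FS t f) S2
  omega

end Pool.Agent.SZD
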