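import Pool.Agent.SZD.St
import Pool.Agent.SDG.Sm

/-!
# SZD: the members in one cyclic group modulo `R`
-/

set_option autoImplicit false

noncomputable section

open Finset Pool.Agent.Helper64.Rho Pool.Agent.SDG Pool.Agent.SNW Pool.Agent.SNR
open scoped Classical Pointwise

namespace Pool.Agent.SZD

theorem BI_card {H : Type} [AddCommGroup H] [Fintype H] (x : H) (Z : AddSubgroup H) :
    (univ.filter fun c : H => x - c ∈ Z).card = Nat.card Z := by
  have : Fintype Z := Fintype.ofFinite Z
  rw [Nat.card_eq_fintype_card, ← card_univ]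
  symm
  apply card_bij (fun (z : Z) _ => x - (z : H))
  · intro z _
    rw [mem_filter]
    exact ⟨mem_univ _, by rw [sub_sub_cancel]; exact z.2⟩
  · intro a _ b _ h
    exact Subtype.ext (sub_right_injective h)
  · intro c hc
    rw [mem_filter] at hc
    exact ⟨⟨x - c, hc.2⟩, mem_univ _, by rw [sub_sub_cancel]⟩

/-- a set which has at least `a` elements in every coset of `Z` -/
theorem BI_count {H : Type} [AddCommGroup H] [Finite H] (T : Finset H) (Z : AddSubgroup H) (a : ℕ)
    (h : ∀ c : H, a ≤ (T.filter fun x => x - c ∈ Z).card) : a * Nat.card H ≤ T.card * Nat.card Z := by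
  have := Fintype.ofFinite H
  have h1 : ∑ c : H, (T.filter fun x => x - c ∈ Z).card = ∑ x ∈ T, (univ.filter fun c : H => x - c ∈ Z).card := by
    simp only [card_filter]
    exact sum_comm
  have h3 : ∑ _c : H, a ≤ ∑ c : H, (T.filter fun x => x - c ∈ Z).card := sum_le_sum fun c _ => h c
  rw [h1, sum_congr rfl fun x _ => BI_card x Z] at h3
  simp only [sum_const, card_univ, smul_eq_mul] at h3
  rw [Nat.card_eq_fintype_card, mul_comm]
  exact h3

theorem thm_BI (hEx : St_Ex) : St_BI := by
  intro G H ι _ _ _ _ π s f R j hC i hi hiR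
  obtain ⟨b1, b2, -, -, -, -, -⟩ := thm_Ba1 H ι (fun k => π (f k))
  have hSm := thm_Sm thm_Ba1
  set w : H := π (f i) with hw
  set Z : AddSubgroup H := AddSubgroup.zmultiples w with hZ
  set E : Finset ι := (Out s f R).filter fun k => π (f k) ∈ Z with hE
  have hEO : E ⊆ Out s f R := filter_subset _ _
  -- the sums of the members in the cyclic group
  have hA : E.card + 1 ≤ (FS E (fun k => π (f k))).card :=
    (hSm H ι E (fun k => π (f k)) (fun k hk => hC.q0 k (hEO hk)) (b2 _ _ hEO hC.qap)).1
  have hAZ : ∀ x ∈ FS E (fun k => π (f k)), x ∈ Z := fun x hx =>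
    FS_subset_of_mem (M := Z) (fun k hk => (mem_filter.1 hk).2) hx
  have hsplit : FS (Out s f R) (fun k => π (f k)) =
      FS (Out s f R \ E) (fun k => π (f k)) + FS E (fun k => π (f k)) := by
    rw [← b1 _ _ (sdiff_disjoint), sdiff_union_of_subset hEO]
  -- every element of `H` is a sum modulo `Z`
  have hcov : ∀ c : H, ∃ x ∈ FS (Out s f R) (fun k => π (f k)), c - x ∈ Z := by
    intro c
    obtain ⟨g, rfl⟩ := hC.sur c
    have hst : g ∈ st (FS s f) (gen (insert i (Inn s f R)) f) := by
      have := Fintype.ofFinite G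
      have h1 : st (FS s f) (gen (insert i (Inn s f R)) f) = univ := by
        apply (card_eq_iff_eq_univ _).1
        apply le_antisymm (card_le_univ _)
        have h2 := hC.mx i hi hiR
        rwa [Nat.card_eq_fintype_card] at h2
      rw [h1]
      exact mem_univ g
    obtain ⟨a, ha, hga⟩ : ∃ a ∈ FS s f, g - a ∈ gen (insert i (Inn s f R)) f := by
      have := (Set.Finite.mem_toFinset _).1 hst
      exact this
    refine ⟨π a, ?_, ?_⟩
    · rw [q_image s f hC.ker]
      exact mem_image_of_mem π ha
    · rw [← map_sub]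
      have hle : gen (insert i (Inn s f R)) f ≤ Z.comap π := by
        unfold gen
        rw [AddSubgroup.closure_le]
        rintro _ ⟨k, hk, rfl⟩
        rw [SetLike.mem_coe, AddSubgroup.mem_comap]
        rw [mem_coe, mem_insert] at hk
        rcases hk with rfl | hk
        · exact AddSubgroup.mem_zmultiples w
        · rw [(hC.ker (f k)).2 (mem_filter.1 hk).2]
          exact Z.zero_mem
      exact hle hga
  have hcount := BI_count (FS (Out s f R) (fun k => π (f k))) Z (E.card + 1) (fun c => by
    obtain ⟨x, hx, hcx⟩ := hcov c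
    rw [hsplit] at hx
    obtain ⟨v, hv, a, ha, rfl⟩ := mem_add.1 hx
    have hvZ : v - c ∈ Z := by
      have h1 : v - c = -(c - (v + a)) - a := by abel
      rw [h1]
      exact Z.sub_mem (Z.neg_mem hcx) (hAZ a ha)
    refine hA.trans ?_
    apply card_le_card_of_injOn (fun b => v + b)
    · intro b hb
      rw [mem_coe, mem_filter]
      refine ⟨?_, ?_⟩
      · rw [hsplit]
        exact add_mem_add hv hb
      · have h1 : v + b - c = (v - c) + b := by abel
        rw [h1]
        exact Z.add_mem hvZ (hAZ b hb)
    · intro b _ b' _ h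
      exact add_left_cancel h)
  -- the exponent
  have hne : (⊥ : AddSubgroup G) ≠ ⊤ := by
    intro h
    apply hC.h0 i hi
    rw [← AddSubgroup.mem_bot, h]
    trivial
  have hexp := hEx G (FS s f).card hne hC.g2
  have hZE : Nat.card Z ≤ AddMonoid.exponent G := by
    rw [hZ, Nat.card_zmultiples]
    apply Nat.le_of_dvd
    · exact Nat.pos_of_ne_zero (AddMonoid.exponent_ne_zero_of_finite)
    · exact (addOrderOf_map_dvd π (f i)).trans (AddMonoid.addOrder_dvd_exponent (f i))
  have hH : 0 < Nat.card H := Nat.card_pos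
  have hN : 0 < NN π s f R := by
    apply card_pos.2
    exact ⟨0, zero_mem_FS _ _⟩
  rw [hC.crd] at hexp
  have h1 : Nat.card Z * (FS s f).card < 2 * (Nat.card R * Nat.card H) :=
    lt_of_le_of_lt (Nat.mul_le_mul_right _ hZE) hexp
  have h2 : (E.card + 1) * Nat.card H * (FS s f).card ≤ NN π s f R * Nat.card Z * (FS s f).card :=
    Nat.mul_le_mul_right _ hcount
  have h3 : NN π s f R * (Nat.card Z * (FS s f).card) < NN π s f R * (2 * (Nat.card R * Nat.card H)) :=
    Nat.mul_lt_mul_of_pos_left h1 hN
  have h4 : Nat.card H * ((E.card + 1) * (FS s f).card) < Nat.card H * (2 * (Nat.card R * NN π s f R)) := by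
    calc Nat.card H * ((E.card + 1) * (FS s f).card) = (E.card + 1) * Nat.card H * (FS s f).card := by ring
      _ ≤ NN π s f R * Nat.card Z * (FS s f).card := h2
      _ = NN π s f R * (Nat.card Z * (FS s f).card) := by ring
      _ < NN π s f R * (2 * (Nat.card R * Nat.card H)) := h3
      _ = Nat.card H * (2 * (Nat.card R * NN π s f R)) := by ring
  exact Nat.lt_of_mul_lt_mul_left h4

end Pool.Agent.SZD
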