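import Pool.Agent.SZD.St
import Pool.Agent.SNR.Lm
import Pool.Agent.SSX.Main

/-!
# SZD [C7]: `crk R ≥ 2` and at least seven members
-/

set_option autoImplicit false

noncomputable section

open Finset Pool.Agent.Helper64.Rho Pool.Agent.SDG Pool.Agent.SNW Pool.Agent.SNR
open scoped Classical Pointwise

namespace Pool.Agent.SZD

theorem thm_C7 (hBI : St_BI) (hNb : St_Nb) (hNc : St_Nc) : St_C7 := by
  intro G H ι _ _ _ _ π s f R j hC hR
  by_contra hc
  have ht : 7 ≤ s.card := by omega
  have hrH : 2 ≤ crk (⊥ : AddSubgroup H) := hR.trans hC.rH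
  have he : 3 ≤ (Out s f R).card := by
    have := hC.er
    omega
  have hGR : GR (2 - 1) (⊥ : AddSubgroup H) (NN π s f R) := by
    intro L _ hL
    have h0 : crk L = 0 := by omega
    have hT : L = ⊤ := by
      by_contra h
      have := crk_pos h
      omega
    subst hT
    rw [h0, pow_zero, mul_one, AddSubgroup.card_top]
    exact hC.qlt
  have hN1 := thm_LINm 2 (by norm_num) H ι (Out s f R) (fun i => π (f i)) hC.q0 hC.qap hC.qgn
    hrH hGR
  have hN : 2 * (Out s f R).card ≤ NN π s f R + 1 := by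
    have h1 : 2 ^ (2 - 1) * (2 * (Out s f R).card + 3 - 2 * 2) ≤ 2 * NN π s f R := hN1
    norm_num at h1
    omega
  have hY : cf 2 (Inn s f R).card ≤ YY s f R :=
    SSX.PAG_all G ι (Inn s f R) f (fun i hi => hC.h0 i (mem_filter.1 hi).1)
      (P1_cap_mono le_rfl (filter_subset _ _) hC.cap)
      ((all_Ba1 G ι f).2.1 s (Inn s f R) (filter_subset _ _) hC.ap)
  have hcapQ : Cap 2 (Out s f R) (fun i => π (f i)) := by
    intro x
    by_contra hcon
    push Not at hcon
    obtain ⟨i, hi⟩ : ((Out s f R).filter fun i => π (f i) = x ∨ π (f i) = -x).Nonempty :=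
      card_pos.1 (by omega)
    have hiO := (mem_filter.1 hi).1
    have hix := (mem_filter.1 hi).2
    have hi1 := (mem_filter.1 hiO).1
    have hi2 := (mem_filter.1 hiO).2
    have hsub : ((Out s f R).filter fun k => π (f k) = x ∨ π (f k) = -x) ⊆
        (Out s f R).filter fun k => π (f k) ∈ AddSubgroup.zmultiples (π (f i)) := by
      intro k hk
      rw [mem_filter] at hk ⊢
      refine ⟨hk.1, ?_⟩
      have hxm : x ∈ AddSubgroup.zmultiples (π (f i)) := by
        rcases hix with h | h
        · rw [h]; exact AddSubgroup.mem_zmultiples x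
        · rw [h, AddSubgroup.zmultiples_neg]; exact AddSubgroup.mem_zmultiples x
      rcases hk.2 with h | h
      · rw [h]; exact hxm
      · rw [h]; exact AddSubgroup.neg_mem _ hxm
    have hb := hBI G H ι π s f R j hC i hi1 hi2
    have h1 := hNb (Out s f R).card (Inn s f R).card s.card (NN π s f R) (YY s f R) (Nat.card R)
      (FS s f).card j _ he hC.k1 hC.ek (by omega) hN hY hC.kY hC.Yy hC.n1 hC.n2 hC.xU hC.jU hb
    have h2 := card_le_card hsub
    omega
  have hN2 : cf 2 (Out s f R).card ≤ NN π s f R :=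
    SSX.PAG_all H ι (Out s f R) (fun i => π (f i)) hC.q0 hcapQ hC.qap
  exact hNc (Out s f R).card (Inn s f R).card s.card (NN π s f R) (YY s f R) (Nat.card R)
      (FS s f).card j he hC.k1 hC.ek ht hN hN2 hY hC.kY hC.Yy hC.n1 hC.n2 hC.xU hC.jU

end Pool.Agent.SZD
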