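import Pool.Agent.SZD.St
import Pool.Agent.SSX.Main

/-!
# SZD, module CA (helper82): the case `crk R = 1`
-/

set_option autoImplicit false

noncomputable section

open Finset Pool.Agent.Helper64.Rho Pool.Agent.SDG Pool.Agent.SNW Pool.Agent.SNR
open scoped Classical Pointwise

namespace Pool.Agent.SZD

/-! ### numbers -/

private theorem CA_j (t j : ℕ) (ht : 1 ≤ t) (h : SBN.U (t - 1) + j + 1 ≤ SBN.U t) : j ≤ t ∧ (t % 2 = 0 → j + 1 ≤ t) := by
  unfold SBN.U at h
  rw [Nat.sub_add_cancel ht] at h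
  rcases Nat.even_or_odd' t with ⟨a, rfl | rfl⟩
  · have e1 : (2 * a) ^ 2 / 4 = a * a := by
      have : (2 * a) ^ 2 = 4 * (a * a) := by ring
      omega
    have e2 : (2 * a + 1) ^ 2 / 4 = a * a + a := by
      have : (2 * a + 1) ^ 2 = 4 * (a * a + a) + 1 := by ring
      omega
    rw [e1, e2] at h
    omega
  · have e1 : (2 * a + 1) ^ 2 / 4 = a * a + a := by
      have : (2 * a + 1) ^ 2 = 4 * (a * a + a) + 1 := by ring
      omega
    have e2 : (2 * a + 1 + 1) ^ 2 / 4 = a * a + 2 * a + 1 := by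
      have : (2 * a + 1 + 1) ^ 2 = 4 * (a * a + 2 * a + 1) := by ring
      omega
    rw [e1, e2] at h
    omega

private theorem CA_sum {κ : Type} (C : Finset κ) (F : κ → ℕ) (m : ℕ) (h : ∀ c ∈ C, m ≤ F c) : C.card * m ≤ ∑ c ∈ C, F c := by
  have := Finset.card_nsmul_le_sum C F m h
  simpa using this

private theorem CA_num (hNuA : St_NuA) {κ : Type} (C : Finset κ) (σ τ : κ → ℕ) (e k t N Y y X j : ℕ) (he : 3 ≤ e) (hk : 2 ≤ k)
    (ht : e + k = t) (hN : e + 1 ≤ N) (hC : C.card = N) (hY : cf 2 k ≤ Y) (hNY : N * Y ≤ X) (hX : X + 1 ≤ SBN.U t)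
    (hj : SBN.U (t - 1) + j + 1 ≤ SBN.U t) (hyX : X < 2 * y)
    (hY1 : min (pn k) (cf 2 k + 1) ≤ Y ∨ y ≤ Y + jj k * (jj k - 1)) (hσ : ∑ c ∈ C, σ c ≤ k * j) (hτ : ∑ c ∈ C, τ c = X)
    (hr : ∀ c ∈ C, Y ≤ τ c ∧ (2 * k ≤ σ c + 1 ∨ (k = 3 ∧ 4 ≤ σ c ∧ 8 ≤ τ c) ∨ (k = 4 ∧ 6 ≤ σ c ∧ 12 ≤ τ c) ∨ (k = 5 ∧ 8 ≤ σ c))) :
    False := by
  obtain ⟨hj1, hj2⟩ := CA_j t j (by omega) hj
  rcases Nat.lt_or_ge k 5 with h5 | h5
  · interval_cases k
    · -- k = 2
      have h1 := CA_sum C σ 3 (fun c hc => by have := (hr c hc).2; omega)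
      rw [hC] at h1
      omega
    · -- k = 3
      have h1 := CA_sum C σ 4 (fun c hc => by have := (hr c hc).2; omega)
      rw [hC] at h1
      have hY5 : 5 ≤ Y := by
        have : cf 2 3 = 5 := by decide
        omega
      have ht7 : t = 7 := by omega
      have hN5 : N = 5 := by omega
      have h2 := CA_sum C (fun c => 3 * σ c + τ c) 20 (fun c hc => by
        have := hr c hc
        show 20 ≤ 3 * σ c + τ c
        omega)
      rw [hC, sum_add_distrib, ← mul_sum, hτ] at h2
      have hU : SBN.U 7 = 32 := by decide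
      rw [ht7] at hX
      omega
    · -- k = 4
      have h1 := CA_sum C σ 6 (fun c hc => by have := (hr c hc).2; omega)
      rw [hC] at h1
      have hc4 : cf 2 4 = 7 := by decide
      have hY7 : 7 ≤ Y := by omega
      have ht79 : t = 7 ∨ t = 9 := by omega
      rcases ht79 with ht7 | ht9
      · have hN4 : N = 4 := by omega
        have hU : SBN.U 7 = 32 := by decide
        rw [ht7] at hX
        subst hN4
        have hpn : pn 4 = 9 := by decide
        have hjj : jj 4 * (jj 4 - 1) = 2 := by decide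
        rw [hpn, hc4, hjj] at hY1
        have : min 9 (7 + 1) = 8 := by decide
        omega
      · have hN6 : N = 6 := by omega
        have h2 := CA_sum C (fun c => 5 * σ c + τ c) 42 (fun c hc => by
          have := hr c hc
          show 42 ≤ 5 * σ c + τ c
          omega)
        rw [hC, sum_add_distrib, ← mul_sum, hτ] at h2
        have hU : SBN.U 9 = 50 := by decide
        rw [ht9] at hX
        omega
  · refine hNuA e k t N Y X j he h5 ht hN hY hNY ?_ hX hj
    have h1 := CA_sum C σ (2 * k - 2) (fun c hc => by have := (hr c hc).2; omega)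
    rw [hC, mul_comm] at h1
    exact h1.trans hσ

/-! ### cyclic groups -/

private theorem CA_ncyc {G : Type} [AddCommGroup G] [Finite G] (R : AddSubgroup G) (h1 : crk R ≤ 1)
    (h3 : 3 ≤ crk (⊥ : AddSubgroup G)) : ¬ IsAddCyclic R := by
  rintro ⟨g, hg⟩
  have h2 : AddSubgroup.zmultiples (g : G) = R := by
    apply le_antisymm
    · rw [AddSubgroup.zmultiples_le]
      exact g.2
    · intro x hx
      obtain ⟨n, hn⟩ := hg ⟨x, hx⟩
      refine AddSubgroup.mem_zmultiples_iff.2 ⟨n, ?_⟩
      have := congrArg Subtype.val hn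
      simpa using this
  have h4 := crk_sup_le (⊥ : AddSubgroup G) (g : G)
  rw [bot_sup_eq, h2] at h4
  omega

private theorem CA_zm {G : Type} [AddCommGroup G] (R : AddSubgroup G) (x : G) (h : R ≤ AddSubgroup.zmultiples x) : IsAddCyclic R := by
  have h1 : IsAddCyclic (AddSubgroup.zmultiples x) := inferInstance
  exact isAddCyclic_of_injective (AddSubgroup.inclusion h) (AddSubgroup.inclusion_injective h)

private theorem CA_two {G ι : Type} [AddCommGroup G] (u : Finset ι) (f : ι → G) (hc : ¬ IsAddCyclic (gen u f)) (h0 : ∀ i ∈ u, f i ≠ 0) :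
    2 ≤ u.card ∧ (u.card = 2 → 4 ≤ (FS u f).card) := by
  constructor
  · by_contra hcon
    apply hc
    rcases Nat.lt_or_ge u.card 1 with h1 | h1
    · have : u = ∅ := card_eq_zero.1 (by omega)
      subst this
      apply CA_zm _ 0
      unfold gen
      simp
    · obtain ⟨a, rfl⟩ := card_eq_one.1 (show u.card = 1 by omega)
      apply CA_zm _ (f a)
      unfold gen
      rw [coe_singleton, Set.image_singleton, ← AddSubgroup.zmultiples_eq_closure]
  · intro h2
    obtain ⟨a, b, hab, rfl⟩ := card_eq_two.1 h2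
    have ha : f a ≠ 0 := h0 a (by simp)
    have hb : f b ≠ 0 := h0 b (by simp)
    have h3 : f b ∉ AddSubgroup.zmultiples (f a) := by
      intro h4
      apply hc
      apply CA_zm _ (f a)
      unfold gen
      rw [AddSubgroup.closure_le]
      rintro _ ⟨i, hi, rfl⟩
      rw [mem_coe, mem_insert, mem_singleton] at hi
      rcases hi with rfl | rfl
      · exact AddSubgroup.mem_zmultiples _
      · exact h4
    have h5 : f b ≠ f a := fun h => h3 (h ▸ AddSubgroup.mem_zmultiples _)
    have h6 : f a + f b ≠ 0 := fun h => h3 (by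
      rw [← neg_eq_of_add_eq_zero_right h]
      exact AddSubgroup.neg_mem _ (AddSubgroup.mem_zmultiples _))
    have h7 : ({0, f a, f b, f a + f b} : Finset G) ⊆ FS {a, b} f := by
      intro x hx
      rw [mem_insert, mem_insert, mem_insert, mem_singleton] at hx
      rw [mem_FS]
      rcases hx with rfl | rfl | rfl | rfl
      · exact ⟨∅, by simp, by simp⟩
      · exact ⟨{a}, by simp, by simp⟩
      · exact ⟨{b}, by simp, by simp⟩
      · exact ⟨{a, b}, by simp, sum_pair hab⟩
    refine le_trans (le_of_eq ?_) (card_le_card h7)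
    rw [card_insert_of_notMem, card_insert_of_notMem, card_insert_of_notMem, card_singleton]
    · rw [mem_singleton]
      intro h
      exact ha (by simpa using h.symm)
    · rw [mem_insert, mem_singleton]
      rintro (h | h)
      · exact h5 h.symm
      · exact hb (by simpa using h.symm)
    · rw [mem_insert, mem_insert, mem_singleton]
      rintro (h | h | h)
      · exact ha h.symm
      · exact hb h.symm
      · exact h6 h.symm

private theorem CA_add {G : Type} [AddCommGroup G] (W F : Finset G) (h : W.Nonempty) : F.card ≤ (W + F).card := by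
  obtain ⟨w, hw⟩ := h
  rw [← card_image_of_injective F (add_right_injective w)]
  apply card_le_card
  intro x hx
  obtain ⟨y, hy, rfl⟩ := mem_image.1 hx
  exact add_mem_add hw hy

/-- **CA**: the case `crk R = 1` -/
theorem thm_CA : St_Fr → St_Rs → St_Ra → St_Rp → St_LR → St_LBs → St_Y1 → St_NuA → St_CA := by
  intro hFr hRs hRa hRp hLR hLBs hY1 hNuA G H ι _ _ _ _ π s f R j hC hcr
  have hgen := hLR G H ι π s f R j hC hcr
  have hnc : ¬ IsAddCyclic (gen (Inn s f R) f) := by
    rw [hgen]
    exact CA_ncyc R hcr hC.rk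
  -- the members in `R`
  have hus : Inn s f R ⊆ s := filter_subset _ _
  have hu0 : ∀ i ∈ Inn s f R, f i ≠ 0 := fun i hi => hC.h0 i (hus hi)
  have hucap : Cap 2 (Inn s f R) f := P1_cap_mono le_rfl hus hC.cap
  have huap : Aper (FS (Inn s f R) f) := (all_Ba1 G ι f).2.1 s _ hus hC.ap
  have hY : cf 2 (Inn s f R).card ≤ YY s f R := SSX.PAG_all G ι _ f hu0 hucap huap
  obtain ⟨hk2, hY2⟩ := CA_two (Inn s f R) f hnc hu0
  have hY4 : 4 ≤ YY s f R := by
    rcases Nat.lt_or_ge (Inn s f R).card 3 with h | h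
    · exact hY2 (by omega)
    · have h1 := all_Nm1.2.2.2.1 2 3 _ h
      have h2 : cf 2 3 = 5 := by decide
      omega
  have hN : (Out s f R).card + 1 ≤ NN π s f R := (all_Sm H ι (Out s f R) (fun i => π (f i)) hC.q0 hC.qap).1
  have hX2 := hC.y2 hcr
  have her : 2 ≤ (Out s f R).card := by
    have h1 := hC.er
    have h2 := hC.r1
    omega
  have hn2 := hC.n2
  have hek := hC.ek
  have hxU := hC.xU
  -- (1)
  have he3 : 3 ≤ (Out s f R).card := by
    by_contra hcon
    have he2 : (Out s f R).card = 2 := by omega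
    have h1 : 3 * YY s f R ≤ NN π s f R * YY s f R := Nat.mul_le_mul_right _ (by omega)
    have h2 := hLBs G ι (Inn s f R) f hnc hu0 hucap huap (by rw [hgen]; exact lt_of_le_of_lt (h1.trans hn2) hX2)
    have h3 : (Inn s f R).card + 2 = s.card := by omega
    rw [h3] at h2
    exact absurd ((h2.trans h1).trans hn2) (by omega)
  -- rows
  have hfil : (s.filter fun i => π (f i) = 0) = Inn s f R := filter_congr fun i _ => hC.ker (f i)
  have himg : ((FS s f).image π).card = NN π s f R := by
    show _ = (FS (s.filter fun i => f i ∉ R) (fun i => π (f i))).card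
    rw [q_image s f hC.ker]
  obtain ⟨hRs1, hRs2⟩ := hRs G H ι π s f
  have hz : ∃ z ∈ s, π (f z) ≠ 0 ∧ π (f z) + π (f z) ≠ 0 := by
    obtain ⟨z, hz⟩ : (Out s f R).Nonempty := card_pos.1 (by omega)
    refine ⟨z, (filter_subset _ _) hz, hC.q0 z hz, fun h => ?_⟩
    exact (all_Ba1 H ι (fun i => π (f i))).2.2.2.2.1 (Out s f R) z hz hC.qap (hC.q0 z hz) (eq_neg_of_add_eq_zero_left h)
  have hrow : ∀ c ∈ (FS s f).image π, ((FS s f).filter fun x => π x = c).card + 3 ≤ Nat.card R := by
    intro c _
    have h1 := hFr G H ι π s f hz c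
    rw [himg, hfil] at h1
    have h2 : 1 * 4 ≤ (NN π s f R - 3) * YY s f R := Nat.mul_le_mul (by omega) hY4
    have h3 : 2 * ((FS s f).filter fun x => π x = c).card + (NN π s f R - 3) * YY s f R ≤ (FS s f).card := h1
    omega
  refine CA_num hNuA ((FS s f).image π) (fun c => ∑ i ∈ Inn s f R, lam ((FS s f).filter fun x => π x = c) (f i))
    (fun c => ((FS s f).filter fun x => π x = c).card) (Out s f R).card (Inn s f R).card s.card (NN π s f R) (YY s f R) (Nat.card R)
    (FS s f).card j he3 hk2 hek hN himg hY hn2 hxU hC.jU hX2 ?_ ?_ ?_ ?_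
  · have h1 := hY1 G ι (Inn s f R) f hnc hu0 hucap huap
    rw [hgen] at h1
    exact h1
  · rw [sum_comm]
    have h1 : ∑ i ∈ Inn s f R, ∑ c ∈ (FS s f).image π, lam ((FS s f).filter fun x => π x = c) (f i) =
        ∑ i ∈ Inn s f R, lam (FS s f) (f i) := by
      refine sum_congr rfl fun i hi => (hRs1 (f i) ?_).symm
      exact (hC.ker (f i)).2 (mem_filter.1 hi).2
    rw [h1]
    have h2 := Finset.sum_le_card_nsmul (Inn s f R) (fun i => lam (FS s f) (f i)) j (fun i hi => hC.lj i (hus hi))
    simpa using h2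
  · exact (card_eq_sum_card_image π (FS s f)).symm
  · intro c hc
    obtain ⟨W, hW, hWc, hWe⟩ := hRs2 c hc
    rw [hfil] at hWe
    have hr := hrow c hc
    show YY s f R ≤ ((FS s f).filter fun x => π x = c).card ∧ _
    beta_reduce
    rw [hWe] at hr ⊢
    have hRow : RowH (Inn s f R) f W := {
      ne := hW
      co := fun x hx x' hx' => by
        rw [hgen, ← hC.ker, map_sub, hWc x hx, hWc x' hx', sub_self]
      nc := hnc
      h0 := hu0
      cap := hucap
      ap := huap
      sz := by rw [hgen]; exact hr }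
    refine ⟨CA_add W _ hW, ?_⟩
    by_cases hA : Aper (W + FS (Inn s f R) f)
    · exact Or.inl (hRa G ι (Inn s f R) f W hRow hA)
    · exact hRp G ι (Inn s f R) f W hRow hA

end Pool.Agent.SZD
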