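import Pool.Agent.SBN.Defs

/-!
# SZD: cap 2, rank at least three, level exactly two, no drop: the main contradiction (MP_ec93d3_co).  Architect helper97.

`Ctx`: a counterexample of `|T| ≥ U t` with the deletion bound `lam T (f i) ≤ j`, together with a maximal candidate `R` of level one.
-/

set_option autoImplicit false

noncomputable section

open Finset Pool.Agent.Helper64.Rho Pool.Agent.SDG Pool.Agent.SNW Pool.Agent.SNR
open scoped Classical Pointwise

namespace Pool.Agent.SZD

/-- the members in `R` -/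
abbrev Inn {G ι : Type} [AddCommGroup G] (s : Finset ι) (f : ι → G) (R : AddSubgroup G) : Finset ι := s.filter fun i => f i ∈ R

/-- the members outside `R` -/
abbrev Out {G ι : Type} [AddCommGroup G] (s : Finset ι) (f : ι → G) (R : AddSubgroup G) : Finset ι := s.filter fun i => f i ∉ R

/-- the number of sums modulo `R` (`π` is the projection) -/
abbrev NN {G H ι : Type} [AddCommGroup G] [AddCommGroup H] (π : G →+ H) (s : Finset ι) (f : ι → G) (R : AddSubgroup G) : ℕ :=
  (FS (Out s f R) (fun i => π (f i))).card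

/-- the number of sums of the members in `R` -/
abbrev YY {G ι : Type} [AddCommGroup G] (s : Finset ι) (f : ι → G) (R : AddSubgroup G) : ℕ := (FS (Inn s f R) f).card

/-- the family: at least 5 members, no drop, rank at least 3, level 2, less than `U t` sums, `lam ≤ j` -/
structure Fam {G ι : Type} [AddCommGroup G] [Finite G] (s : Finset ι) (f : ι → G) (j : ℕ) : Prop where
  t5 : 5 ≤ s.card
  h0 : ∀ i ∈ s, f i ≠ 0
  cap : Cap 2 s f
  ap : Aper (FS s f)
  gn : gen s f = ⊤
  nd : ∀ i ∈ s, gen (s.erase i) f = ⊤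
  rk : 3 ≤ crk (⊥ : AddSubgroup G)
  g2 : GR 2 (⊥ : AddSubgroup G) (FS s f).card
  xU : (FS s f).card + 1 ≤ SBN.U s.card
  jU : SBN.U (s.card - 1) + j + 1 ≤ SBN.U s.card
  lj : ∀ i ∈ s, lam (FS s f) (f i) ≤ j

/-- a maximal candidate `R` of level one, with the projection `π : G → G / R = H` -/
structure Ctx {G H ι : Type} [AddCommGroup G] [Finite G] [AddCommGroup H] [Finite H] (π : G →+ H) (s : Finset ι) (f : ι → G)
    (R : AddSubgroup G) (j : ℕ) : Prop extends Fam s f j where
  sur : Function.Surjective π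
  ker : ∀ x, π x = 0 ↔ x ∈ R
  nt : R ≠ ⊤
  cd : Cd s f R
  crd : Nat.card G = Nat.card R * Nat.card H
  q0 : ∀ i ∈ Out s f R, π (f i) ≠ 0
  qap : Aper (FS (Out s f R) (fun i => π (f i)))
  qgn : gen (Out s f R) (fun i => π (f i)) = ⊤
  qlt : NN π s f R < Nat.card H
  r1 : 1 ≤ crk R
  rH : crk R ≤ crk (⊥ : AddSubgroup H)
  n1 : Nat.card R * NN π s f R + j * YY s f R ≤ (FS s f).card + j * Nat.card R
  n2 : NN π s f R * YY s f R ≤ (FS s f).card
  k1 : 1 ≤ (Inn s f R).card
  kY : (Inn s f R).card + 1 ≤ YY s f R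
  Yy : YY s f R + 1 ≤ Nat.card R
  ek : (Out s f R).card + (Inn s f R).card = s.card
  er : crk R + 1 ≤ (Out s f R).card
  y2 : crk R ≤ 1 → (FS s f).card < 2 * Nat.card R
  mx : ∀ i ∈ s, f i ∉ R → Nat.card G ≤ (st (FS s f) (gen (insert i (Inn s f R)) f)).card

end Pool.Agent.SZD
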