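import Pool.Agent.SZD.St
import Pool.Agent.SNW.Eq

/-!
# SZD, module Ex (helper85): the exponent
-/

set_option autoImplicit false

noncomputable section

open Finset Pool.Agent.Helper64.Rho Pool.Agent.SDG Pool.Agent.SNW Pool.Agent.SNR
open scoped Classical Pointwise

namespace Pool.Agent.SZD

theorem Ex_sup {G : Type} [AddCommGroup G] (L : AddSubgroup G) (h : IsAddCyclic (G ⧸ L)) :
    ∃ z : G, L ⊔ AddSubgroup.zmultiples z = ⊤ := by
  obtain ⟨g, hg⟩ := h.exists_zsmul_surjective
  obtain ⟨z, rfl⟩ := QuotientAddGroup.mk'_surjective L g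
  refine ⟨z, ?_⟩
  rw [eq_top_iff]
  intro x _
  obtain ⟨k, hk⟩ := hg (QuotientAddGroup.mk' L x)
  have h1 : x - k • z ∈ L := by
    rw [← QuotientAddGroup.eq_zero_iff]
    have h2 : ((x - k • z : G) : G ⧸ L) =
        QuotientAddGroup.mk' L x - k • QuotientAddGroup.mk' L z := by
      rw [← map_zsmul, ← map_sub]
      rfl
    rw [h2, ← hk]
    simp
  have h3 : x = (x - k • z) + k • z := by abel
  rw [h3]
  exact AddSubgroup.add_mem_sup h1 (AddSubgroup.zsmul_mem_zmultiples z k)

theorem thm_Ex : St_Ex := by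
  intro G _ _ X _ hGR
  obtain ⟨L, hL, hLc⟩ := exp_quot G
  have he : AddMonoid.exponent G ∣ Nat.card G := by
    refine AddMonoid.exponent_dvd_of_forall_nsmul_eq_zero fun x => ?_
    exact card_nsmul_eq_zero'
  have he0 : 0 < AddMonoid.exponent G := Nat.pos_of_dvd_of_pos he Nat.card_pos
  have hcard : AddMonoid.exponent G * Nat.card L = Nat.card G := by
    rw [hLc, l0]
    exact Nat.mul_div_cancel' he
  obtain ⟨z, hz⟩ := Ex_sup L hL
  have hcr : crk L ≤ 1 := by
    have h1 : L ⊔ AddSubgroup.closure (({z} : Finset G) : Set G) = ⊤ := by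
      rw [coe_singleton, ← AddSubgroup.zmultiples_eq_closure, hz]
    have h2 := crk_le h1
    rwa [card_singleton] at h2
  have h3 := hGR L bot_le (by omega)
  have h4 : 2 ^ crk L ≤ 2 := by
    calc 2 ^ crk L ≤ 2 ^ 1 := Nat.pow_le_pow_right (by norm_num) hcr
      _ = 2 := by norm_num
  have h5 : X < Nat.card L * 2 := lt_of_lt_of_le h3 (Nat.mul_le_mul_left _ h4)
  calc AddMonoid.exponent G * X < AddMonoid.exponent G * (Nat.card L * 2) :=
        Nat.mul_lt_mul_of_pos_left h5 he0
    _ = 2 * Nat.card G := by rw [← hcard]; ring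

end Pool.Agent.SZD
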