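import Pool.Agent.SZD.St

/-!
# SZD, module Fr: no full row
-/

set_option autoImplicit false

noncomputable section

open Finset Pool.Agent.Helper64.Rho Pool.Agent.SDG Pool.Agent.SNW Pool.Agent.SNR
open scoped Classical Pointwise

namespace Pool.Agent.SZD

/-- every nonempty row contains a translate of the sums of the members in the kernel -/
private theorem Fr_row {G H ι : Type} [AddCommGroup G] [AddCommGroup H] (π : G →+ H) (s : Finset ι) (f : ι → G) (d : H)
    (hd : d ∈ (FS s f).image π) :
    (FS (s.filter fun i => π (f i) = 0) f).card ≤ ((FS s f).filter fun x => π x = d).card := by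
  obtain ⟨x, hx, hxd⟩ := mem_image.1 hd
  obtain ⟨B, hB, rfl⟩ := mem_FS.1 hx
  have hsplit : ∑ i ∈ B, f i = ∑ i ∈ B.filter (fun i => π (f i) = 0), f i + ∑ i ∈ B.filter (fun i => ¬ π (f i) = 0), f i :=
    (Finset.sum_filter_add_sum_filter_not B _ _).symm
  have hz : ∀ A : Finset ι, (∀ i ∈ A, π (f i) = 0) → π (∑ i ∈ A, f i) = 0 := by
    intro A hA
    rw [map_sum]
    exact Finset.sum_eq_zero hA
  have hd' : π (∑ i ∈ B.filter (fun i => ¬ π (f i) = 0), f i) = d := by
    rw [← hxd, hsplit, map_add, hz _ (fun i hi => (mem_filter.1 hi).2), zero_add]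
  have hinj : Function.Injective (fun v : G => ∑ i ∈ B.filter (fun i => ¬ π (f i) = 0), f i + v) := fun a b h => add_left_cancel h
  rw [← Finset.card_image_of_injective _ hinj]
  apply Finset.card_le_card
  intro w hw
  obtain ⟨v, hv, rfl⟩ := mem_image.1 hw
  obtain ⟨A, hA, rfl⟩ := mem_FS.1 hv
  rw [mem_filter]
  constructor
  · refine mem_FS.2 ⟨B.filter (fun i => ¬ π (f i) = 0) ∪ A, ?_, ?_⟩
    · exact Finset.union_subset ((Finset.filter_subset _ _).trans hB) (hA.trans (Finset.filter_subset _ _))
    · apply Finset.sum_union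
      rw [Finset.disjoint_left]
      intro i hi hi'
      exact (mem_filter.1 hi).2 (mem_filter.1 (hA hi')).2
  · rw [map_add, hd', hz A (fun i hi => (mem_filter.1 (hA hi)).2), add_zero]

/-- a row is at most the sum of its two neighbours -/
private theorem Fr_nb {G H ι : Type} [AddCommGroup G] [AddCommGroup H] (π : G →+ H) (s : Finset ι) (f : ι → G) (z : ι) (hz : z ∈ s) (c : H) :
    ((FS s f).filter fun x => π x = c).card ≤ ((FS s f).filter fun x => π x = c + π (f z)).card +
      ((FS s f).filter fun x => π x = c - π (f z)).card := by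
  have hs : FS s f = FS (s.erase z) f ∪ (FS (s.erase z) f).image (· + f z) := by
    rw [← FS_insert (Finset.notMem_erase z s), Finset.insert_erase hz]
  have h1 : ((FS (s.erase z) f).filter fun x => π x = c).card ≤ ((FS s f).filter fun x => π x = c + π (f z)).card := by
    rw [← Finset.card_image_of_injective _ (add_left_injective (f z))]
    apply Finset.card_le_card
    intro w hw
    obtain ⟨v, hv, rfl⟩ := mem_image.1 hw
    rw [mem_filter] at hv ⊢
    refine ⟨?_, by rw [map_add, hv.2]⟩
    rw [hs]
    exact Finset.mem_union_right _ (mem_image.2 ⟨v, hv.1, rfl⟩)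
  have h2 : ((FS (s.erase z) f).filter fun x => π x = c - π (f z)).card ≤ ((FS s f).filter fun x => π x = c - π (f z)).card := by
    apply Finset.card_le_card
    apply Finset.filter_subset_filter
    rw [hs]
    exact Finset.subset_union_left
  have h3 : (FS s f).filter (fun x => π x = c) ⊆ ((FS (s.erase z) f).filter fun x => π x = c) ∪
      ((FS (s.erase z) f).filter fun x => π x = c - π (f z)).image (· + f z) := by
    intro x hx
    rw [mem_filter, hs, mem_union] at hx
    obtain ⟨hx | hx, hc⟩ := hx
    · exact Finset.mem_union_left _ (mem_filter.2 ⟨hx, hc⟩)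
    · obtain ⟨v, hv, rfl⟩ := mem_image.1 hx
      apply Finset.mem_union_right
      refine mem_image.2 ⟨v, mem_filter.2 ⟨hv, ?_⟩, rfl⟩
      rw [← hc, map_add, add_sub_cancel_right]
  calc ((FS s f).filter fun x => π x = c).card ≤ _ := Finset.card_le_card h3
    _ ≤ _ := Finset.card_union_le _ _
    _ ≤ _ := add_le_add h1 (Finset.card_image_le.trans h2)

theorem thm_Fr : St_Fr := by
  intro G H ι _ _ _ π s f ⟨z, hz, hζ, hζ2⟩ c
  have hnb := Fr_nb π s f z hz c
  have hne1 : c ≠ c + π (f z) := fun h => hζ (by simpa using h.symm)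
  have hne2 : c ≠ c - π (f z) := fun h => hζ (by simpa using h.symm)
  have hne3 : c + π (f z) ≠ c - π (f z) := by
    intro h
    apply hζ2
    have h1 : c + π (f z) + π (f z) = c := by
      rw [h]
      abel
    rw [add_assoc] at h1
    simpa using h1
  -- the sum of the rows
  have hsum : ∀ D : Finset H, (FS s f).image π ⊆ D → (FS s f).card = ∑ d ∈ D, ((FS s f).filter fun x => π x = d).card := by
    intro D hD
    exact Finset.card_eq_sum_card_fiberwise (fun x hx => hD (mem_image_of_mem π hx))
  have hC : ({c, c + π (f z), c - π (f z)} : Finset H).card = 3 := by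
    rw [Finset.card_eq_three]
    exact ⟨_, _, _, hne1, hne2, hne3, rfl⟩
  have h1 := hsum (((FS s f).image π \ {c, c + π (f z), c - π (f z)}) ∪ {c, c + π (f z), c - π (f z)}) (by
    intro d hd
    rw [Finset.mem_union, Finset.mem_sdiff]
    by_cases h : d ∈ ({c, c + π (f z), c - π (f z)} : Finset H)
    · exact Or.inr h
    · exact Or.inl ⟨hd, h⟩)
  rw [Finset.sum_union Finset.sdiff_disjoint] at h1
  have h2 : ∑ d ∈ ({c, c + π (f z), c - π (f z)} : Finset H), ((FS s f).filter fun x => π x = d).card =
      ((FS s f).filter fun x => π x = c).card + (((FS s f).filter fun x => π x = c + π (f z)).card +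
      ((FS s f).filter fun x => π x = c - π (f z)).card) := by
    rw [Finset.sum_insert (by simp [hne1, hne2]), Finset.sum_insert (by simpa using hne3), Finset.sum_singleton]
  have h3 : ((FS s f).image π \ {c, c + π (f z), c - π (f z)}).card * (FS (s.filter fun i => π (f i) = 0) f).card ≤
      ∑ d ∈ (FS s f).image π \ {c, c + π (f z), c - π (f z)}, ((FS s f).filter fun x => π x = d).card := by
    rw [← smul_eq_mul]
    apply Finset.card_nsmul_le_sum
    intro d hd
    exact Fr_row π s f d (Finset.mem_sdiff.1 hd).1
  have h4 : ((FS s f).image π).card - 3 ≤ ((FS s f).image π \ {c, c + π (f z), c - π (f z)}).card := by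
    have := Finset.le_card_sdiff ({c, c + π (f z), c - π (f z)} : Finset H) ((FS s f).image π)
    rw [hC] at this
    exact this
  have h5 := Nat.mul_le_mul_right (FS (s.filter fun i => π (f i) = 0) f).card h4
  rw [h2] at h1
  linarith

end Pool.Agent.SZD
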