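import Pool.Agent.SZD.St
import Pool.Agent.SSX.Main

/-!
# SZD, module LR: if `crk R ≤ 1` then the members in `R` generate `R` (MP_ec93d3_co)
-/

set_option autoImplicit false

noncomputable section

open Finset Pool.Agent.Helper64.Rho Pool.Agent.SDG Pool.Agent.SNW Pool.Agent.SNR
open scoped Classical Pointwise

namespace Pool.Agent.SZD

private theorem LR_card_le {G : Type} [AddCommGroup G] [Finite G] (T : Finset G)
    (L : AddSubgroup G) (h : ∀ x ∈ T, x ∈ L) : T.card ≤ Nat.card L := by
  have h1 : T.card = Nat.card (T : Set G) := by simp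
  rw [h1]
  exact Nat.card_mono (Set.toFinite _) (fun x hx => h x hx)

theorem thm_LR (hNuL : St_NuL) : St_LR := by
  intro G H ι _ _ _ _ π s f R j hc hr
  by_contra hne
  have hfil : (s.filter fun i => f i ∈ gen (s.filter fun i => f i ∈ R) f) =
      s.filter fun i => f i ∈ R := P1_filter s f R
  have hLgen : gen (s.filter fun i => f i ∈ gen (s.filter fun i => f i ∈ R) f) f =
      gen (s.filter fun i => f i ∈ R) f := by rw [hfil]
  have hLP : gen (s.filter fun i => f i ∈ R) f ≤ R := P1_gen_le s f R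
  obtain ⟨hP1, hP2⟩ := all_Pc G ι s f (gen (s.filter fun i => f i ∈ R) f) j hc.h0 hc.ap hLgen
    (fun i hi _ => hc.lj i hi)
  rw [hfil, ← Cd_st hc.cd, ← q_card s f hc.ker] at hP1 hP2
  have hsub : (s.filter fun i => f i ∈ R) ⊆ s := filter_subset _ _
  have hAP : Aper (FS (s.filter fun i => f i ∈ R) f) := (all_Ba1 G ι f).2.1 _ _ hsub hc.ap
  have hYL : YY s f R ≤ Nat.card (gen (s.filter fun i => f i ∈ R) f) :=
    LR_card_le _ _ ((all_Ba1 G ι f).2.2.2.2.2.2 _)
  -- Lagrange
  have hLpos : 0 < Nat.card (gen (s.filter fun i => f i ∈ R) f) := Nat.card_pos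
  have hL2 : 2 * Nat.card (gen (s.filter fun i => f i ∈ R) f) ≤ Nat.card R := by
    obtain ⟨q, hq⟩ := AddSubgroup.card_dvd_of_le hLP
    have hRpos : 0 < Nat.card R := Nat.card_pos
    have hq0 : q ≠ 0 := by
      rintro rfl
      rw [mul_zero] at hq
      omega
    have hq1 : q ≠ 1 := by
      rintro rfl
      rw [mul_one] at hq
      apply hne
      apply AddSubgroup.eq_of_le_of_card_ge hLP
      exact hq.le
    have hq2 : 2 ≤ q := by omega
    rw [hq]
    calc 2 * Nat.card (gen (s.filter fun i => f i ∈ R) f)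
        = Nat.card (gen (s.filter fun i => f i ∈ R) f) * 2 := mul_comm _ _
      _ ≤ _ := Nat.mul_le_mul_left _ hq2
  have hN : (Out s f R).card + 1 ≤ NN π s f R :=
    (all_Sm H ι (Out s f R) (fun i => π (f i)) hc.q0 hc.qap).1
  have hY : cf 2 (Inn s f R).card ≤ YY s f R :=
    SSX.PAG_all G ι (Inn s f R) f (fun i hi => hc.h0 i (hsub hi)) (P1_cap_mono le_rfl hsub hc.cap)
      hAP
  have hX1 : 2 * (NN π s f R * YY s f R) ≤ (FS s f).card := by
    have h1 : Nat.card (gen (s.filter fun i => f i ∈ R) f) * (2 * (NN π s f R * YY s f R)) ≤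
        Nat.card (gen (s.filter fun i => f i ∈ R) f) * (FS s f).card := by
      refine le_trans ?_ hP2
      calc Nat.card (gen (s.filter fun i => f i ∈ R) f) * (2 * (NN π s f R * YY s f R))
          = (2 * Nat.card (gen (s.filter fun i => f i ∈ R) f)) * (NN π s f R * YY s f R) := by ring
        _ ≤ Nat.card R * (NN π s f R * YY s f R) := Nat.mul_le_mul_right _ hL2
        _ = _ := by ring
    exact Nat.le_of_mul_le_mul_left h1 hLpos
  have hX2 : 2 * (Nat.card R * NN π s f R) + 2 * (j * YY s f R) ≤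
      2 * (FS s f).card + j * Nat.card R := by
    have h1 : Nat.card R * NN π s f R + j * YY s f R ≤ (FS s f).card +
        j * Nat.card (gen (s.filter fun i => f i ∈ R) f) := by
      have h2 : j * (Nat.card (gen (s.filter fun i => f i ∈ R) f) - YY s f R) + j * YY s f R =
          j * Nat.card (gen (s.filter fun i => f i ∈ R) f) := by
        rw [← mul_add, Nat.sub_add_cancel hYL]
      have h3 : Nat.card R * NN π s f R ≤ (FS s f).card +
        j * (Nat.card (gen (s.filter fun i => f i ∈ R) f) - YY s f R) := hP1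
      omega
    have h4 : j * (2 * Nat.card (gen (s.filter fun i => f i ∈ R) f)) ≤ j * Nat.card R :=
      Nat.mul_le_mul_left _ hL2
    have h5 : j * (2 * Nat.card (gen (s.filter fun i => f i ∈ R) f)) =
        2 * (j * Nat.card (gen (s.filter fun i => f i ∈ R) f)) := by ring
    omega
  have he : 2 ≤ (Out s f R).card := by
    have h1 := hc.er
    have h2 := hc.r1
    omega
  exact hNuL (Out s f R).card (Inn s f R).card s.card (NN π s f R) (YY s f R) (Nat.card R)
    (FS s f).card j he hc.k1 hc.ek hc.t5 hN hY hX1 hX2 (hc.y2 hr) hc.xU hc.jU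

end Pool.Agent.SZD
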