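import Pool.Agent.SZD.St
import Pool.Agent.SDG.All

/-!
# SZD, module ND2: the theorem for level 2, rank at least 3, no drop (helper38)
-/

set_option autoImplicit false

noncomputable section

open Finset Pool.Agent.Helper64.Rho Pool.Agent.SDG Pool.Agent.SNW Pool.Agent.SNR
open scoped Classical Pointwise

namespace Pool.Agent.SZD

private theorem ND2_U4 : SBN.U 4 = 12 := by
  unfold SBN.U
  norm_num

private theorem ND2_main (hDel : St_Del) (hSe : St_Se) (hCA : St_CA) (hC7 : St_C7) (hC56 : St_C56) (hB4 : St_B4)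
    (G ι : Type) [AddCommGroup G] [Finite G] (f : ι → G) (hrk : 3 ≤ crk (⊥ : AddSubgroup G)) :
    ∀ (n : ℕ) (s : Finset ι), s.card = n → (∀ i ∈ s, f i ≠ 0) → Cap 2 s f → Aper (FS s f) → gen s f = ⊤ →
      (∀ i ∈ s, gen (s.erase i) f = ⊤) → GR 2 (⊥ : AddSubgroup G) (FS s f).card → SBN.U s.card ≤ (FS s f).card := by
  intro n
  induction n with
  | zero =>
    intro s hs h0 hcap hap hg hnd hG
    exfalso
    have hs0 : s = ∅ := card_eq_zero.mp hs
    subst hs0
    have h1 := crk_bot_le ∅ f hg
    rw [card_empty] at h1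
    omega
  | succ n ih =>
    intro s hs h0 hcap hap hg hnd hG
    have hbt : (⊥ : AddSubgroup G) ≠ ⊤ := by
      intro h
      have h1 := hrk
      rw [h, crk_top] at h1
      omega
    have h4 : 4 ≤ s.card := by
      have h1 := crk_nodrop (P := (⊥ : AddSubgroup G)) hbt hnd hg
      have h2 : (s.filter fun i => f i ∉ (⊥ : AddSubgroup G)).card ≤ s.card := card_filter_le _ _
      omega
    rcases Nat.lt_or_ge 4 s.card with h5 | h5
    · by_contra hcon
      have hX : (FS s f).card + 1 ≤ SBN.U s.card := by omega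
      obtain ⟨-, hB2, hB3, -, -, -, -⟩ := all_Ba1 G ι f
      have hdel : ∀ z ∈ s, SBN.U (s.card - 1) ≤ (FS (s.erase z) f).card := by
        refine hDel G ι s f h5 hrk h0 hcap hap hg hnd hG hX ?_
        intro z hz hz2
        have hcz : (s.erase z).card = s.card - 1 := card_erase_of_mem hz
        have h1 := ih (s.erase z) (by omega) (fun i hi => h0 i (mem_of_mem_erase hi))
          (P1_cap_mono le_rfl (erase_subset z s) hcap) (hB2 s (s.erase z) (erase_subset z s) hap)
          (hnd z hz) hz2 (GR_mono le_rfl (by have := hB3 s z hz; omega) hG)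
        rw [hcz] at h1
        exact h1
      obtain ⟨z, hz⟩ : s.Nonempty := card_pos.mp (by omega)
      have hz1 := hdel z hz
      have hz2 := hB3 s z hz
      have hF : Fam s f ((FS s f).card - SBN.U (s.card - 1)) := by
        refine ⟨h5, h0, hcap, hap, hg, hnd, hrk, hG, hX, ?_, ?_⟩
        · omega
        · intro i hi
          have h1 := hdel i hi
          have h2 := hB3 s i hi
          omega
      obtain ⟨R, H, _, _, π, hC⟩ := hSe G ι s f _ hF
      have hR : ¬ crk R ≤ 1 := hCA G H ι π s f R _ hC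
      exact hC56 G H ι π s f R _ hC (by omega) (hC7 G H ι π s f R _ hC (by omega))
    · have h6 : s.card = 4 := by omega
      rw [h6, ND2_U4]
      exact hB4 G ι s f h6 h0 hap hg hnd hrk

theorem thm_ND2 : St_Del → St_Se → St_CA → St_C7 → St_C56 → St_B4 → St_ND2 := by
  intro hDel hSe hCA hC7 hC56 hB4 G ι _ _ s f hrk h0 hcap hap hg hnd hG
  exact ND2_main hDel hSe hCA hC7 hC56 hB4 G ι f hrk s.card s rfl h0 hcap hap hg hnd hG

end Pool.Agent.SZD
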