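import Pool.Agent.SZD.St
import Pool.Agent.SDG.Nm1

/-!
# SZD: numbers, at most two members of one cyclic group
-/

set_option autoImplicit false

noncomputable section

open Finset Pool.Agent.Helper64.Rho Pool.Agent.SDG Pool.Agent.SNW Pool.Agent.SNR
open scoped Classical Pointwise

namespace Pool.Agent.SZD

theorem Nb_U0 (a : ℕ) : SBN.U (2 * a) = 2 * (a * a + a) := by
  have h : (2 * a + 1) ^ 2 = 4 * (a * a + a) + 1 := by ring
  unfold SBN.U
  rw [h]
  omega

theorem Nb_U1 (a : ℕ) : SBN.U (2 * a + 1) = 2 * ((a + 1) * (a + 1)) := by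
  have h : (2 * a + 1 + 1) ^ 2 = 4 * ((a + 1) * (a + 1)) := by ring
  unfold SBN.U
  rw [h]
  omega

/-- bounds for the number of sums and for the deletion bound -/
theorem Nb_XJ {t X j : ℕ} (ht : 1 ≤ t) (hX : X + 1 ≤ SBN.U t) (hj : SBN.U (t - 1) + j + 1 ≤ SBN.U t) :
    2 * (X : ℤ) + 2 ≤ ((t : ℤ) + 1) ^ 2 ∧ (j : ℤ) ≤ t ∧ 2 * ((X : ℤ) + j) ≤ (t : ℤ) ^ 2 + 4 * t - 1 := by
  obtain ⟨a, rfl | rfl⟩ := Nat.even_or_odd' t
  · obtain ⟨b, rfl⟩ : ∃ b, a = b + 1 := ⟨a - 1, by omega⟩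
    have e : 2 * (b + 1) - 1 = 2 * b + 1 := by omega
    rw [Nb_U0] at hX hj
    rw [e, Nb_U1] at hj
    zify at hX hj
    push_cast
    refine ⟨by nlinarith, by nlinarith, by nlinarith⟩
  · have e : 2 * a + 1 - 1 = 2 * a := by omega
    rw [Nb_U1] at hX hj
    rw [e, Nb_U0] at hj
    zify at hX hj
    push_cast
    refine ⟨by nlinarith, by nlinarith, by nlinarith⟩

/-- the lower bound of `cf 2` -/
theorem Nb_cf (k : ℕ) : ((k : ℤ) + 1) ^ 2 + 3 ≤ 4 * (cf 2 k : ℤ) := by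
  have h := (thm_Nm1).2.2.1 k
  rw [h]
  obtain ⟨a, rfl | rfl⟩ := Nat.even_or_odd' k
  · have h1 : (2 * a + 1) ^ 2 = 4 * (a * a + a) + 1 := by ring
    rw [h1]
    have h2 : (4 * (a * a + a) + 1) / 4 = a * a + a := by omega
    rw [h2]
    push_cast
    nlinarith
  · have h1 : (2 * a + 1 + 1) ^ 2 = 4 * ((a + 1) * (a + 1)) := by ring
    rw [h1]
    have h2 : (4 * ((a + 1) * (a + 1))) / 4 = (a + 1) * (a + 1) := by omega
    rw [h2]
    push_cast
    nlinarith

/-- `k ≥ 4` forces `e ≥ 16` -/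
theorem Nb_e16 {e K : ℤ} (he : 3 ≤ e) (hK : 5 ≤ K) (h : (2 * e - 1) * (K ^ 2 + 3) ≤ 2 * (e + K) ^ 2 - 4) : 16 ≤ e := by
  by_contra hlt
  have h15 : e ≤ 15 := by omega
  have h1 : 0 ≤ (K - 5) * ((2 * e - 3) * (K + 5) - 4 * e) := by
    apply mul_nonneg (by linarith)
    nlinarith
  nlinarith

theorem thm_Nb : St_Nb := by
  intro e k t N Y y X j b he hk hekt ht hN hcf hY hy h1 h2 hX hj hb
  by_contra hb3
  have hb4 : 4 ≤ b + 1 := by omega
  obtain ⟨x1, x2, -⟩ := Nb_XJ (by omega) hX hj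
  have hcY := Nb_cf k
  have hcY' : (cf 2 k : ℤ) ≤ Y := by exact_mod_cast hcf
  have he' : (3 : ℤ) ≤ e := by exact_mod_cast he
  have hk' : (1 : ℤ) ≤ k := by exact_mod_cast hk
  have ht' : (t : ℤ) = e + k := by exact_mod_cast hekt.symm
  have ht6 : (6 : ℤ) ≤ t := by exact_mod_cast ht
  have hN' : 2 * (e : ℤ) - 1 ≤ N := by
    have : (2 * e : ℤ) ≤ N + 1 := by exact_mod_cast hN
    linarith
  have h1' : (y : ℤ) * N + j * Y ≤ X + j * y := by exact_mod_cast h1
  have h2' : (N : ℤ) * Y ≤ X := by exact_mod_cast h2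
  have hY0 : (0 : ℤ) ≤ Y := by positivity
  have hX0 : (0 : ℤ) ≤ X := by positivity
  have hj0 : (0 : ℤ) ≤ j := by positivity
  have hy0 : (0 : ℤ) ≤ y := by positivity
  have hb' : 4 * (X : ℤ) < 2 * (y * N) := by
    have h3 : 4 * X < 2 * (y * N) := lt_of_le_of_lt (Nat.mul_le_mul_right X hb4) hb
    exact_mod_cast h3
  have hnY : (2 * (e : ℤ) - 1) * Y ≤ X := le_trans (mul_le_mul_of_nonneg_right hN' hY0) h2'
  have hkey : (2 * (e : ℤ) - 1) * (((k : ℤ) + 1) ^ 2 + 3) ≤ 2 * (e + ((k : ℤ) + 1)) ^ 2 - 4 := by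
    have h3 : (2 * (e : ℤ) - 1) * (((k : ℤ) + 1) ^ 2 + 3) ≤ (2 * (e : ℤ) - 1) * (4 * Y) :=
      mul_le_mul_of_nonneg_left (by linarith) (by linarith)
    rw [ht'] at x1
    nlinarith
  -- `X + j Y < j y`
  have hA : (X : ℤ) + j * Y < j * y := by linarith
  rcases le_or_gt (N : ℤ) j with hNj | hNj
  · -- the case `N ≤ j`
    have heK : (e : ℤ) ≤ k + 1 := by linarith
    rcases le_or_gt (5 : ℤ) e with h5 | h5
    · nlinarith
    · have h34 : (e : ℤ) = 3 ∨ (e : ℤ) = 4 := by omega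
      rcases h34 with h34 | h34
      · rw [h34] at hkey ht'
        nlinarith
      · rw [h34] at hkey ht' heK
        nlinarith
  · -- the case `N > j`
    have hj1 : (0 : ℤ) < j := by
      rcases hj0.lt_or_eq with h | h
      · exact h
      · rw [← h] at hA
        nlinarith
    have hNX : (N : ℤ) * (X + j * Y) < 2 * j * X := by
      have h3 : ((X : ℤ) + j * Y) * (N - j) < j * y * (N - j) := mul_lt_mul_of_pos_right hA (by linarith)
      have h4 : (j : ℤ) * (y * (N - j)) ≤ j * (X - j * Y) := mul_le_mul_of_nonneg_left (by linarith) hj0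
      nlinarith
    have hn : (2 * (e : ℤ) - 1) * (X + j * Y) < 2 * j * X :=
      lt_of_le_of_lt (mul_le_mul_of_nonneg_right hN' (by positivity)) hNX
    have hstar : (2 * (e : ℤ) - 1) * Y * t < (2 * k + 1) * X := by
      have h5 : (j : ℤ) * ((2 * (e : ℤ) - 1) * Y * t) < j * ((2 * k + 1) * X) := by
        have h6 : (t : ℤ) * ((2 * (e : ℤ) - 1) * (X + j * Y)) < t * (2 * j * X) := mul_lt_mul_of_pos_left hn (by linarith)
        have h7 : (0 : ℤ) ≤ (t - j) * ((2 * (e : ℤ) - 1) * X) :=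
          mul_nonneg (by linarith) (mul_nonneg (by linarith) hX0)
        have h8 : (2 * (k : ℤ) + 1) = 2 * t - (2 * e - 1) := by rw [ht']; ring
        rw [h8]
        nlinarith
      exact lt_of_mul_lt_mul_left h5 hj0
    -- `2 (2 e - 1) Y < (2 k + 1) (t + 2)`
    have hst : 2 * ((2 * (e : ℤ) - 1) * Y) < (2 * k + 1) * (t + 2) := by
      have h5 : (t : ℤ) * (2 * ((2 * (e : ℤ) - 1) * Y)) < t * ((2 * k + 1) * (t + 2)) := by
        have h6 : (2 * (k : ℤ) + 1) * (2 * X) ≤ (2 * k + 1) * ((t + 1) ^ 2 - 2) :=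
          mul_le_mul_of_nonneg_left (by linarith) (by linarith)
        nlinarith
      exact lt_of_mul_lt_mul_left h5 (by linarith)
    have hkc : k = 1 ∨ k = 2 ∨ k = 3 ∨ 4 ≤ k := by omega
    rcases hkc with rfl | rfl | rfl | hk4
    · have hY2 : (2 : ℤ) ≤ Y := by exact_mod_cast hY
      push_cast at hst ht'
      have : (e : ℤ) ≤ 2 := by nlinarith
      linarith
    · have hY2 : (3 : ℤ) ≤ Y := by exact_mod_cast hY
      push_cast at hst ht'
      have : (e : ℤ) ≤ 3 := by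
        by_contra hc
        nlinarith
      linarith
    · have hc3 : cf 2 3 = 5 := by decide
      have hY2 : (5 : ℤ) ≤ Y := by
        rw [hc3] at hcf
        exact_mod_cast hcf
      push_cast at hst ht'
      have he3 : (e : ℤ) ≤ 3 := by
        by_contra hc
        nlinarith
      have he3' : e = 3 := by omega
      subst he3'
      have ht6' : t = 6 := by omega
      subst ht6'
      have hU : SBN.U 6 = 24 := by decide
      rw [hU] at hX
      have : 5 * 5 ≤ N * Y := Nat.mul_le_mul (by omega) (by exact_mod_cast hY2)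
      omega
    · have hk4' : (4 : ℤ) ≤ k := by exact_mod_cast hk4
      have h16 := Nb_e16 he' (by linarith) hkey
      have h3 : (2 * (e : ℤ) - 1) * (((k : ℤ) + 1) ^ 2 + 3) ≤ (2 * (e : ℤ) - 1) * (4 * Y) :=
        mul_le_mul_of_nonneg_left (by linarith) (by linarith)
      rw [ht'] at hst
      nlinarith

end Pool.Agent.SZD
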