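import Pool.Agent.SZD.Nb

/-!
# SZD: numbers, at least seven members
-/

set_option autoImplicit false

noncomputable section

open Finset Pool.Agent.Helper64.Rho Pool.Agent.SDG Pool.Agent.SNW Pool.Agent.SNR
open scoped Classical Pointwise

namespace Pool.Agent.SZD

theorem Nc_fin {e K : ℤ} (he : 16 ≤ e) (hK : 5 ≤ K)
    (h : (K ^ 2 + 7) * ((e + 1) ^ 2 + 3) ≤ 8 * (e + K - 1) ^ 2 + 32 * (e + K - 1) - 8) : False := by
  have k1 : 25 ≤ K ^ 2 := by nlinarith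
  have k2 : 256 ≤ e ^ 2 := by nlinarith
  have a1 : 0 ≤ (K ^ 2 - 25) * e ^ 2 := mul_nonneg (by linarith) (by positivity)
  have a2 : 0 ≤ K ^ 2 * (e ^ 2 - 256) := mul_nonneg (by positivity) (by linarith)
  have a3 : 0 ≤ (e - K) ^ 2 := sq_nonneg _
  have a4 : 0 ≤ (K ^ 2 - 25) * e := mul_nonneg (by linarith) (by linarith)
  have a5 : 0 ≤ (K - 5) * K := mul_nonneg (by linarith) (by linarith)
  have a6 : 0 ≤ (e - 16) * e := mul_nonneg (by linarith) (by linarith)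
  linarith

theorem thm_Nc : St_Nc := by
  intro e k t N Y y X j he hk hekt ht hN hcN hcf hY hy h1 h2 hX hj
  obtain ⟨x1, x2, x3⟩ := Nb_XJ (by omega) hX hj
  have hcY := Nb_cf k
  have hcY' : (cf 2 k : ℤ) ≤ Y := by exact_mod_cast hcf
  have hcE := Nb_cf e
  have hcE' : (cf 2 e : ℤ) ≤ N := by exact_mod_cast hcN
  have he' : (3 : ℤ) ≤ e := by exact_mod_cast he
  have hk' : (1 : ℤ) ≤ k := by exact_mod_cast hk
  have ht' : (t : ℤ) = e + k := by exact_mod_cast hekt.symm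
  have ht7 : (7 : ℤ) ≤ t := by exact_mod_cast ht
  have hN' : 2 * (e : ℤ) - 1 ≤ N := by
    have : (2 * e : ℤ) ≤ N + 1 := by exact_mod_cast hN
    linarith
  have h1' : (y : ℤ) * N + j * Y ≤ X + j * y := by exact_mod_cast h1
  have h2' : (N : ℤ) * Y ≤ X := by exact_mod_cast h2
  have hy' : (Y : ℤ) + 1 ≤ y := by exact_mod_cast hy
  have hY0 : (0 : ℤ) ≤ Y := by positivity
  have hN0 : (0 : ℤ) ≤ N := by positivity
  have hmain : ((Y : ℤ) + 1) * N ≤ X + j := by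
    rcases le_or_gt (j : ℤ) N with h | h
    · have h3 : ((Y : ℤ) + 1) * (N - j) ≤ y * (N - j) := mul_le_mul_of_nonneg_right hy' (by linarith)
      nlinarith
    · nlinarith
  -- four times: `(Y + 1) ((e + 1)^2 + 3) ≤ 2 t^2 + 8 t - 2`
  have h4 : ((Y : ℤ) + 1) * (((e : ℤ) + 1) ^ 2 + 3) ≤ 2 * (t : ℤ) ^ 2 + 8 * t - 2 := by
    have h5 : ((Y : ℤ) + 1) * (((e : ℤ) + 1) ^ 2 + 3) ≤ ((Y : ℤ) + 1) * (4 * N) :=
      mul_le_mul_of_nonneg_left (by linarith) (by linarith)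
    linarith
  have hcase : ∀ c : ℤ, c ≤ Y + 1 → c * (((e : ℤ) + 1) ^ 2 + 3) ≤ 2 * (t : ℤ) ^ 2 + 8 * t - 2 :=
    fun c hc => (mul_le_mul_of_nonneg_right hc (by positivity)).trans h4
  have hkc : k = 1 ∨ k = 2 ∨ k = 3 ∨ 4 ≤ k := by omega
  rcases hkc with rfl | rfl | rfl | hk4
  · have hY2 : (2 : ℤ) ≤ Y := by exact_mod_cast hY
    have h5 := hcase 3 (by linarith)
    have h6 : (e : ℤ) + 1 = t := by push_cast at ht'; linarith
    rw [h6] at h5
    nlinarith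
  · have hY2 : (3 : ℤ) ≤ Y := by exact_mod_cast hY
    have h5 := hcase 4 (by linarith)
    have h6 : (e : ℤ) + 1 = t - 1 := by push_cast at ht'; linarith
    rw [h6] at h5
    nlinarith
  · have hc3 : cf 2 3 = 5 := by decide
    have hY2 : (5 : ℤ) ≤ Y := by
      rw [hc3] at hcf
      exact_mod_cast hcf
    have h5 := hcase 6 (by linarith)
    have h6 : (e : ℤ) + 1 = t - 2 := by push_cast at ht'; linarith
    rw [h6] at h5
    nlinarith
  · have hk4' : (4 : ℤ) ≤ k := by exact_mod_cast hk4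
    obtain ⟨K, hK⟩ : ∃ K : ℤ, K = (k : ℤ) + 1 := ⟨_, rfl⟩
    have hK5 : 5 ≤ K := by linarith
    have htK : (t : ℤ) = e + K - 1 := by linarith
    have hkey : (2 * (e : ℤ) - 1) * (K ^ 2 + 3) ≤ 2 * (e + K) ^ 2 - 4 := by
      have h3 : (2 * (e : ℤ) - 1) * (K ^ 2 + 3) ≤ (2 * (e : ℤ) - 1) * (4 * Y) :=
        mul_le_mul_of_nonneg_left (by rw [hK]; linarith) (by linarith)
      have h5 : (2 * (e : ℤ) - 1) * Y ≤ X := le_trans (mul_le_mul_of_nonneg_right hN' hY0) h2'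
      have h6 : (t : ℤ) + 1 = e + K := by linarith
      rw [h6] at x1
      linarith
    have h16 := Nb_e16 he' hK5 hkey
    have h5 : (K ^ 2 + 7) * (((e : ℤ) + 1) ^ 2 + 3) ≤ 8 * (t : ℤ) ^ 2 + 32 * t - 8 := by
      have h6 : (K ^ 2 + 7) * (((e : ℤ) + 1) ^ 2 + 3) ≤ (4 * ((Y : ℤ) + 1)) * (((e : ℤ) + 1) ^ 2 + 3) :=
        mul_le_mul_of_nonneg_right (by rw [hK]; linarith) (by positivity)
      linarith
    rw [htK] at h5
    exact Nc_fin h16 hK5 h5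

end Pool.Agent.SZD
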