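import Pool.Agent.SZD.St

/-!
# SZD, NuA: numbers, `k ≥ 5`
-/

set_option autoImplicit false

noncomputable section

open Finset Pool.Agent.Helper64.Rho Pool.Agent.SDG Pool.Agent.SNW Pool.Agent.SNR
open scoped Classical Pointwise

namespace Pool.Agent.SZD

private lemma NuA_cf (k : ℕ) : 4 * cf 2 k = (k + 1) ^ 2 + 3 + k % 2 := by
  induction k with
  | zero => simp [cf]
  | succ k ih =>
    have h : cf 2 (k + 1) = cf 2 k + (k / 2 + 1) := by
      unfold cf
      rw [Finset.sum_range_succ]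
      ring
    rw [h, mul_add, ih]
    have h2 : (k + 1) % 2 = 1 - k % 2 := by omega
    have h3 : 2 * (k / 2) = k - k % 2 := by omega
    have h4 : k % 2 ≤ k := by omega
    have h5 : k % 2 ≤ 1 := by omega
    have h6 : (k + 1 + 1) ^ 2 = (k + 1) ^ 2 + 2 * k + 3 := by ring
    omega

private lemma NuA_U (t : ℕ) : 2 * SBN.U t ≤ (t + 1) ^ 2 ∧ (SBN.U t ≤ SBN.U (t - 1) + t + 1) ∧
    (t % 2 = 0 → SBN.U t ≤ SBN.U (t - 1) + t) := by
  unfold SBN.U
  rcases Nat.eq_zero_or_pos t with rfl | ht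
  · decide
  obtain ⟨m, rfl | rfl⟩ : ∃ m, t = 2 * m ∨ t = 2 * m + 1 := ⟨t / 2, by omega⟩
  · have e1 : (2 * m + 1) ^ 2 = 4 * (m * m + m) + 1 := by ring
    have e2 : (2 * m - 1 + 1) ^ 2 = 4 * (m * m) := by
      have : 2 * m - 1 + 1 = 2 * m := by omega
      rw [this]
      ring
    rw [e1, e2]
    omega
  · have e1 : (2 * m + 1 + 1) ^ 2 = 4 * (m * m + 2 * m + 1) := by ring
    have e2 : (2 * m + 1 - 1 + 1) ^ 2 = 4 * (m * m + m) + 1 := by
      have : 2 * m + 1 - 1 + 1 = 2 * m + 1 := by omega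
      rw [this]
      ring
    rw [e1, e2]
    omega

theorem thm_NuA : St_NuA := by
  intro e k t N Y X j he hk ht hN hY hX hj hU1 hU2
  have hcf := NuA_cf k
  obtain ⟨u1, u2, u3⟩ := NuA_U t
  have hjt : j ≤ t := by omega
  have hjt2 : t % 2 = 0 → j + 1 ≤ t := fun h => by have := u3 h; omega
  -- products
  have p1 : (2 * k - 2) * (e + 1) ≤ k * j := (Nat.mul_le_mul_left _ hN).trans hj
  have p2 : (e + 1) * cf 2 k ≤ X := (Nat.mul_le_mul hN hY).trans hX
  obtain ⟨k', rfl⟩ : ∃ k', k = k' + 1 := ⟨k - 1, by omega⟩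
  have p3 : (2 * (k' + 1) - 2) = 2 * k' := by omega
  rw [p3] at p1
  have hek : e ≤ k' + 1 := by
    by_contra hc
    push Not at hc
    have : (k' + 1) * j ≤ (k' + 1) * t := Nat.mul_le_mul_left _ hjt
    have h1 : 2 * k' * (e + 1) ≤ (k' + 1) * (e + (k' + 1)) := by
      rw [ht]; exact p1.trans this
    nlinarith
  have p4 : (e + 1) * ((k' + 1 + 1) ^ 2 + 3) + 4 ≤ 2 * (e + (k' + 1) + 1) ^ 2 := by
    have h1 : 4 * ((e + 1) * cf 2 (k' + 1)) = (e + 1) * (4 * cf 2 (k' + 1)) := by ring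
    have h2 : (e + 1) * ((k' + 1 + 1) ^ 2 + 3) ≤ (e + 1) * (4 * cf 2 (k' + 1)) :=
      Nat.mul_le_mul_left _ (by omega)
    rw [ht]
    omega
  obtain ⟨a, rfl⟩ : ∃ a, e = a + 3 := ⟨e - 3, by omega⟩
  obtain ⟨b, hb⟩ : ∃ b, k' + 1 = a + 3 + b := ⟨k' + 1 - (a + 3), by omega⟩
  rcases Nat.lt_or_ge k' 5 with h5 | h5
  · have hk4 : k' = 4 := by omega
    subst hk4
    have ha : a = 0 ∨ a = 1 ∨ a = 2 := by omega
    rcases ha with rfl | rfl | rfl
    · subst ht
      norm_num [cf, SBN.U, Finset.sum_range_succ] at *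
      omega
    · subst ht
      norm_num [cf, SBN.U, Finset.sum_range_succ] at *
      omega
    · subst ht
      norm_num [cf, SBN.U, Finset.sum_range_succ] at *
      omega
  · rw [hb] at p4
    rcases Nat.lt_or_ge a 3 with h3 | h3
    · have ha : a = 0 ∨ a = 1 ∨ a = 2 := by omega
      rcases ha with rfl | rfl | rfl
      · have : 3 ≤ b := by omega
        nlinarith
      · have : 2 ≤ b := by omega
        nlinarith
      · have : 1 ≤ b := by omega
        nlinarith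
    · obtain ⟨c, rfl⟩ : ∃ c, a = c + 3 := ⟨a - 3, by omega⟩
      ring_nf at p4
      have q1 : 0 ≤ c * c * c := Nat.zero_le _
      nlinarith [Nat.zero_le (c * b), Nat.zero_le (c * c * b), Nat.zero_le (c * b * b), Nat.zero_le (b * b), Nat.zero_le (c * c)]
end Pool.Agent.SZD
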