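import Pool.Agent.SZD.St
import Pool.Agent.SDG.Nm1

/-!
# SZD, module NuL: numbers for the case `crk R = 1`
-/

set_option autoImplicit false

noncomputable section

open Finset Pool.Agent.Helper64.Rho Pool.Agent.SDG Pool.Agent.SNW Pool.Agent.SNR
open scoped Classical Pointwise

namespace Pool.Agent.SZD

private theorem NuL_j (t j : ℕ) (ht : 1 ≤ t) (h : SBN.U (t - 1) + j + 1 ≤ SBN.U t) : j ≤ t := by
  unfold SBN.U at h
  rw [Nat.sub_add_cancel ht] at h
  rcases Nat.even_or_odd' t with ⟨a, rfl | rfl⟩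
  · have e1 : (2 * a) ^ 2 / 4 = a * a := by
      have : (2 * a) ^ 2 = 4 * (a * a) := by ring
      omega
    have e2 : (2 * a + 1) ^ 2 / 4 = a * a + a := by
      have : (2 * a + 1) ^ 2 = 4 * (a * a + a) + 1 := by ring
      omega
    rw [e1, e2] at h
    omega
  · have e1 : (2 * a + 1) ^ 2 / 4 = a * a + a := by
      have : (2 * a + 1) ^ 2 = 4 * (a * a + a) + 1 := by ring
      omega
    have e2 : (2 * a + 1 + 1) ^ 2 / 4 = a * a + 2 * a + 1 := by
      have : (2 * a + 1 + 1) ^ 2 = 4 * (a * a + 2 * a + 1) := by ring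
      omega
    rw [e1, e2] at h
    omega

private theorem NuL_cf (k : ℕ) : (k + 1) ^ 2 + 3 ≤ 4 * cf 2 k := by
  rw [thm_Nm1.2.2.1 k]
  rcases Nat.even_or_odd' k with ⟨a, rfl | rfl⟩
  · have e1 : (2 * a + 1) ^ 2 = 4 * (a * a + a) + 1 := by ring
    omega
  · have e1 : (2 * a + 1 + 1) ^ 2 = 4 * (a * a + 2 * a + 1) := by ring
    omega

/-- **NuL** -/
theorem thm_NuL : St_NuL := by
  intro e k t N Y y X j he hk ht h5 hN hY h1 h2 h3 h4 h6
  have hj := NuL_j t j (by omega) h6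
  have hc := NuL_cf k
  have hN2 : 2 * N < 4 + j := by
    by_contra hlt
    have hlt' : 4 + j ≤ 2 * N := not_lt.1 hlt
    have h7 : y * (4 + j) ≤ y * (2 * N) := Nat.mul_le_mul_left y hlt'
    have e7 : y * (4 + j) = 4 * y + j * y := by ring
    have e8 : y * (2 * N) = 2 * (y * N) := by ring
    rw [e7, e8] at h7
    omega
  have hek : e ≤ k + 1 := by omega
  have hU : 4 * SBN.U t ≤ 2 * (t + 1) ^ 2 := by
    unfold SBN.U
    omega
  have hNY : (e + 1) * ((k + 1) ^ 2 + 3) ≤ 4 * (N * Y) := by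
    calc (e + 1) * ((k + 1) ^ 2 + 3) ≤ N * (4 * Y) := Nat.mul_le_mul hN (by omega)
      _ = 4 * (N * Y) := by ring
  have hfin : (e + 1) * ((k + 1) ^ 2 + 3) + 2 ≤ (t + 1) ^ 2 := by omega
  subst ht
  zify at hfin hek hk he
  nlinarith [mul_nonneg (by linarith : (0 : ℤ) ≤ (e : ℤ)) (by linarith : (0 : ℤ) ≤ (k : ℤ) + 1 - e),
    mul_nonneg (by linarith : (0 : ℤ) ≤ (e : ℤ)) (mul_self_nonneg ((k : ℤ) - 1)), mul_self_nonneg ((k : ℤ) - 1)]

end Pool.Agent.SZD
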