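import Pool.Agent.SZD.St
import Pool.Agent.SNR.Lm

/-!
# SZD, module Ra (helper64): the row lemma for an aperiodic row
-/

set_option autoImplicit false

noncomputable section

open Finset Pool.Agent.Helper64.Rho Pool.Agent.SDG Pool.Agent.SNW Pool.Agent.SNR
open scoped Classical Pointwise

namespace Pool.Agent.SZD

/-- `W + FS u f` without one member -/
theorem Ra_split {G ι : Type} [AddCommGroup G] (u : Finset ι) (f : ι → G) (W : Finset G) (i : ι)
    (hi : i ∈ u) : W + FS u f = (W + FS (u.erase i) f) + {0, f i} := by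
  have h1 : u = (u.erase i) ∪ {i} := by
    ext k
    rw [mem_union, mem_erase, mem_singleton]
    constructor
    · intro h
      rcases eq_or_ne k i with h2 | h2
      · exact Or.inr h2
      · exact Or.inl ⟨h2, h⟩
    · rintro (⟨-, h⟩ | rfl)
      · exact h
      · exact hi
  have h2 : FS ({i} : Finset ι) f = {0, f i} := by
    ext x
    rw [mem_FS, mem_insert, mem_singleton]
    constructor
    · rintro ⟨t, ht, rfl⟩
      rcases Finset.subset_singleton_iff.1 ht with rfl | rfl
      · left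
        rw [sum_empty]
      · right
        rw [sum_singleton]
    · rintro (rfl | rfl)
      · exact ⟨∅, empty_subset _, sum_empty⟩
      · exact ⟨{i}, Subset.refl _, sum_singleton _ _⟩
  have h3 : FS u f = FS (u.erase i) f + FS ({i} : Finset ι) f := by
    conv_lhs => rw [h1]
    exact (all_Ba1 G ι f).1 _ _ (by
      rw [disjoint_singleton_right]
      exact notMem_erase i u)
  rw [h3, h2, add_assoc]

/-- the whole coset -/
theorem Ra_coset {G : Type} [AddCommGroup G] [Finite G] (X : Finset G) (K : AddSubgroup G)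
    (hX : X.Nonempty) (hK : ∀ g ∈ K, ∀ x ∈ X, x + g ∈ X) : Nat.card K ≤ X.card := by
  obtain ⟨x0, hx0⟩ := hX
  obtain ⟨KF, hKF, hKc⟩ := fin_exists K
  rw [← hKc]
  exact card_le_card_of_injOn (fun g => x0 + g) (fun g hg => hK g ((hKF g).1 hg) x0 hx0)
    (fun g _ g' _ h => add_left_cancel h)

/-- a nonempty periodic set is large -/
theorem Ra_large {G : Type} [AddCommGroup G] [Finite G] (X : Finset G) (P : AddSubgroup G) (g : G)
    (hP : ∀ q ∈ P, ∀ x ∈ X, x + q ∈ X) (hg : ¬ ∀ x ∈ X, x + g ∈ X) :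
    Nat.card P ≤ (X.filter fun x => x + g ∉ X).card := by
  apply Ra_coset
  · by_contra hcon
    rw [not_nonempty_iff_eq_empty, Finset.filter_eq_empty_iff] at hcon
    apply hg
    intro x hx
    have := hcon hx
    rwa [not_not] at this
  · intro q hq x hx
    obtain ⟨hx1, hx2⟩ := mem_filter.1 hx
    refine mem_filter.2 ⟨hP q hq x hx1, fun h => hx2 ?_⟩
    have h1 := hP (-q) (P.neg_mem hq) _ h
    have h2 : x + q + g + -q = x + g := by abel
    rwa [h2] at h1

theorem thm_Ra : St_Rb → St_Rc → St_Ra := by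
  intro hRb hRc G ι _ _ u f W hH hAp
  obtain ⟨X, hX⟩ : ∃ X, X = W + FS u f := ⟨_, rfl⟩
  obtain ⟨R, hR⟩ : ∃ R, R = gen u f := ⟨_, rfl⟩
  have hsz := hH.sz
  rw [← hX, ← hR] at hsz
  rw [← hX] at hAp ⊢
  have hXne : X.Nonempty := by
    rw [hX]
    exact hH.ne.add ⟨0, zero_mem_FS _ _⟩
  have hlam1 : ∀ i ∈ u, 1 ≤ lam X (f i) := by
    intro i hi
    by_contra hcon
    have h1 : lam X (f i) = 0 := by omega
    apply hH.h0 i hi
    apply hAp
    unfold lam at h1
    rw [card_eq_zero, Finset.filter_eq_empty_iff] at h1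
    intro x hx
    have := h1 hx
    rwa [not_not] at this
  have hsplit : ∀ i ∈ u, X = (W + FS (u.erase i) f) + {0, f i} := fun i hi => by
    rw [hX]
    exact Ra_split u f W i hi
  by_cases hone : ∃ i ∈ u, ∃ i' ∈ u, lam X (f i) = 1 ∧ lam X (f i') = 1 ∧ f i ≠ f i' ∧ f i ≠ - f i'
  · -- (1)
    obtain ⟨i, hi, i', hi', hl, hl', hne, hne'⟩ := hone
    obtain ⟨p, hp, hpp⟩ := hRb G X _ _ (f i) (f i') (hH.h0 i hi) (hH.h0 i' hi') hne hne' hl hl'
      (hsplit i hi) (hsplit i' hi')
    obtain ⟨X', hX'⟩ : ∃ X', X' = insert p X := ⟨_, rfl⟩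
    rw [← hX'] at hpp
    have hX'c : X'.card = X.card + 1 := by rw [hX', card_insert_of_notMem hp]
    obtain ⟨P, hP⟩ := P1_per X'
    have hX'ne : X'.Nonempty := by rw [hX']; exact insert_nonempty _ _
    obtain ⟨u', hu'⟩ : ∃ u', u' = u.filter fun i => f i ∈ P := ⟨_, rfl⟩
    have hiu : i ∈ u' := by
      rw [hu']
      exact mem_filter.2 ⟨hi, (hP _).2 fun x hx => (hpp x hx).1⟩
    have hiu' : i' ∈ u' := by
      rw [hu']
      exact mem_filter.2 ⟨hi', (hP _).2 fun x hx => (hpp x hx).2⟩
    have hii : i ≠ i' := by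
      rintro rfl
      exact hne rfl
    have hk2 : 2 ≤ u'.card := by
      have h1 : ({i, i'} : Finset ι) ⊆ u' := by
        intro k hk
        rw [mem_insert, mem_singleton] at hk
        rcases hk with rfl | rfl
        · exact hiu
        · exact hiu'
      have h2 := card_le_card h1
      rwa [card_pair hii] at h2
    have hsub : u' ⊆ u := by rw [hu']; exact filter_subset _ _
    have hlt : ∃ l ∈ u, f l ∉ P := by
      by_contra hcon
      push Not at hcon
      have h1 : R ≤ P := by
        rw [hR]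
        unfold gen
        rw [AddSubgroup.closure_le]
        rintro _ ⟨k, hk, rfl⟩
        exact hcon k (mem_coe.1 hk)
      have h2 := Ra_coset X' R hX'ne (fun g hg => (hP g).1 (h1 hg))
      omega
    have hAu' : Aper (FS u' f) := (all_Ba1 G ι f).2.1 u u' hsub hH.ap
    have hPne : P ≠ ⊥ := by
      intro hb
      apply hH.h0 i hi
      have h1 : f i ∈ P := by
        rw [hu'] at hiu
        exact (mem_filter.1 hiu).2
      rwa [hb, AddSubgroup.mem_bot] at h1
    have hPc : u'.card + 2 ≤ Nat.card P := by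
      have h1 := (all_Kn G).2.2.2 (FS u' f) P ⟨0, zero_mem_FS _ _⟩ hPne
        (fun x hx => FS_subset_of_mem (fun k hk => by
          rw [hu'] at hk
          exact (mem_filter.1 hk).2) hx) hAu'
      have h2 := (all_Sm G ι u' f (fun k hk => hH.h0 k (hsub hk)) hAu').1
      omega
    have hout : ∀ l ∈ u \ u', u'.card + 1 ≤ lam X (f l) := by
      intro l hl
      obtain ⟨hl1, hl2⟩ := mem_sdiff.1 hl
      have h1 : f l ∉ P := fun h => hl2 (by rw [hu']; exact mem_filter.2 ⟨hl1, h⟩)
      have h2 := Ra_large X' P (f l) (fun q hq => (hP q).1 hq) (fun h => h1 ((hP _).2 h))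
      have h3 : (X'.filter fun x => x + f l ∉ X') ⊆ insert p (X.filter fun x => x + f l ∉ X) := by
        intro x hx
        obtain ⟨hx1, hx2⟩ := mem_filter.1 hx
        rw [hX', mem_insert] at hx1
        rcases hx1 with rfl | hx1
        · exact mem_insert_self _ _
        · refine mem_insert_of_mem (mem_filter.2 ⟨hx1, fun h => hx2 ?_⟩)
          rw [hX']
          exact mem_insert_of_mem h
      have h4 := (card_le_card h3).trans (card_insert_le _ _)
      unfold lam
      omega
    have hsum : ∑ l ∈ u, lam X (f l) = ∑ l ∈ u', lam X (f l) + ∑ l ∈ u \ u', lam X (f l) := by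
      rw [add_comm, sum_sdiff hsub]
    have hs1 : u'.card ≤ ∑ l ∈ u', lam X (f l) := by
      calc u'.card = ∑ l ∈ u', 1 := by rw [sum_const, smul_eq_mul, mul_one]
        _ ≤ _ := sum_le_sum fun l hl => hlam1 l (hsub hl)
    have hs2 : (u \ u').card * (u'.card + 1) ≤ ∑ l ∈ u \ u', lam X (f l) := by
      calc (u \ u').card * (u'.card + 1) = ∑ l ∈ u \ u', (u'.card + 1) := by
            rw [sum_const, smul_eq_mul]
        _ ≤ _ := sum_le_sum fun l hl => hout l hl
    have hcd : (u \ u').card + u'.card = u.card := card_sdiff_add_card_eq_card hsub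
    have hd1 : 1 ≤ (u \ u').card := by
      obtain ⟨l, hl, hlP⟩ := hlt
      refine card_pos.2 ⟨l, mem_sdiff.2 ⟨hl, fun h => hlP ?_⟩⟩
      rw [hu'] at h
      exact (mem_filter.1 h).2
    obtain ⟨a, ha⟩ : ∃ a, (u \ u').card = a + 1 := ⟨(u \ u').card - 1, by omega⟩
    obtain ⟨b, hb⟩ : ∃ b, u'.card = b + 2 := ⟨u'.card - 2, by omega⟩
    rw [ha, hb] at hs2
    rw [ha, hb] at hcd
    rw [hb] at hs1
    have h5 : (a + 1) * (b + 2 + 1) = a * b + 3 * a + b + 3 := by ring
    rw [h5] at hs2
    have h6 : 0 ≤ a * b := Nat.zero_le _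
    rw [hsum]
    omega
  · -- (2)
    push Not at hone
    obtain ⟨u1, hu1⟩ : ∃ u1, u1 = u.filter fun i => lam X (f i) = 1 := ⟨_, rfl⟩
    have hu1s : u1 ⊆ u := by rw [hu1]; exact filter_subset _ _
    have hpm : ∀ i ∈ u1, ∀ i' ∈ u1, f i = f i' ∨ f i = - f i' := by
      intro i hi i' hi'
      rw [hu1] at hi hi'
      obtain ⟨a1, a2⟩ := mem_filter.1 hi
      obtain ⟨b1, b2⟩ := mem_filter.1 hi'
      by_cases h1 : f i = f i'
      · exact Or.inl h1
      · exact Or.inr (hone i a1 i' b1 a2 b2 h1)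
    have hu1c : u1.card ≤ 2 := by
      rcases u1.eq_empty_or_nonempty with h1 | ⟨i0, hi0⟩
      · rw [h1, card_empty]
        omega
      · refine (card_le_card ?_).trans (hH.cap (f i0))
        intro k hk
        exact mem_filter.2 ⟨hu1s hk, hpm k hk i0 hi0⟩
    have hsum : ∑ l ∈ u, lam X (f l) = ∑ l ∈ u1, lam X (f l) + ∑ l ∈ u \ u1, lam X (f l) := by
      rw [add_comm, sum_sdiff hu1s]
    have hs1 : ∑ l ∈ u1, lam X (f l) = u1.card := by
      rw [card_eq_sum_ones]
      refine sum_congr rfl fun l hl => ?_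
      rw [hu1] at hl
      exact (mem_filter.1 hl).2
    have hge2 : ∀ l ∈ u \ u1, 2 ≤ lam X (f l) := by
      intro l hl
      obtain ⟨hl1, hl2⟩ := mem_sdiff.1 hl
      have h1 := hlam1 l hl1
      have h2 : lam X (f l) ≠ 1 := fun h => hl2 (by rw [hu1]; exact mem_filter.2 ⟨hl1, h⟩)
      omega
    have hs2 : 2 * (u \ u1).card ≤ ∑ l ∈ u \ u1, lam X (f l) := by
      calc 2 * (u \ u1).card = ∑ l ∈ u \ u1, 2 := by rw [sum_const, smul_eq_mul, mul_comm]
        _ ≤ _ := sum_le_sum hge2
    have hcd : (u \ u1).card + u1.card = u.card := card_sdiff_add_card_eq_card hu1s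
    by_contra hcon
    push Not at hcon
    rw [hsum, hs1] at hcon
    have hc2 : u1.card = 2 := by omega
    have hle2 : ∀ l ∈ u \ u1, lam X (f l) ≤ 2 := by
      intro l hl
      by_contra h3
      push Not at h3
      have h4 : ∑ l ∈ u \ u1, 2 < ∑ l ∈ u \ u1, lam X (f l) := sum_lt_sum hge2 ⟨l, hl, h3⟩
      rw [sum_const, smul_eq_mul] at h4
      omega
    obtain ⟨i, i', hii, hu1e⟩ := card_eq_two.1 hc2
    have hi : i ∈ u1 := by rw [hu1e]; exact mem_insert_self _ _
    have hi' : i' ∈ u1 := by rw [hu1e]; exact mem_insert_of_mem (mem_singleton_self _)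
    have hi'e : i' ∈ u.erase i := mem_erase.2 ⟨hii.symm, hu1s hi'⟩
    obtain ⟨z, hz⟩ : ∃ z, z = f i := ⟨_, rfl⟩
    have hz0 : z ≠ 0 := hz ▸ hH.h0 i (hu1s hi)
    have hzl : lam X z = 1 := by
      rw [hz]
      rw [hu1] at hi
      exact (mem_filter.1 hi).2
    have hzz : z + z ≠ 0 := by
      intro h
      exact (all_Ba1 G ι f).2.2.2.2.1 u i (hu1s hi) hH.ap (hH.h0 i (hu1s hi))
        (by rw [← hz]; exact eq_neg_of_add_eq_zero_left h)
    have hXV : ∃ V : Finset G, X = V + {0, z, z + z} := by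
      have h1 := hsplit i (hu1s hi)
      have h2 := Ra_split (u.erase i) f W i' hi'e
      rw [h2, add_assoc] at h1
      rcases hpm i' hi' i hi with h3 | h3
      · refine ⟨W + FS ((u.erase i).erase i') f, ?_⟩
        rw [h1, h3, ← hz]
        congr 1
        ext x
        simp only [mem_add, mem_insert, mem_singleton]
        constructor
        · rintro ⟨a, ha, b, hb, hab⟩
          rw [← hab]
          rcases ha with ha | ha <;> rcases hb with hb | hb <;> rw [ha, hb] <;> simp
        · rintro (h4 | h4 | h4)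
          · exact ⟨0, Or.inl rfl, 0, Or.inl rfl, by rw [h4]; exact add_zero 0⟩
          · exact ⟨0, Or.inl rfl, z, Or.inr rfl, by rw [h4]; exact zero_add z⟩
          · exact ⟨z, Or.inr rfl, z, Or.inr rfl, h4.symm⟩
      · refine ⟨W + FS ((u.erase i).erase i') f + {-z}, ?_⟩
        rw [h1, h3, ← hz, add_assoc (W + FS ((u.erase i).erase i') f)]
        congr 1
        ext x
        simp only [mem_add, mem_insert, mem_singleton]
        constructor
        · rintro ⟨a, ha, b, hb, hab⟩
          rw [← hab]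
          rcases ha with ha | ha <;> rcases hb with hb | hb <;> rw [ha, hb]
          · exact ⟨-z, rfl, z, by simp, by abel⟩
          · exact ⟨-z, rfl, z + z, by simp, by abel⟩
          · exact ⟨-z, rfl, 0, by simp, by abel⟩
          · exact ⟨-z, rfl, z, by simp, by abel⟩
        · rintro ⟨a, ha, b, hb, hab⟩
          rw [← hab, ha]
          rcases hb with hb | hb | hb <;> rw [hb]
          · exact ⟨-z, Or.inr rfl, 0, Or.inl rfl, by abel⟩
          · exact ⟨0, Or.inl rfl, 0, Or.inl rfl, by abel⟩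
          · exact ⟨0, Or.inl rfl, z, Or.inr rfl, by abel⟩
    obtain ⟨V, hV⟩ := hXV
    obtain ⟨Q, hQd, hQn, hQz, hQw⟩ := hRc G X V z hz0 hzz hzl hV
    obtain ⟨K, hK⟩ := P1_per (X ∪ Q)
    have hzK : AddSubgroup.zmultiples z ≤ K := by
      rw [AddSubgroup.zmultiples_le]
      exact (hK z).2 hQz
    have hall : ∀ l ∈ u, f l ∈ K := by
      intro l hl
      by_cases h1 : f l ∈ AddSubgroup.zmultiples z
      · exact hzK h1
      · refine (hK _).2 (hQw (f l) ?_ h1).2
        apply hle2 l (mem_sdiff.2 ⟨hl, fun h2 => h1 ?_⟩)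
        rcases hpm l h2 i hi with h3 | h3
        · rw [h3, ← hz]
          exact AddSubgroup.mem_zmultiples z
        · rw [h3, ← hz]
          exact AddSubgroup.neg_mem _ (AddSubgroup.mem_zmultiples z)
    have hex : ∃ l ∈ u, f l ∉ AddSubgroup.zmultiples z := by
      by_contra h1
      push Not at h1
      have h2 : gen u f ≤ AddSubgroup.zmultiples z := by
        unfold gen
        rw [AddSubgroup.closure_le]
        rintro _ ⟨k, hk, rfl⟩
        exact h1 k (mem_coe.1 hk)
      have h3 : AddSubgroup.zmultiples z ≤ gen u f := by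
        rw [AddSubgroup.zmultiples_le, hz]
        exact P1_mem_gen (hu1s hi)
      apply hH.nc
      rw [le_antisymm h2 h3]
      infer_instance
    have hQ2 : Q.card ≤ 2 := by
      obtain ⟨l, hl, hlz⟩ := hex
      refine (hQw (f l) ?_ hlz).1
      apply hle2 l (mem_sdiff.2 ⟨hl, fun h2 => hlz ?_⟩)
      rcases hpm l h2 i hi with h3 | h3
      · rw [h3, ← hz]
        exact AddSubgroup.mem_zmultiples z
      · rw [h3, ← hz]
        exact AddSubgroup.neg_mem _ (AddSubgroup.mem_zmultiples z)
    have hRK : R ≤ K := by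
      rw [hR]
      unfold gen
      rw [AddSubgroup.closure_le]
      rintro _ ⟨k, hk, rfl⟩
      exact hall k (mem_coe.1 hk)
    have h5 := Ra_coset (X ∪ Q) R (hXne.mono subset_union_left) (fun g hg => (hK g).1 (hRK hg))
    have h6 := card_union_le X Q
    omega

end Pool.Agent.SZD
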