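import Pool.Agent.SZD.St

/-!
# SZD (Rb): two members with `lam = 1`, helper59
-/

set_option autoImplicit false

noncomputable section

open Finset Pool.Agent.Helper64.Rho Pool.Agent.SDG Pool.Agent.SNW Pool.Agent.SNR
open scoped Classical Pointwise

namespace Pool.Agent.SZD

/-- the unique exit, and the element before it -/
private theorem Rb_exit {G : Type} [AddCommGroup G] (X V : Finset G) (z : G)
    (h : lam X z = 1) (hV : X = V + {0, z}) :
    ∃ a ∈ X, a + z ∉ X ∧ a - z ∈ X ∧ ∀ x ∈ X, x ≠ a → x + z ∈ X := by
  unfold lam at h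
  obtain ⟨a, ha⟩ := Finset.card_eq_one.1 h
  have h1 : a ∈ X.filter fun b => b + z ∉ X := by
    rw [ha]
    exact Finset.mem_singleton_self a
  obtain ⟨haX, haz⟩ := Finset.mem_filter.1 h1
  refine ⟨a, haX, haz, ?_, ?_⟩
  · have h2 : ∀ v ∈ V, v ∈ X ∧ v + z ∈ X := by
      intro v hv
      rw [hV, Finset.mem_add, Finset.mem_add]
      exact ⟨⟨v, hv, 0, by simp, add_zero v⟩, ⟨v, hv, z, by simp, rfl⟩⟩
    have h3 := haX
    rw [hV, Finset.mem_add] at h3
    obtain ⟨v, hv, w, hw, hvw⟩ := h3
    rw [Finset.mem_insert, Finset.mem_singleton] at hw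
    rcases hw with rfl | rfl
    · rw [add_zero] at hvw
      subst hvw
      exact absurd (h2 v hv).2 haz
    · have e : a - w = v := by rw [← hvw, add_sub_cancel_right]
      rw [e]
      exact (h2 v hv).1
  · intro x hx hxa
    by_contra hcon
    have h2 : x ∈ X.filter fun b => b + z ∉ X := Finset.mem_filter.2 ⟨hx, hcon⟩
    rw [ha, Finset.mem_singleton] at h2
    exact hxa h2

theorem thm_Rb : St_Rb := by
  intro G _ X V V' z z' hz hz' hzz hzz' hl hl' hV hV'
  obtain ⟨a, haX, haz, ham, hau⟩ := Rb_exit X V z hl hV
  obtain ⟨a', haX', haz', ham', hau'⟩ := Rb_exit X V' z' hl' hV'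
  have hne : a' ≠ a := by
    rintro rfl
    have h1 : a' - z + z' ∈ X := hau' _ ham (by
      intro h
      apply hz
      have : a' - z = a' - 0 := by rw [h, sub_zero]
      exact sub_right_injective this)
    have h2 : a' - z + z' + z ∈ X := hau _ h1 (by
      intro h
      apply hzz
      have h3 : a' - z + z' = a' - z + z := by rw [h, sub_add_cancel]
      exact (add_left_cancel h3).symm)
    have e : a' - z + z' + z = a' + z' := by abel
    rw [e] at h2
    exact haz' h2
  have h1 : a + z' ∈ X := hau' a haX fun h => hne h.symm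
  have h2 : a + z' + z ∈ X := hau _ h1 (by
    intro h
    exact hz' (by simpa using h))
  have h3 : a' + z ∈ X := hau a' haX' hne
  have h4 : a' + z + z' ∈ X := hau' _ h3 (by
    intro h
    exact hz (by simpa using h))
  -- the unique entrance of `z'`
  have hneg : lam X (-z') = 1 := by rw [lam_neg, hl']
  unfold lam at hneg
  obtain ⟨b, hb⟩ := Finset.card_eq_one.1 hneg
  have h5 : a + z' + z ∈ X.filter fun b => b + -z' ∉ X := by
    refine Finset.mem_filter.2 ⟨h2, ?_⟩
    have e : a + z' + z + -z' = a + z := by abel
    rw [e]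
    exact haz
  rw [hb, Finset.mem_singleton] at h5
  have h6 : a - z' ∈ X := by
    by_contra hcon
    have h7 : a ∈ X.filter fun b => b + -z' ∉ X := by
      refine Finset.mem_filter.2 ⟨haX, ?_⟩
      rwa [← sub_eq_add_neg]
    rw [hb, Finset.mem_singleton, ← h5] at h7
    apply hzz'
    have h8 : a + 0 = a + (z' + z) := by
      rw [add_zero, ← add_assoc]
      exact h7
    have h9 := add_left_cancel h8
    have h10 : z' + z = 0 := h9.symm
    exact eq_neg_of_add_eq_zero_right h10
  have h7 : a - z' + z ∈ X := hau _ h6 (by
    intro h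
    apply hz'
    have : a - z' = a - 0 := by rw [h, sub_zero]
    exact sub_right_injective this)
  have h8 : a - z' + z = a' := by
    by_contra hcon
    have h9 := hau' _ h7 hcon
    have e : a - z' + z + z' = a + z := by abel
    rw [e] at h9
    exact haz h9
  have hp : a' + z' = a + z := by
    rw [← h8]
    abel
  refine ⟨a + z, haz, ?_⟩
  intro x hx
  rw [Finset.mem_insert] at hx
  rw [Finset.mem_insert, Finset.mem_insert]
  rcases hx with rfl | hx
  · constructor
    · right
      rw [← hp]
      have e : a' + z' + z = a' + z + z' := by abel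
      rw [e]
      exact h4
    · right
      have e : a + z + z' = a + z' + z := by abel
      rw [e]
      exact h2
  · constructor
    · by_cases h : x = a
      · left
        rw [h]
      · right
        exact hau x hx h
    · by_cases h : x = a'
      · left
        rw [h, hp]
      · right
        exact hau' x hx h

end Pool.Agent.SZD
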