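import Pool.Agent.SZD.St

/-!
# SZD (Rc): a double member with `lam = 1` (helper91)
-/

set_option autoImplicit false

noncomputable section

open Finset Pool.Agent.Helper64.Rho Pool.Agent.SDG Pool.Agent.SNW Pool.Agent.SNR
open scoped Classical Pointwise

namespace Pool.Agent.SZD

/-- the unique exit, and the elements before it -/
private theorem Rc_exit {G : Type} [AddCommGroup G] (X V : Finset G) (z : G)
    (h : lam X z = 1) (hV : X = V + {0, z, z + z}) :
    ∃ a ∈ X, a + z ∉ X ∧ a - z ∈ X ∧ a - z - z ∈ X ∧ ∀ x ∈ X, x ≠ a → x + z ∈ X := by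
  unfold lam at h
  obtain ⟨a, ha⟩ := Finset.card_eq_one.1 h
  have h1 : a ∈ X.filter fun b => b + z ∉ X := by
    rw [ha]
    exact Finset.mem_singleton_self a
  obtain ⟨haX, haz⟩ := Finset.mem_filter.1 h1
  have h2 : ∀ v ∈ V, v ∈ X ∧ v + z ∈ X ∧ v + (z + z) ∈ X := by
    intro v hv
    rw [hV, Finset.mem_add, Finset.mem_add, Finset.mem_add]
    exact ⟨⟨v, hv, 0, by simp, add_zero v⟩, ⟨v, hv, z, by simp, rfl⟩, ⟨v, hv, z + z, by simp, rfl⟩⟩
  have h3 := haX
  rw [hV, Finset.mem_add] at h3
  obtain ⟨v, hv, w, hw, hvw⟩ := h3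
  have hu : ∀ x ∈ X, x ≠ a → x + z ∈ X := by
    intro x hx hxa
    by_contra hcon
    have h2 : x ∈ X.filter fun b => b + z ∉ X := Finset.mem_filter.2 ⟨hx, hcon⟩
    rw [ha, Finset.mem_singleton] at h2
    exact hxa h2
  rw [Finset.mem_insert, Finset.mem_insert, Finset.mem_singleton] at hw
  rcases hw with rfl | rfl | rfl
  · rw [add_zero] at hvw
    subst hvw
    exact absurd (h2 v hv).2.1 haz
  · exfalso
    apply haz
    rw [← hvw, add_assoc]
    exact (h2 v hv).2.2
  · have e1 : a - z = v + z := by rw [← hvw]; abel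
    have e2 : a - z - z = v := by rw [← hvw]; abel
    refine ⟨a, haX, haz, ?_, ?_, hu⟩
    · rw [e1]
      exact (h2 v hv).2.1
    · rw [e2]
      exact (h2 v hv).1

/-- the coset of the exit, translated, lies in the set -/
private theorem Rc_coset {G : Type} [AddCommGroup G] [Finite G] (X : Finset G) (z a : G)
    (hz : z ≠ 0) (hzz : z + z ≠ 0) (haX : a ∈ X) (h1 : a - z ∈ X) (h2 : a - z - z ∈ X)
    (hu : ∀ x ∈ X, x ≠ a → x + z ∈ X) (w : G) (hw : lam X w ≤ 2)
    (hwz : w ∉ AddSubgroup.zmultiples z) (x : G)
    (hx : x - (a + w) ∈ AddSubgroup.zmultiples z) : x ∈ X := by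
  have hp : ∃ p ∈ X, p - a ∈ AddSubgroup.zmultiples z ∧ p + w ∈ X := by
    by_contra hcon
    push Not at hcon
    have hsub : ({a, a - z, a - z - z} : Finset G) ⊆ X.filter fun b => b + w ∉ X := by
      intro y hy
      rw [Finset.mem_insert, Finset.mem_insert, Finset.mem_singleton] at hy
      have hzm : z ∈ AddSubgroup.zmultiples z := AddSubgroup.mem_zmultiples z
      rcases hy with rfl | rfl | rfl
      · refine Finset.mem_filter.2 ⟨haX, hcon _ haX ?_⟩
        rw [sub_self]
        exact AddSubgroup.zero_mem _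
      · refine Finset.mem_filter.2 ⟨h1, hcon _ h1 ?_⟩
        have e : a - z - a = -z := by abel
        rw [e]
        exact AddSubgroup.neg_mem _ hzm
      · refine Finset.mem_filter.2 ⟨h2, hcon _ h2 ?_⟩
        have e : a - z - z - a = -(z + z) := by abel
        rw [e]
        exact AddSubgroup.neg_mem _ (AddSubgroup.add_mem _ hzm hzm)
    have hc : ({a, a - z, a - z - z} : Finset G).card = 3 := by
      rw [Finset.card_eq_three]
      refine ⟨a, a - z, a - z - z, ?_, ?_, ?_, rfl⟩
      · intro h
        apply hz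
        have h' : a - z = a := h.symm
        exact sub_eq_self.1 h'
      · intro h
        apply hzz
        have h' : a - (z + z) = a := by rw [← sub_sub]; exact h.symm
        exact sub_eq_self.1 h'
      · intro h
        apply hz
        exact sub_eq_self.1 h.symm
    have h3 := Finset.card_le_card hsub
    unfold lam at hw
    omega
  obtain ⟨p, hpX, hpa, hpw⟩ := hp
  have hstep : ∀ n : ℕ, p + w + n • z ∈ X := by
    intro n
    induction n with
    | zero => rw [zero_smul, add_zero]; exact hpw
    | succ n ih =>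
      have h3 := hu _ ih (by
        intro h
        apply hwz
        have e : w = a - n • z - p := by rw [← h]; abel
        have e2 : w = -(p - a) - n • z := by rw [e]; abel
        rw [e2]
        exact AddSubgroup.sub_mem _ (AddSubgroup.neg_mem _ hpa)
          (AddSubgroup.nsmul_mem _ (AddSubgroup.mem_zmultiples z) n))
      rw [succ_nsmul, ← add_assoc]
      exact h3
  have h4 : x - (p + w) ∈ AddSubgroup.zmultiples z := by
    have e : x - (p + w) = (x - (a + w)) - (p - a) := by abel
    rw [e]
    exact AddSubgroup.sub_mem _ hx hpa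
  have hfin : IsOfFinAddOrder z := isOfFinAddOrder_of_finite z
  rw [← hfin.mem_multiples_iff_mem_zmultiples] at h4
  obtain ⟨n, hn⟩ := (AddSubmonoid.mem_multiples_iff _ _).1 h4
  have h5 := hstep n
  rw [hn] at h5
  have e : p + w + (x - (p + w)) = x := by abel
  rw [e] at h5
  exact h5

theorem thm_Rc : St_Rc := by
  intro G _ _ X V z hz hzz hl hV
  have : Fintype G := Fintype.ofFinite G
  obtain ⟨a, haX, haz, h1, h2, hu⟩ := Rc_exit X V z hl hV
  set Q : Finset G := Finset.univ.filter fun q => q ∉ X ∧ q - a ∈ AddSubgroup.zmultiples z with hQ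
  have hmQ : ∀ q, q ∈ Q ↔ q ∉ X ∧ q - a ∈ AddSubgroup.zmultiples z := by
    intro q
    rw [hQ, Finset.mem_filter]
    exact ⟨fun h => h.2, fun h => ⟨Finset.mem_univ q, h⟩⟩
  have hzm : z ∈ AddSubgroup.zmultiples z := AddSubgroup.mem_zmultiples z
  have hazQ : a + z ∈ Q := by
    rw [hmQ]
    refine ⟨haz, ?_⟩
    have e : a + z - a = z := by abel
    rw [e]
    exact hzm
  have hcl : ∀ x ∈ X ∪ Q, x + z ∈ X ∪ Q := by
    intro x hx
    rw [Finset.mem_union] at hx ⊢
    rcases hx with hx | hx
    · by_cases hxa : x = a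
      · rw [hxa]
        exact Or.inr hazQ
      · exact Or.inl (hu x hx hxa)
    · by_cases h3 : x + z ∈ X
      · exact Or.inl h3
      · refine Or.inr ((hmQ _).2 ⟨h3, ?_⟩)
        have e : x + z - a = (x - a) + z := by abel
        rw [e]
        exact AddSubgroup.add_mem _ ((hmQ x).1 hx).2 hzm
  have hcl' : ∀ y, y + z ∈ X ∪ Q → y ∈ X ∪ Q := by
    intro y hy
    have hinj : Function.Injective (fun x : G => x + z) := fun p q h => add_right_cancel h
    have hsub : (X ∪ Q).image (fun x => x + z) ⊆ X ∪ Q := by
      intro x hx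
      obtain ⟨x', hx', rfl⟩ := Finset.mem_image.1 hx
      exact hcl x' hx'
    have heq := Finset.eq_of_subset_of_card_le hsub
      (by rw [Finset.card_image_of_injective _ hinj])
    rw [← heq] at hy
    obtain ⟨x', hx', hxy⟩ := Finset.mem_image.1 hy
    have : x' = y := hinj hxy
    rw [← this]
    exact hx'
  refine ⟨Q, ?_, ⟨a + z, hazQ⟩, hcl, ?_⟩
  · rw [Finset.disjoint_left]
    intro x hx hx'
    exact ((hmQ x).1 hx').1 hx
  · intro w hw hwz
    have hA := Rc_coset X z a hz hzz haX h1 h2 hu w hw hwz
    have hB := Rc_coset X z a hz hzz haX h1 h2 hu (-w) (by rw [lam_neg]; exact hw)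
      (fun h => hwz (by
        have h3 := AddSubgroup.neg_mem _ h
        rwa [neg_neg] at h3))
    -- exits which land in `Q`
    set E : Finset G := (X ∪ Q).filter fun x => x + w ∉ X ∪ Q with hE
    have hEX : ∀ x ∈ E, x ∈ X := by
      intro x hx
      obtain ⟨hx1, hx2⟩ := Finset.mem_filter.1 hx
      rcases Finset.mem_union.1 hx1 with h3 | h3
      · exact h3
      · exfalso
        apply hx2
        refine Finset.mem_union_left _ (hA _ ?_)
        have e : x + w - (a + w) = x - a := by abel
        rw [e]
        exact ((hmQ x).1 h3).2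
    have hinj : Function.Injective (fun q : G => q - w) := fun p q h => sub_left_injective h
    have hdisj : Disjoint E (Q.image fun q => q - w) := by
      rw [Finset.disjoint_left]
      intro x hx hx'
      obtain ⟨q, hq, rfl⟩ := Finset.mem_image.1 hx'
      apply (Finset.mem_filter.1 hx).2
      have e : q - w + w = q := by abel
      rw [e]
      exact Finset.mem_union_right _ hq
    have hsub : E ∪ (Q.image fun q => q - w) ⊆ X.filter fun b => b + w ∉ X := by
      intro x hx
      rcases Finset.mem_union.1 hx with h3 | h3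
      · refine Finset.mem_filter.2 ⟨hEX x h3, fun h4 => ?_⟩
        exact (Finset.mem_filter.1 h3).2 (Finset.mem_union_left _ h4)
      · obtain ⟨q, hq, rfl⟩ := Finset.mem_image.1 h3
        refine Finset.mem_filter.2 ⟨hB _ ?_, ?_⟩
        · have e : q - w - (a + -w) = q - a := by abel
          rw [e]
          exact ((hmQ q).1 hq).2
        · have e : q - w + w = q := by abel
          rw [e]
          exact ((hmQ q).1 hq).1
    have hcard := Finset.card_le_card hsub
    rw [Finset.card_union_of_disjoint hdisj, Finset.card_image_of_injective _ hinj] at hcard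
    have hw' : (X.filter fun b => b + w ∉ X).card ≤ 2 := hw
    have hQ1 : 1 ≤ Q.card := Finset.card_pos.2 ⟨a + z, hazQ⟩
    refine ⟨by omega, ?_⟩
    intro x hx
    by_contra hcon
    have hxE : x ∈ E := Finset.mem_filter.2 ⟨hx, hcon⟩
    have hxzE : x + z ∈ E := by
      refine Finset.mem_filter.2 ⟨hcl x hx, fun h => hcon (hcl' _ ?_)⟩
      have e : x + w + z = x + z + w := by abel
      rw [e]
      exact h
    have hne : x ≠ x + z := by
      intro h
      exact hz (by
        have h3 : x + 0 = x + z := by rw [add_zero]; exact h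
        exact (add_left_cancel h3).symm)
    have h2c : 1 < E.card := Finset.one_lt_card.2 ⟨x, hxE, x + z, hxzE, hne⟩
    omega

end Pool.Agent.SZD
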