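import Pool.Agent.SZD.Ra
import Pool.Agent.SSX.Main

/-!
# SZD, module Rp (helper64): the row lemma for a periodic row
-/

set_option autoImplicit false

noncomputable section

open Finset Pool.Agent.Helper64.Rho Pool.Agent.SDG Pool.Agent.SNW Pool.Agent.SNR
open scoped Classical Pointwise

namespace Pool.Agent.SZD

theorem Rp_num (k' d P S X : ℕ) (hd : 1 ≤ d) (hP : 2 ≤ P) (hP' : 1 ≤ k' → cf 2 k' + 1 ≤ P)
    (hS : d * P ≤ S) (hX : 2 * P ≤ X) :
    2 * (k' + d) ≤ S + 1 ∨ (k' + d = 3 ∧ 4 ≤ S ∧ 8 ≤ X) ∨ (k' + d = 4 ∧ 6 ≤ S ∧ 12 ≤ X) ∨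
      (k' + d = 5 ∧ 8 ≤ S) := by
  have h1 := thm_Nm1.2.2.1 k'
  obtain ⟨e, rfl⟩ : ∃ e, d = e + 1 := ⟨d - 1, by omega⟩
  rcases Nat.eq_zero_or_pos k' with h0 | h0
  · subst h0
    left
    have h2 : (e + 1) * 2 ≤ (e + 1) * P := Nat.mul_le_mul_left _ hP
    omega
  · have hPc := hP' h0
    rw [h1] at hPc
    by_cases h5 : 5 ≤ k'
    · left
      have h2 : 2 * k' + 1 ≤ P := by
        have h3 : 4 * (2 * k' - 1) ≤ (k' + 1) ^ 2 := by
          obtain ⟨c, rfl⟩ : ∃ c, k' = c + 5 := ⟨k' - 5, by omega⟩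
          have : 2 * (c + 5) - 1 = 2 * c + 9 := by omega
          rw [this]
          nlinarith
        have h4 : 2 * k' - 1 ≤ (k' + 1) ^ 2 / 4 := by
          rw [Nat.le_div_iff_mul_le (by norm_num)]
          omega
        omega
      have h3 : (e + 1) * (2 * k' + 1) ≤ (e + 1) * P := Nat.mul_le_mul_left _ h2
      have h4 : (e + 1) * (2 * k' + 1) = 2 * (e * k') + e + 2 * k' + 1 := by ring
      have h6 : e * 1 ≤ e * k' := Nat.mul_le_mul_left _ h0
      omega
    · have : k' = 1 ∨ k' = 2 ∨ k' = 3 ∨ k' = 4 := by omega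
      rcases this with rfl | rfl | rfl | rfl
      · left
        have h2 : (e + 1) * 3 ≤ (e + 1) * P := Nat.mul_le_mul_left _ (by norm_num at hPc; omega)
        omega
      · have h2 : 4 ≤ P := by norm_num at hPc; omega
        have h3 : (e + 1) * 4 ≤ (e + 1) * P := Nat.mul_le_mul_left _ h2
        omega
      · have h2 : 6 ≤ P := by norm_num at hPc; omega
        have h3 : (e + 1) * 6 ≤ (e + 1) * P := Nat.mul_le_mul_left _ h2
        omega
      · have h2 : 8 ≤ P := by norm_num at hPc; omega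
        have h3 : (e + 1) * 8 ≤ (e + 1) * P := Nat.mul_le_mul_left _ h2
        omega

theorem thm_Rp : St_Rp := by
  intro G ι _ _ u f W hH hAp
  obtain ⟨X, hX⟩ : ∃ X, X = W + FS u f := ⟨_, rfl⟩
  obtain ⟨R, hR⟩ : ∃ R, R = gen u f := ⟨_, rfl⟩
  have hsz := hH.sz
  rw [← hX, ← hR] at hsz
  rw [← hX] at hAp ⊢
  obtain ⟨w, hw⟩ := hH.ne
  have hmem : ∀ x ∈ FS u f, w + x ∈ X := fun x hx => by
    rw [hX]
    exact add_mem_add hw hx
  have hw0 : w ∈ X := by
    have := hmem 0 (zero_mem_FS _ _)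
    rwa [add_zero] at this
  have hXne : X.Nonempty := ⟨w, hw0⟩
  have hco : ∀ x ∈ X, x - w ∈ R := by
    intro x hx
    rw [hX] at hx
    obtain ⟨a, ha, b, hb, rfl⟩ := mem_add.1 hx
    have h1 := hH.co a ha w hw
    have h2 := (all_Ba1 G ι f).2.2.2.2.2.2 u b hb
    rw [hR]
    have h3 : a + b - w = (a - w) + b := by abel
    rw [h3]
    exact AddSubgroup.add_mem _ h1 h2
  obtain ⟨P, hP⟩ := P1_per X
  have hPR : P ≤ R := by
    intro g hg
    have h1 := hco _ ((hP g).1 hg w hw0)
    have h2 : w + g - w = g := by abel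
    rwa [h2] at h1
  have hPb : P ≠ ⊥ := by
    intro hb
    apply hAp
    intro g hg
    have h1 := (hP g).2 hg
    rwa [hb, AddSubgroup.mem_bot] at h1
  have hP2 : 2 ≤ Nat.card P := by
    have h1 : 0 < Nat.card P := Nat.card_pos
    by_contra hcon
    apply hPb
    rw [← AddSubgroup.card_eq_one]
    omega
  obtain ⟨u', hu'⟩ : ∃ u', u' = u.filter fun i => f i ∈ P := ⟨_, rfl⟩
  have hsub : u' ⊆ u := by rw [hu']; exact filter_subset _ _
  have hlt : ∃ l ∈ u, f l ∉ P := by
    by_contra hcon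
    push Not at hcon
    have h1 : R ≤ P := by
      rw [hR]
      unfold gen
      rw [AddSubgroup.closure_le]
      rintro _ ⟨k, hk, rfl⟩
      exact hcon k (mem_coe.1 hk)
    have h2 := Ra_coset X R hXne (fun g hg => (hP g).1 (h1 hg))
    omega
  have hAu' : Aper (FS u' f) := (all_Ba1 G ι f).2.1 u u' hsub hH.ap
  have hPc : 1 ≤ u'.card → cf 2 u'.card + 1 ≤ Nat.card P := by
    intro _
    have h1 := (all_Kn G).2.2.2 (FS u' f) P ⟨0, zero_mem_FS _ _⟩ hPb
      (fun x hx => FS_subset_of_mem (fun k hk => by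
        rw [hu'] at hk
        exact (mem_filter.1 hk).2) hx) hAu'
    have h2 := Pool.Agent.SSX.PAG_all G ι u' f (fun k hk => hH.h0 k (hsub hk))
      (fun x => (card_le_card (filter_subset_filter _ hsub)).trans (hH.cap x)) hAu'
    omega
  have hout : ∀ l ∈ u \ u', Nat.card P ≤ lam X (f l) := by
    intro l hl
    obtain ⟨hl1, hl2⟩ := mem_sdiff.1 hl
    have h1 : f l ∉ P := fun h => hl2 (by rw [hu']; exact mem_filter.2 ⟨hl1, h⟩)
    exact Ra_large X P (f l) (fun q hq => (hP q).1 hq) (fun h => h1 ((hP _).2 h))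
  have hs2 : (u \ u').card * Nat.card P ≤ ∑ l ∈ u, lam X (f l) := by
    calc (u \ u').card * Nat.card P = ∑ l ∈ u \ u', Nat.card P := by
          rw [sum_const, smul_eq_mul]
      _ ≤ ∑ l ∈ u \ u', lam X (f l) := sum_le_sum fun l hl => hout l hl
      _ ≤ _ := sum_le_sum_of_subset sdiff_subset
  have hcd : (u \ u').card + u'.card = u.card := card_sdiff_add_card_eq_card hsub
  obtain ⟨l, hl, hlP⟩ := hlt
  have hd1 : 1 ≤ (u \ u').card := by
    refine card_pos.2 ⟨l, mem_sdiff.2 ⟨hl, fun h => hlP ?_⟩⟩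
    rw [hu'] at h
    exact (mem_filter.1 h).2
  have hX2 : 2 * Nat.card P ≤ X.card := by
    obtain ⟨PF, hPF, hPFc⟩ := fin_exists P
    have hl0 : w + f l ∈ X := by
      apply hmem
      exact mem_FS.2 ⟨{l}, singleton_subset_iff.2 hl, sum_singleton _ _⟩
    have h1 : PF.image (fun g => w + g) ∪ PF.image (fun g => (w + f l) + g) ⊆ X := by
      apply union_subset
      · intro x hx
        obtain ⟨g, hg, rfl⟩ := mem_image.1 hx
        exact (hP g).1 ((hPF g).1 hg) w hw0
      · intro x hx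
        obtain ⟨g, hg, rfl⟩ := mem_image.1 hx
        exact (hP g).1 ((hPF g).1 hg) _ hl0
    have h2 : Disjoint (PF.image fun g => w + g) (PF.image fun g => (w + f l) + g) := by
      rw [disjoint_left]
      intro x hx hx'
      obtain ⟨g, hg, rfl⟩ := mem_image.1 hx
      obtain ⟨g', hg', hgg⟩ := mem_image.1 hx'
      apply hlP
      have h3 : f l = g - g' := by
        have : w + f l + g' = w + g := hgg
        have h4 : f l = (w + f l + g') - w - g' := by abel
        rw [h4, this]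
        abel
      rw [h3]
      exact P.sub_mem ((hPF g).1 hg) ((hPF g').1 hg')
    have h3 := card_le_card h1
    rw [card_union_of_disjoint h2, card_image_of_injective _ (add_right_injective _),
      card_image_of_injective _ (add_right_injective _), hPFc] at h3
    omega
  have h7 := Rp_num u'.card (u \ u').card (Nat.card P) _ X.card hd1 hP2 hPc hs2 hX2
  have h8 : u'.card + (u \ u').card = u.card := by omega
  rw [h8] at h7
  exact h7

end Pool.Agent.SZD
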