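import Pool.Agent.SZD.St

/-!
# SZD (Rs): sums over the rows, helper59
-/

set_option autoImplicit false

noncomputable section

open Finset Pool.Agent.Helper64.Rho Pool.Agent.SDG Pool.Agent.SNW Pool.Agent.SNR
open scoped Classical Pointwise

namespace Pool.Agent.SZD

theorem thm_Rs : St_Rs := by
  intro G H ι _ _ _ π s f
  constructor
  · intro g hg
    unfold lam
    rw [Finset.card_eq_sum_card_fiberwise (f := fun x => π x) (t := (FS s f).image π)]
    · refine Finset.sum_congr rfl fun c _ => ?_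
      congr 1
      ext x
      simp only [Finset.mem_filter]
      constructor
      · rintro ⟨⟨h1, h2⟩, h3⟩
        exact ⟨⟨h1, h3⟩, fun h4 => h2 h4.1⟩
      · rintro ⟨⟨h1, h3⟩, h2⟩
        refine ⟨⟨h1, fun h4 => h2 ⟨h4, ?_⟩⟩, h3⟩
        rw [map_add, hg, add_zero]
        exact h3
    · intro x hx
      have h1 := (Finset.mem_filter.1 (Finset.mem_coe.1 hx)).1
      exact Finset.mem_coe.2 (Finset.mem_image_of_mem _ h1)
  · intro c hc
    obtain ⟨x₀, hx₀, hxc⟩ := Finset.mem_image.1 hc
    set u := s.filter fun i => π (f i) = 0 with hu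
    have hdis : Disjoint (s \ u) u := Finset.sdiff_disjoint
    have hun : (s \ u) ∪ u = s := Finset.sdiff_union_of_subset (Finset.filter_subset _ _)
    have hker : ∀ y ∈ FS u f, π y = 0 := by
      intro y hy
      obtain ⟨t, ht, rfl⟩ := mem_FS.1 hy
      rw [map_sum]
      refine Finset.sum_eq_zero fun i hi => ?_
      exact (Finset.mem_filter.1 (ht hi)).2
    have hmem : ∀ x : G, x ∈ FS s f ↔ ∃ a ∈ FS (s \ u) f, ∃ b ∈ FS u f, a + b = x := by
      intro x
      have h1 := mem_FS_union hdis f (x := x)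
      rw [hun] at h1
      rw [h1]
      exact exists_congr fun a => and_congr_right fun _ => exists_congr fun b =>
        and_congr_right fun _ => eq_comm
    refine ⟨(FS (s \ u) f).filter fun x => π x = c, ?_, ?_, ?_⟩
    · obtain ⟨a, ha, b, hb, hab⟩ := (hmem x₀).1 hx₀
      refine ⟨a, Finset.mem_filter.2 ⟨ha, ?_⟩⟩
      rw [← hxc, ← hab, map_add, hker b hb, add_zero]
    · intro x hx
      exact (Finset.mem_filter.1 hx).2
    · ext x
      rw [Finset.mem_filter, Finset.mem_add]
      constructor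
      · rintro ⟨hx, hc'⟩
        obtain ⟨a, ha, b, hb, hab⟩ := (hmem x).1 hx
        refine ⟨a, Finset.mem_filter.2 ⟨ha, ?_⟩, b, hb, hab⟩
        rw [← hc', ← hab, map_add, hker b hb, add_zero]
      · rintro ⟨a, ha, b, hb, hab⟩
        obtain ⟨ha1, ha2⟩ := Finset.mem_filter.1 ha
        refine ⟨(hmem x).2 ⟨a, ha1, b, hb, hab⟩, ?_⟩
        rw [← hab, map_add, hker b hb, add_zero, ha2]

end Pool.Agent.SZD
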