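import Pool.Agent.SZD.St
import Pool.Agent.SNT.All2

/-!
# SZD, module Y1: the cap 2 statement with gain 1 for a family which generates a noncyclic subgroup
-/

set_option autoImplicit false

noncomputable section

open Finset Pool.Agent.Helper64.Rho Pool.Agent.SDG Pool.Agent.SNW Pool.Agent.SNR
open scoped Classical Pointwise

namespace Pool.Agent.SZD

private theorem Y1_l0 (G : Type) [AddCommGroup G] [Finite G] (hc : ¬ IsAddCyclic G) : 2 ≤ l0 G := by
  have hd : AddMonoid.exponent G ∣ Nat.card G := AddGroup.exponent_dvd_nat_card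
  obtain ⟨k, hk⟩ := hd
  have he : AddMonoid.exponent G ≠ 0 := AddMonoid.exponent_ne_zero_of_finite
  have hl : l0 G = k := by
    unfold l0
    rw [hk, Nat.mul_div_cancel_left _ (Nat.pos_of_ne_zero he)]
  rw [hl]
  by_contra h
  have h2 : k = 0 ∨ k = 1 := by omega
  rcases h2 with rfl | rfl
  · rw [mul_zero] at hk
    exact absurd hk Nat.card_pos.ne'
  · rw [mul_one] at hk
    exact hc (IsAddCyclic.of_exponent_eq_card hk.symm)

theorem thm_Y1 : St_Y1 := by
  intro G ι _ _ u f hc h0 hcap hap
  obtain ⟨f', hf', hg, hcard, hAp, hC, hz⟩ := Pool.Agent.SDG.all_Tr G ι u f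
  have hM := Pool.Agent.SNT.all_M1Pr (gen u f) hc
  have hl : 2 ≤ l0 (gen u f) := Y1_l0 _ hc
  have hc1 := P1_card (fun a b => a.instDecidableEq b) (fun a b => Classical.propDecidable (a = b))
    u f'
  rw [hc1] at hcard
  rcases hM ι u f' (hz h0) (hC 2 hcap) (P1_aper _ _ u f' (hAp hap)) hg with h | h
  · left
    rw [← hcard]
    refine le_trans (le_min ?_ ?_) h
    · exact min_le_left _ _
    · exact (min_le_right _ _).trans (by omega)
  · right
    rw [← hcard]
    exact h

end Pool.Agent.SZD
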