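import Pool.Agent.SZD.Se
import Pool.Agent.SZD.Fr
import Pool.Agent.SZD.Rs
import Pool.Agent.SZD.Rb
import Pool.Agent.SZD.Rc
import Pool.Agent.SZD.Ra
import Pool.Agent.SZD.Rp
import Pool.Agent.SZD.NuLr
import Pool.Agent.SZD.LR
import Pool.Agent.SZD.Y1
import Pool.Agent.SZD.NuA
import Pool.Agent.SZD.CA
import Pool.Agent.SZD.BI
import Pool.Agent.SZD.Ex
import Pool.Agent.SZD.Nb
import Pool.Agent.SZD.Nc
import Pool.Agent.SZD.C7
import Pool.Agent.SZD.B4
import Pool.Agent.SZD.ND2
import Pool.Agent.SBN.LB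
import Pool.Agent.SBN.Del
import Pool.Agent.SNT.All2

/-!
# SZD, assembly (helper97): cap 2, level 2, rank at least 3, no drop, without hypotheses
-/

set_option autoImplicit false

noncomputable section

open Finset Pool.Agent.Helper64.Rho Pool.Agent.SDG Pool.Agent.SNW Pool.Agent.SNR
open scoped Classical Pointwise

namespace Pool.Agent.SZD

theorem sbn_LB : SBN.St_LB := SBN.thm_LB SNT.all_PAG SNT.all_M1Pr

theorem all_LBs : St_LBs := by
  intro G ι _ _ u f hc h0 hcap hap h3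
  exact SBN.thm_LBs sbn_LB G ι u f (gen u f) hc h0 hcap hap rfl (by omega)

theorem all_Del : St_Del := by
  intro G ι _ _ s f _ hrk h0 hcap hap hg hnd hG hX hz
  exact SBN.thm_Del sbn_LB G ι s f hrk h0 hcap hap hg hnd hG hX hz

theorem all_Ra : St_Ra := thm_Ra thm_Rb thm_Rc
theorem all_LR : St_LR := thm_LR thm_NuL
theorem all_CA : St_CA := thm_CA thm_Fr thm_Rs all_Ra thm_Rp all_LR all_LBs thm_Y1 thm_NuA
theorem all_BI : St_BI := thm_BI thm_Ex
theorem all_C7 : St_C7 := thm_C7 all_BI thm_Nb thm_Nc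
/-- the theorem ND2, from the small case `C56` -/
theorem ND2_of (h : St_C56) : SBN.St_ND2 := thm_ND2 all_Del thm_Se all_CA all_C7 h thm_B4

end Pool.Agent.SZD
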