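import Pool.Agent.SZD.St

/-!
# SZD, module Se (helper97): the candidate
-/

set_option autoImplicit false

noncomputable section

open Finset Pool.Agent.Helper64.Rho Pool.Agent.SDG Pool.Agent.SNW Pool.Agent.SNR
open scoped Classical Pointwise

namespace Pool.Agent.SZD

theorem thm_Se : St_Se := by
  intro G ι _ _ s f j hF
  have h0 := hF.h0
  have hA := hF.ap
  have hg := hF.gn
  have hge := hF.nd
  have hbt : (⊥ : AddSubgroup G) ≠ ⊤ := by
    intro h
    have h1 := hF.rk
    rw [h, crk_top] at h1
    omega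
  obtain ⟨R, hC, hRG, hR⟩ := max_cand2 h0 hA hbt 1 le_rfl (GR_mono (Nat.le_succ 1) le_rfl hF.g2)
  obtain ⟨H', _, _, π, hπs, hπk, hπc⟩ := q_exists G R
  obtain ⟨d1, d2, d3, d4, d5⟩ := Cd_data hπs hπk hC h0 hA j hF.lj
  have he := crk_nodrop hC.1 hge hg
  have htop : ∀ H : AddSubgroup G, crk H < 1 → H = ⊤ := by
    intro H hH
    by_contra h
    have := crk_pos h
    omega
  have hmx : ∀ i ∈ s, f i ∉ R → Nat.card G ≤ (st (FS s f) (gen (insert i (Inn s f R)) f)).card := by
    intro i his hiR
    obtain ⟨H, hRH, hiH, hH, hst⟩ := hR i his hiR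
    have h1 := htop H hH
    rw [h1, crk_top, pow_zero, mul_one, AddSubgroup.card_top] at hst
    exact hst
  obtain ⟨i, hi⟩ : (s.filter fun i => f i ∉ R).Nonempty := by
    rw [← card_pos]
    omega
  obtain ⟨his, hiR⟩ := mem_filter.1 hi
  obtain ⟨H, hRH, hiH, hH, hst⟩ := hR i his hiR
  have hbot : R ≠ ⊥ := by
    rintro rfl
    have h2 : (s.filter fun k => f k ∈ (⊥ : AddSubgroup G)) = ∅ := by
      rw [Finset.filter_eq_empty_iff]
      intro k hk h
      exact h0 k hk ((AddSubgroup.mem_bot).1 h)
    rw [h2] at hst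
    have h6 : gen (insert i ∅) f = AddSubgroup.zmultiples (f i) := by
      apply le_antisymm
      · unfold gen
        rw [AddSubgroup.closure_le]
        rintro _ ⟨k, hk, rfl⟩
        rw [mem_coe, mem_insert] at hk
        rcases hk with rfl | hk
        · exact AddSubgroup.mem_zmultiples _
        · exact absurd hk (notMem_empty _)
      · rw [AddSubgroup.zmultiples_le]
        exact P1_mem_gen (mem_insert_self i ∅)
    rw [h6] at hst
    exact bot_level h0 hA 1 hF.g2 i his H hiH hH hst
  obtain ⟨d6, d7⟩ := d5 hbot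
  have hr1 : 1 ≤ crk R := crk_pos hC.1
  have hq := GR_quot R π hπs hπk hπc 1 (NN π s f R) (by
    show GR 1 R (Nat.card R * (FS (s.filter fun i => f i ∉ R) (fun i => π (f i))).card)
    rw [q_card s f hπk]
    exact hRG)
  have hqt := hq ⊤ bot_le (by rw [crk_top]; omega)
  rw [crk_top, pow_zero, mul_one, AddSubgroup.card_top] at hqt
  refine ⟨R, H', inferInstance, inferInstance, π, ?_⟩
  refine ⟨hF, hπs, hπk, hC.1, hC, hπc, q_ne s f hπk, d1, q_gen s f hπs hπk hg, hqt, hr1, crk_quot R π hπs hπk, ?_, d3, d6,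
    d4, d7, ?_, he, ?_, hmx⟩
  · have h1 : YY s f R ≤ Nat.card R := by
      have := d7
      show (FS (s.filter fun i => f i ∈ R) f).card ≤ _
      omega
    have h2 : j * (Nat.card R - YY s f R) + j * YY s f R = j * Nat.card R := by
      rw [← mul_add, Nat.sub_add_cancel h1]
    have h3 : Nat.card R * NN π s f R ≤ (FS s f).card + j * (Nat.card R - YY s f R) := d2
    omega
  · rw [add_comm]
    exact Finset.card_filter_add_card_filter_not (s := s) (fun i => f i ∈ R)
  · intro h1
    have h2 : crk R = 1 := by omega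
    have h3 := hF.g2 R bot_le (by omega)
    rw [h2, pow_one] at h3
    omega

end Pool.Agent.SZD
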