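import Pool.Agent.SZD.Defs

/-!
# SZD: statements with proofs (MP_ec93d3_co, cap 2, level 2, rank at least 3, no drop).  Architect helper97.

Notation: `t = s.card`, `X = |FS s f|`, `U t = 2 ((t+1)^2 / 4)`, so `(t+1)^2 - 1 ≤ 2 U t ≤ (t+1)^2` and `U t - U (t-1) = 2 ⌈t/2⌉` is `t` (`t` even) or
`t + 1` (`t` odd); so `j ≤ t` (and `j ≤ t - 1` for `t` even) in `Fam`.  `cf 2 n = 1 + (n+1)^2 / 4` (SDG.all_Nm1 (3)): 1, 2, 3, 5, 7, 10, 13, 17, 21 for `n = 0, ..., 8`; `4 cf 2 n ≥ (n+1)^2 + 3`.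
For a candidate `R` (Ctx): `k = |Inn|`, `e = |Out|`, `e + k = t`, `y = |R|`, `Y = YY`, `N = NN`; `y N ≤ X + j (y - Y)` (n1), `N Y ≤ X` (n2), `y ≥ Y + 1`, `Y ≥ cf 2 k` (SSX.PAG_all
applied to `Inn`; subfamily: SDG.Ba1 (2), P1_cap_mono).
Library: SDG (all_Ba1, all_Kn, all_Sm, all_Tr, all_Pc, all_Nm1), SSX.PAG_all (`cf 2 |s| ≤ |FS s f|` for every aperiodic cap 2 family of nonzero members),
SNT.all_M1Pr (M1P for every noncyclic finite abelian group), SNW (q_exists, q_card, q_fibre, q_lam, Cd_data, Cd_st, crk ...), SNR (GR, thm_LINm, res, setup).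
A module `X` proves `thm_X : St_A → ... → St_X` in `Pool/Agent/SZD/X.lean` (`import Pool.Agent.SZD.St`), for the modules named in its docstring.
-/

set_option autoImplicit false

noncomputable section

open Finset Pool.Agent.Helper64.Rho Pool.Agent.SDG Pool.Agent.SNW Pool.Agent.SNR
open scoped Classical Pointwise

namespace Pool.Agent.SZD

/-- **Se** (0.5 h).  The candidate.
Proof.  Copy the proof of SNR.setup (Pool/Agent/SNR/Su.lean) with `m = 1`: `max_cand2 h0 ap _ 1`, `q_exists G R`, `Cd_data`, `crk_nodrop`; `R ≠ ⊥` by bot_level, `1 ≤ crk R` because `R ≠ ⊤` (crk_pos).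
`qlt`: GR_quot (level 1: apply it to `⊤`, `crk ⊤ = 0`).  `mx`: the last part of max_cand2: `crk H < 1` gives `H = ⊤` (crk_pos), so `Nat.card G = Nat.card ⊤ * 2^0 ≤ ...`.
`y2`: `g2 R bot_le` for `crk R = 1` (`crk R ≥ 1`).  `n1` from Cd_data (2) and `Y ≤ y`.  `⊥ ≠ ⊤` because `3 ≤ crk ⊥` (`crk ⊤ = 0`). -/
def St_Se : Prop :=
  ∀ (G ι : Type) [AddCommGroup G] [Finite G] (s : Finset ι) (f : ι → G) (j : ℕ), Fam s f j →
    ∃ (R : AddSubgroup G) (H : Type) (_ : AddCommGroup H) (_ : Finite H) (π : G →+ H), Ctx π s f R j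

/-! ## Rows -/

/-- **Fr** (1 h).  No full row.  `z ∈ s`, `ζ = π (f z)`, `ζ ≠ 0`, `2 ζ ≠ 0`; rows `T_c = {x ∈ T | π x = c}`, `T = FS s f`, `S' = FS (s.erase z) f`, `T = S' ∪ (S' + f z)`.
Proof.  `T_c = S'_c ∪ (f z + S'_(c-ζ))`, `T_(c+ζ) ⊇ f z + S'_c`, `T_(c-ζ) ⊇ S'_(c-ζ)`, and `c, c+ζ, c-ζ` are different: `|T_(c+ζ)| + |T_(c-ζ)| ≥ |T_c|`.  Every other row with index in `π T`
(at least `|π T| - 3` of them) has at least `Y = |FS u f|` elements, `u` = members with `π (f i) = 0` (for `x = ∑_B f ∈ T` it contains `∑_(B \ u) f + FS u f`).  Sum of the rows (`card_eq_sum_card_image` / fiberwise). -/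
def St_Fr : Prop :=
  ∀ (G H ι : Type) [AddCommGroup G] [Finite G] [AddCommGroup H] (π : G →+ H) (s : Finset ι) (f : ι → G),
    (∃ z ∈ s, π (f z) ≠ 0 ∧ π (f z) + π (f z) ≠ 0) → ∀ c : H,
      2 * ((FS s f).filter fun x => π x = c).card + (((FS s f).image π).card - 3) * (FS (s.filter fun i => π (f i) = 0) f).card ≤ (FS s f).card

/-- **Rs** (0.8 h).  Sums over the rows; `u` = members with `π (f i) = 0`, rows `T_c` as in Fr.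
Proof.  (1) for `π g = 0` the translation by `g` preserves the rows: `{x ∈ T | x + g ∉ T}` is the disjoint union over `c ∈ π T` of `{x ∈ T_c | x + g ∉ T_c}`.
(2) `T = FS (s \ u) f + FS u f` (SDG.Ba1 (1)) and `FS u f ⊆ ker π`, so `T_c = W + FS u f` with `W = {x ∈ FS (s \ u) f | π x = c}`, nonempty for `c ∈ π T`. -/
def St_Rs : Prop :=
  ∀ (G H ι : Type) [AddCommGroup G] [Finite G] [AddCommGroup H] (π : G →+ H) (s : Finset ι) (f : ι → G),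
    (∀ g : G, π g = 0 → lam (FS s f) g = ∑ c ∈ (FS s f).image π, lam ((FS s f).filter fun x => π x = c) g) ∧
    (∀ c ∈ (FS s f).image π, ∃ W : Finset G, W.Nonempty ∧ (∀ x ∈ W, π x = c) ∧
      ((FS s f).filter fun x => π x = c) = W + FS (s.filter fun i => π (f i) = 0) f)

/-- **Rb** (0.8 h).  Two members with `lam = 1`.
Proof.  `lam X z = 1`: there is exactly one `a ∈ X` with `a + z ∉ X`, and (`lam X (-z) = lam X z`) exactly one `b ∈ X` with `b - z ∉ X`, and exactly one `x ∉ X` with `x + z ∈ X`.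
As `X = V + {0, z}` and `a + z ∉ X`: `a ∉ V`, so `a = v + z`, `a - z = v ∈ X`.  The same for `z'`: `a' ∈ X`, `p' = a' + z' ∉ X`, `a' - z' ∈ X`.  Put `p = a + z`.  Claim: `p = p'`, `p + z' ∈ X`.
Case `a' = a`: `a - z ≠ a'`, so `a - z + z' ∈ X`; `a - z + z' ≠ a`, so `a + z' = (a - z + z') + z ∈ X`, contradiction to `a' + z' ∉ X`.
Case `a' ≠ a`: `a + z' ∈ X`, `a + z' ≠ a`, so `p + z' = a + z' + z ∈ X`, and `p ∉ X`: `p + z'` is the only `b' ∈ X` with `b' - z' ∉ X`.  `a ≠ p + z'` (as `z + z' ≠ 0`), so `a - z' ∈ X`, and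
`a - z' ≠ a`, so `a - z' + z = p - z' ∈ X`; `(p - z') + z' = p ∉ X`, so `p - z' = a'`, `p = p'`.  By symmetry also `p + z ∈ X`.
So `X ∪ {p}` is closed under `+ z` (`x ∈ X`, `x ≠ a`: `x + z ∈ X`; `a + z = p`; `p + z ∈ X`) and under `+ z'`. -/
def St_Rb : Prop :=
  ∀ (G : Type) [AddCommGroup G] (X V V' : Finset G) (z z' : G), z ≠ 0 → z' ≠ 0 → z ≠ z' → z ≠ -z' → lam X z = 1 → lam X z' = 1 →
    X = V + {0, z} → X = V' + {0, z'} → ∃ p, p ∉ X ∧ ∀ x ∈ insert p X, x + z ∈ insert p X ∧ x + z' ∈ insert p X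

/-- **Rc** (0.8 h).  A double member with `lam = 1`.
Proof.  `a` = the only element of `X` with `a + z ∉ X`.  As `X = V + {0, z, 2z}` and `a + z ∉ X`: `a = v + 2z`, so `a - z, a - 2z ∈ X`.  `Q = {q ∉ X | q - a ∈ ⟨z⟩}`, `a + z ∈ Q`; `X ∪ Q` is closed under `+ z`.
Let `lam X w ≤ 2`, `w ∉ ⟨z⟩`.  One of `a + w, a - z + w, a - 2z + w` is in `X` (the three points are different); it is not in `a + ⟨z⟩`, so adding `z` repeatedly stays in `X` (the only exit is `a`): `a + w + ⟨z⟩ ⊆ X` (finite order of `z`).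
In the same way (`lam X (-w) = lam X w`) `a - w + ⟨z⟩ ⊆ X`.  For `q ∈ Q`: `q - w ∈ X`, `(q - w) + w = q ∉ X`: `|Q|` exits of `w`, so `|Q| ≤ lam X w ≤ 2`.
Let `E = {x ∈ X ∪ Q | x + w ∉ X ∪ Q}`.  For `x ∈ Q`, `x + w ∈ a + w + ⟨z⟩ ⊆ X`; so `E ⊆ X`, and the `|E|` exits of `X` in `E` do not land in `Q`: `|E| + |Q| ≤ 2`, `|Q| ≥ 1`, `|E| ≤ 1`.
`E` is closed under `+ z` (`X ∪ Q` and its complement are, `G` finite), `z ≠ 0`: `E = ∅`. -/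
def St_Rc : Prop :=
  ∀ (G : Type) [AddCommGroup G] [Finite G] (X V : Finset G) (z : G), z ≠ 0 → z + z ≠ 0 → lam X z = 1 → X = V + {0, z, z + z} →
    ∃ Q : Finset G, Disjoint X Q ∧ Q.Nonempty ∧ (∀ x ∈ X ∪ Q, x + z ∈ X ∪ Q) ∧
      ∀ w : G, lam X w ≤ 2 → w ∉ AddSubgroup.zmultiples z → Q.card ≤ 2 ∧ ∀ x ∈ X ∪ Q, x + w ∈ X ∪ Q

/-- hypotheses on a row `X = W + FS u f`: one coset of the group `gen u f`, which is not cyclic, at least three elements missing -/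
structure RowH {G ι : Type} [AddCommGroup G] [Finite G] (u : Finset ι) (f : ι → G) (W : Finset G) : Prop where
  ne : W.Nonempty
  co : ∀ x ∈ W, ∀ x' ∈ W, x - x' ∈ gen u f
  nc : ¬ IsAddCyclic (gen u f)
  h0 : ∀ i ∈ u, f i ≠ 0
  cap : Cap 2 u f
  ap : Aper (FS u f)
  sz : (W + FS u f).card + 3 ≤ Nat.card (gen u f)

/-- **Ra** (1.3 h, from Rb, Rc).  The row lemma for an aperiodic row.  `X = W + FS u f`, `k = |u|`, `R = gen u f`.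
Proof.  `lam X (f i) ≥ 1` for all `i ∈ u` (`f i ≠ 0` is not a period).
(1) There are `i, i' ∈ u`, `f i' ≠ f i`, `f i' ≠ - f i`, `lam X (f i) = lam X (f i') = 1`.  `X = V + {0, f i}` (`FS u f = FS (u.erase i) f + {0, f i}`), so Rb gives `p`, `X' = insert p X`; let `P` be the group of periods of `X'`,
`u' = {i ∈ u | f i ∈ P}`, `k' = |u'|`, `i, i' ∈ u'`.  If `k' = k` then `R ≤ P`, `X'` is in one coset of `R` or ... precisely: `X` is in one coset `x0 + R` of `R` and `x0 + R ⊆ X'`, so `|R| ≤ |X| + 1`, contradiction to `sz`.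
So `k' < k`.  `|P| ≥ |FS u' f| + 1 ≥ k' + 2` (SDG.all_Kn (4), all_Sm (1), `P ≠ ⊥`).  For `i ∈ u \ u'` the set `{x ∈ X' | x + f i ∉ X'}` is nonempty and `P`-periodic, so it has at least `|P|` elements, and those which are not `p` are counted in
`lam X (f i) ≥ |P| - 1 ≥ k' + 1`.  The sum is at least `k' + (k - k') (k' + 1) ≥ 2 k - 1` (`k' ≥ 2`, `d = k - k' ≥ 1`: the difference is `(d - 1) (k' - 1) + d - 1 + ... ≥ 0`; nlinarith).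
(2) Otherwise all `i ∈ u` with `lam X (f i) = 1` have the same `± f i`, so there are at most 2 (`Cap 2`).  If at most one: the sum is `≥ 1 + 2 (k - 1) = 2 k - 1`.  If two, `i, i'`, `f i' = ± f i`, `z = f i`: the sum is `≥ 2 + 2 (k - 2) = 2 k - 2`, with
equality only if all other members have `lam = 2`.  Suppose equality.  `X = V + {0, z, 2 z}` for some `V` (`FS u f = FS (u \ {i, i'}) f + {0, z} + {0, ± z}`; for the sign `-` translate `V` by `- z`); `2 z ≠ 0` (SDG.Ba1 (5)).  Rc gives `Q`.  A member with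
`f l ∈ ⟨z⟩` is a period of `X ∪ Q` (closed under `+ z`); a member with `f l ∉ ⟨z⟩` has `lam = 2`: it is a period of `X ∪ Q`, and `|Q| ≤ 2`.  There is one of the second kind, as `R` is not cyclic (zmultiples is cyclic).  So `R` is a
group of periods of `X ∪ Q`: `x0 + R ⊆ X ∪ Q`, `|R| ≤ |X| + 2`, contradiction to `sz`. -/
def St_Ra : Prop :=
  ∀ (G ι : Type) [AddCommGroup G] [Finite G] (u : Finset ι) (f : ι → G) (W : Finset G), RowH u f W → Aper (W + FS u f) →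
    2 * u.card ≤ (∑ i ∈ u, lam (W + FS u f) (f i)) + 1

/-- **Rp** (1.2 h, uses SSX.PAG_all).  The row lemma for a periodic row.
Proof.  `P` = group of periods of `X = W + FS u f` (SDG.P1_per), `P ≠ ⊥`; `X` lies in one coset of `R = gen u f` and is nonempty, so `P ≤ R`; `P ≠ R` (otherwise `|X| ≥ |R|`).  `u' = {i ∈ u | f i ∈ P}`, `k' = |u'| < k` (otherwise `R ≤ P`).
For `i ∉ u'` the set `{x ∈ X | x + f i ∉ X}` is nonempty and `P`-periodic: `lam X (f i) ≥ |P|`.  So the sum is `≥ (k - k') |P|`.  `k' = 0`: `≥ 2 k`.  `k' ≥ 1`: `|P| ≥ |FS u' f| + 1 ≥ cf 2 k' + 1` (SDG.all_Kn (4), PAG_all), i.e.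
`3, 4, 6, 8, 11` for `k' = 1, ..., 5`, and `≥ 2 k' + 1` for `k' ≥ 5` (`4 cf 2 k' ≥ (k'+1)^2 + 3`).  `(k - k') |P|`: `k' = 1`: `3 (k - 1) ≥ 2 k - 1`; `k' = 2`: `4 (k - 2) ≥ 2 k - 1` for `k ≥ 4`, and `4` for `k = 3`; `k' = 3`: `6 (k - 3) ≥ 2 k - 1` for `k ≥ 5`, `6` for `k = 4`;
`k' = 4`: `8 (k - 4) ≥ 2 k - 1` for `k ≥ 6`, `8` for `k = 5`; `k' ≥ 5`: `(k - k') (2 k' + 1) ≥ 2 k - 1`.  In all cases `|X| ≥ 2 |P|`, because `X` contains `w + FS u f` and some `f i ∉ P`: `w` and `w + f i` are in different cosets of `P` (this gives `8, 12, 16` in the three exceptions). -/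
def St_Rp : Prop :=
  ∀ (G ι : Type) [AddCommGroup G] [Finite G] (u : Finset ι) (f : ι → G) (W : Finset G), RowH u f W → ¬ Aper (W + FS u f) →
    2 * u.card ≤ (∑ i ∈ u, lam (W + FS u f) (f i)) + 1 ∨
    (u.card = 3 ∧ 4 ≤ (∑ i ∈ u, lam (W + FS u f) (f i)) ∧ 8 ≤ (W + FS u f).card) ∨
    (u.card = 4 ∧ 6 ≤ (∑ i ∈ u, lam (W + FS u f) (f i)) ∧ 12 ≤ (W + FS u f).card) ∨
    (u.card = 5 ∧ 8 ≤ (∑ i ∈ u, lam (W + FS u f) (f i)))

/-! ## `crk R = 1` -/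

/-- **NuL** (0.5 h).  Numbers.
Proof.  `2 y N + 2 j Y ≤ 2 X + j y < 4 y + j y`, so `2 N < 4 + j`, and `j ≤ t` (`U t ≤ U (t-1) + t + 1`): `2 e + 2 < 4 + e + k`, `e ≤ k + 1`.  `8 N Y ≤ 4 X ≤ 2 (t+1)^2 - 4` and `4 Y ≥ (k+1)^2 + 3`: `(e+1) ((k+1)^2 + 3) ≤ (e+k+1)^2 - 2`.  With `K = k + 1`:
`e (K^2 - 2 K + 3 - e) + 5 ≤ 0`, so `e > k^2 + 2`; with `e ≤ k + 1` a contradiction. -/
def St_NuL : Prop :=
  ∀ e k t N Y y X j : ℕ, 2 ≤ e → 1 ≤ k → e + k = t → 5 ≤ t → e + 1 ≤ N → cf 2 k ≤ Y → 2 * (N * Y) ≤ X → 2 * (y * N) + 2 * (j * Y) ≤ 2 * X + j * y →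
    X < 2 * y → X + 1 ≤ SBN.U t → SBN.U (t - 1) + j + 1 ≤ SBN.U t → False

/-- **LR** (0.8 h, from NuL; uses SSX.PAG_all).  If `crk R ≤ 1` then the members in `R` generate `R`.
Proof.  `L = gen (Inn s f R) f ≤ R` (P1_gen_le), suppose `L ≠ R`: `2 |L| ≤ |R|` (Lagrange).  `Inn s f L = Inn s f R` (P1_filter).  SDG.all_Pc for `L` (`gen (s.filter (f i ∈ L)) f = L`): `|st T L| ≤ X + j (|L| - Y)`, `|st T L| Y ≤ |L| X`; Cd_st: `st T R = st T L`,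
q_card: `|st T R| = y N`.  So `y N + j Y ≤ X + j |L|` (`Y ≤ |L|`: the sums are in `L`) and `y N Y ≤ |L| X`; with `2 |L| ≤ y`: `2 y N + 2 j Y ≤ 2 X + j y`, `2 N Y ≤ X`.  `N ≥ e + 1` (SDG.all_Sm (1) for `T / R`: `qap`, `q0`), `e ≥ crk R + 1 ≥ 2`, `Y ≥ cf 2 k`, `y2`.  NuL. -/
def St_LR : Prop :=
  ∀ (G H ι : Type) [AddCommGroup G] [Finite G] [AddCommGroup H] [Finite H] (π : G →+ H) (s : Finset ι) (f : ι → G) (R : AddSubgroup G) (j : ℕ),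
    Ctx π s f R j → crk R ≤ 1 → gen (Inn s f R) f = R

/-- the statement LB of helper22 (SBN), for a family which generates a subgroup -/
def St_LBs : Prop :=
  ∀ (G ι : Type) [AddCommGroup G] [Finite G] (u : Finset ι) (f : ι → G), ¬ IsAddCyclic (gen u f) → (∀ i ∈ u, f i ≠ 0) → Cap 2 u f → Aper (FS u f) →
    3 * (FS u f).card < 2 * Nat.card (gen u f) → SBN.U (u.card + 2) ≤ 3 * (FS u f).card

/-- **Y1** (0.4 h; SNT.all_M1Pr).  M1P with gain 1 for a family which generates a noncyclic subgroup.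
Proof.  SDG.all_Tr moves the family to the group `gen u f`; `SNT.all_M1Pr` there, `l0 - 1 ≥ 1` because the group is not cyclic (as in SZC/L1.lean: SNW.l0_ge or the argument there). -/
def St_Y1 : Prop :=
  ∀ (G ι : Type) [AddCommGroup G] [Finite G] (u : Finset ι) (f : ι → G), ¬ IsAddCyclic (gen u f) → (∀ i ∈ u, f i ≠ 0) → Cap 2 u f → Aper (FS u f) →
    min (pn u.card) (cf 2 u.card + 1) ≤ (FS u f).card ∨ Nat.card (gen u f) ≤ (FS u f).card + jj u.card * (jj u.card - 1)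

/-- **NuA** (0.8 h).  Numbers, `k ≥ 5`.
Proof.  `j ≤ t`: `(2k - 2)(e + 1) ≤ k (e + k)` gives `e (k - 2) ≤ k^2 - 2k + 2`, so `e ≤ k` (`k ≥ 5`).  `N Y ≤ X`, `4 Y ≥ (k+1)^2 + 3`, `4 X ≤ 2 (t+1)^2 - 4`: `(e+1) ((k+1)^2 + 3) ≤ 2 (e+k+1)^2 - 4`.  For `k ≥ 6` this fails for `e = 3` (the difference right minus left is `-2k^2 + 8k + 12 < 0`)
and for `e = k` (`-k^3 + 5k^2 + 2k - 6 < 0`), and it is convex in `e`, so it fails for `3 ≤ e ≤ k` (i.e. right minus left `≤ -(e-3)(k-e) * 2 + ...`; nlinarith with `(e-3)(k-e) ≥ 0`).  `k = 5`: `e = 3`: `4 * 10 > 39`; `e = 4`: `5 * 10 > 49`; `e = 5`: `t = 10`, `j ≤ 9`, `8 * 6 > 45`. -/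
def St_NuA : Prop :=
  ∀ e k t N Y X j : ℕ, 3 ≤ e → 5 ≤ k → e + k = t → e + 1 ≤ N → cf 2 k ≤ Y → N * Y ≤ X → (2 * k - 2) * N ≤ k * j →
    X + 1 ≤ SBN.U t → SBN.U (t - 1) + j + 1 ≤ SBN.U t → False

/-- **CA** (1.8 h, from Fr, Rs, Ra, Rp, LR, LBs, Y1, NuA; uses SSX.PAG_all).  The case `crk R = 1`.
Proof.  `u = Inn s f R`, `gen u f = R` (LR), `k = |u|`.  `R` is not cyclic: otherwise `crk ⊥ ≤ crk R + 1 ≤ 2` (`G = R + ⟨g⟩`, `R = ⟨g'⟩`; exists_crk / crk_sup_le).  So `k ≥ 2` and `Y ≥ 4` (`k = 2`: the two members are not `±` each other, `0, a, b, a+b` are different; `k ≥ 3`: `cf 2 k ≥ 5`).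
`N ≥ e + 1` (SDG.all_Sm (1), `q0`, `qap`), `N = |π T|` (q_image).
(1) `e ≥ 3`: `e ≥ 2` (er); if `e = 2` then `N ≥ 3`, `3 Y ≤ N Y ≤ X < 2 y`, St_LBs for `u` (`|u| + 2 = t`): `U t ≤ 3 Y ≤ X`, contradiction to xU.  So `N ≥ 4`.
(2) rows: `c ∈ π T`, `T_c`: by Fr (`z ∈ Out`: `π (f z) ≠ 0`, `2 π (f z) ≠ 0` by SDG.Ba1 (5) for `T / R`): `2 |T_c| + (N - 3) Y ≤ X < 2 y`, so `|T_c| + 3 ≤ y` (`(N - 3) Y ≥ 4`).  By Rs (2) `T_c = W + FS u f`, and RowH holds.  Ra / Rp: with `σ_c = ∑_{i ∈ u} lam T_c (f i)`: `σ_c ≥ 2 k - 1`, or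
`k = 3, σ_c ≥ 4, |T_c| ≥ 8`, or `k = 4, σ_c ≥ 6, |T_c| ≥ 12`, or `k = 5, σ_c ≥ 8`.  Rs (1): `∑_c σ_c = ∑_{i ∈ u} lam T (f i) ≤ k j`.
(3) `k = 2`: `3 N ≤ 2 j`, `N ≥ t - 1`, `j ≤ t`: contradiction.  `k = 3`: `4 N ≤ 3 j`, `N ≥ t - 2`; `t = 6`: `j ≤ 5`; `t = 8`: `j ≤ 7`; `t ≥ 9`: `4 (t-2) > 3 t`: contradictions; `t = 7`: `j ≤ 7`, `N = 5`; if `n` rows are of the second kind then `5 * 5 - n ≤ 21`, `n ≥ 4`, `X ≥ 4 * 8 + Y ≥ 37 > 31`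
(each row has at least `Y ≥ 5` elements).  `k = 4`: `6 N ≤ 4 j`, `N ≥ t - 3`: `t = 8` (`j ≤ 7`), `t = 10` (`j ≤ 9`), `t ≥ 11` impossible; `t = 7`: `j ≤ 7`, `N = 4`, `X ≥ 4 Y ≥ 28`, `y ≥ 15`, so Y1 gives `Y ≥ 8` (`jj 4 (jj 4 - 1) = 2`), `4 * 8 > 31`; `t = 9`: `j ≤ 9`, `N = 6`, `∑ σ_c ≤ 36`: all rows are of the
second kind (`σ_c ≤ 6 < 7`), `X ≥ 72 > 49`.  `k ≥ 5`: `(2 k - 2) N ≤ k j`: NuA. -/
def St_CA : Prop :=
  ∀ (G H ι : Type) [AddCommGroup G] [Finite G] [AddCommGroup H] [Finite H] (π : G →+ H) (s : Finset ι) (f : ι → G) (R : AddSubgroup G) (j : ℕ),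
    Ctx π s f R j → ¬ crk R ≤ 1

/-! ## `crk R ≥ 2` -/

/-- **BI** (1 h, from Ex).  The members in one cyclic group modulo `R`.  `b` = number of `k ∈ Out` with `π (f k) ∈ ⟨w⟩`, `w = π (f i)`.
Proof.  (1) `T / R + ⟨w⟩ = H`: `mx` gives `st T M = G` for `M = gen (insert i Inn) f`, and `π M ≤ ⟨w⟩`; so every `c ∈ H` is `π x + n w` with `x ∈ T` (`π T = FS (Out) (π ∘ f)`, q_image).
(2) `E = {k ∈ Out | π (f k) ∈ ⟨w⟩}`, `FS (Out) (π f) = FS E (π f) + FS (Out \ E) (π f)` (SDG.Ba1 (1)), `FS E (π f) ⊆ ⟨w⟩`, so every coset of `⟨w⟩` contains an element of `FS (Out \ E) (π f)` and with it a translate of `FS E (π f)`, which has at least `b + 1` elements (SDG.all_Sm (1), subfamily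
of an aperiodic family).  So `N |⟨w⟩| ≥ (b + 1) |H|` (`|H| = |⟨w⟩|` times the number of cosets).
(3) Ex: `E X < 2 |G| = 2 y |H|` (crd), `E` the exponent of `G`; `|⟨w⟩| ∣ exponent H ∣ E` (surjection), so `|⟨w⟩| X ≤ E X < 2 y |H|`.  Together:
`(b + 1) |H| X ≤ N |⟨w⟩| X < N 2 y |H|`. -/
def St_BI : Prop :=
  ∀ (G H ι : Type) [AddCommGroup G] [Finite G] [AddCommGroup H] [Finite H] (π : G →+ H) (s : Finset ι) (f : ι → G) (R : AddSubgroup G) (j : ℕ),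
    Ctx π s f R j → ∀ i ∈ s, f i ∉ R →
      (((Out s f R).filter fun k => π (f k) ∈ AddSubgroup.zmultiples (π (f i))).card + 1) * (FS s f).card < 2 * (Nat.card R * NN π s f R)

/-- **Ex** (0.5 h).  The exponent: `exponent G * X < 2 * Nat.card G` if `X` satisfies `GR 2`.
Proof.  SNW.exp_quot gives a subgroup `K` with `G / K` cyclic and `|G| = E |K|`, `E` the exponent; `crk K ≤ 1` (crk_le with one element, see SZC/Kq.lean), so `g2 K bot_le` gives `X < |K| 2^(crk K) ≤ 2 |K|`, `E X < 2 |G|` (`E ≥ 1`).  (Put Ex before BI in the imports.) -/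
def St_Ex : Prop :=
  ∀ (G : Type) [AddCommGroup G] [Finite G] (X : ℕ), (⊥ : AddSubgroup G) ≠ ⊤ → GR 2 (⊥ : AddSubgroup G) X → AddMonoid.exponent G * X < 2 * Nat.card G

/-- **Nb** (1 h).  Numbers: `b ≤ 2`.
Proof.  Suppose `b ≥ 3`: `4 X < 2 y N`, `2 X < y N ≤ X + j y - j Y`, so `X + j Y < j y`.  `j ≤ t`, `2 X ≤ (t+1)^2 - 2`, `4 Y ≥ (k+1)^2 + 3`, `K = k + 1`, `t + 1 = e + K`.
Case `N ≤ j`: `2 e - 1 ≤ t`, `e ≤ K`; `N Y ≤ X`: `(2e-1)(K^2+3) ≤ 2 (e+K)^2 - 4`: `e ≥ 5`: left `≥ 9 K^2 + 27`, right `≤ 8 K^2`; `e = 4`: `5 K^2 - 16 K - 7 ≤ 0`, `K ≤ 3`, not `≥ e`; `e = 3`: `3 K^2 - 12 K + 1 ≤ 0`, `K ≤ 3`, `t ≤ 5`.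
Case `N > j`: `y (N - j) ≤ X - j Y` and `j y > X + j Y`: `(X + j Y)(N - j) < j y (N - j) ≤ j (X - j Y)`, so `N (X + j Y) < 2 j X`, `(2e-1)(X + jY) < 2jX`, `(2e-1) j Y < X (2j - 2e + 1)`; times `t`, using `j ≤ t`: `(2e-1) Y t < (2k+1) X`, so `2 (2e-1) Y < (2k+1)(t+2)` (*).
`k = 1` (`Y ≥ 2`): `4(2e-1) < 3(e+3)`: `e ≤ 2`.  `k = 2` (`Y ≥ 3`): `6(2e-1) < 5(e+4)`: `e ≤ 3`, `t ≤ 5`.  `k = 3` (`Y ≥ 5`): `10(2e-1) < 7(e+5)`: `e = 3`, `t = 6`, `N Y ≥ 25 > 23 ≥ X`.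
`k ≥ 4`: `(2e-1)(K^2+3) ≤ 2(e+K)^2 - 4` with `K ≥ 5` gives `30 e - 75 + 6 e + 1 ≤ 2 e^2`, so `e ≥ 16`; then (*) with `4 Y ≥ K^2 + 3`: `(2e-1)(k^2+2k+4) < 2(2k+1)(e+k+2)`, false for `e ≥ 16`. -/
def St_Nb : Prop :=
  ∀ e k t N Y y X j b : ℕ, 3 ≤ e → 1 ≤ k → e + k = t → 6 ≤ t → 2 * e ≤ N + 1 → cf 2 k ≤ Y → k + 1 ≤ Y → Y + 1 ≤ y → y * N + j * Y ≤ X + j * y → N * Y ≤ X →
    X + 1 ≤ SBN.U t → SBN.U (t - 1) + j + 1 ≤ SBN.U t → (b + 1) * X < 2 * (y * N) → b ≤ 2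

/-- **Nc** (0.8 h).  Numbers: contradiction for `t ≥ 7`.
Proof.  `(Y + 1) N ≤ X + j` (if `N ≥ j`: `(Y+1)(N-j) ≤ y (N-j) ≤ X - jY`; if `N < j`: `N Y ≤ X`).  `2 (X + j) ≤ t^2 + 4 t - 1` (`2 (U t - 1) + 2 (U t - U (t-1) - 1)`), `4 N ≥ (e+1)^2 + 3`: `(Y+1)((e+1)^2+3) ≤ 2 t^2 + 8 t - 2`.
`k = 1`: `3(t^2+3)`: `t^2 - 8t + 11 ≤ 0`; `k = 2` (`Y ≥ 3`): `4((t-1)^2+3)`: `t^2 - 8t + 9 ≤ 0`; `k = 3` (`Y ≥ 5`): `6((t-2)^2+3)`: `t^2 - 8t + 11 ≤ 0`: all false for `t ≥ 7`.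
`k ≥ 4`: `N ≥ 2e - 1` and `N Y ≤ X` give `e ≥ 16` (see Nb); `(K^2+7)((e+1)^2+3) ≤ 8t^2 + 32t - 8`, `K = k+1 ≥ 5`, `t = e + K - 1`: false. -/
def St_Nc : Prop :=
  ∀ e k t N Y y X j : ℕ, 3 ≤ e → 1 ≤ k → e + k = t → 7 ≤ t → 2 * e ≤ N + 1 → cf 2 e ≤ N → cf 2 k ≤ Y → k + 1 ≤ Y → Y + 1 ≤ y → y * N + j * Y ≤ X + j * y → N * Y ≤ X →
    X + 1 ≤ SBN.U t → SBN.U (t - 1) + j + 1 ≤ SBN.U t → False

/-- **C7** (0.8 h, from BI, Nb, Nc; uses SSX.PAG_all).  `crk R ≥ 2`, `t ≥ 7`.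
Proof.  `H` has `crk ⊥ ≥ 2` (rH): SNR.thm_LINm with `m = 2` (`GR 1 ⊥ N` from qlt): `2 (2 e + 3 - 4) ≤ 2 N`, i.e. `N ≥ 2e - 1`; `e ≥ crk R + 1 ≥ 3`.  BI and Nb: `b ≤ 2` for every `i`, so `Cap 2 (Out s f R) (π ∘ f)` (members equal to `± x`: if there is one, `i`, the others are in `⟨π (f i)⟩`).  PAG_all: `N ≥ cf 2 e`,
`Y ≥ cf 2 k`.  Nc. -/
def St_C7 : Prop :=
  ∀ (G H ι : Type) [AddCommGroup G] [Finite G] [AddCommGroup H] [Finite H] (π : G →+ H) (s : Finset ι) (f : ι → G) (R : AddSubgroup G) (j : ℕ),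
    Ctx π s f R j → 2 ≤ crk R → s.card ≤ 6

/-- **C56** (1.5 h, from BI, Ex, Nb; uses SSX.PAG_all, SNT.all_M1Pr).  `crk R ≥ 2`, `t ≤ 6`.
Proof.  As in C7: `N ≥ 2e - 1`, `e ≥ 3`, `H` is not cyclic (`crk ⊥ ≥ 2`).  M1P in `H` (gain `≥ 1`): 3 members with Cap 2: `N ≥ 6` or `|H| ≤ N + 2`; 4 members with Cap 2: `N ≥ 8` or `|H| ≤ N + 2` (`pn 3 = 6, pn 4 = 9`, `jj 3 = jj 4 = 2`).
`t = 6` (`X ≤ 23`, `j ≤ 5`): Nb and BI: Cap 2 for `T / R`, so `N ≥ cf 2 e`; `(Y+1) N ≤ X + j ≤ 28` (as in Nc).  `k = 1`, `e = 5`: `3 * 10 > 28`.  `k = 3`, `e = 3`: `N Y ≥ 25 > 23`.  `k = 2`, `e = 4`: `4 * 7 = 28`, so `N = 7, Y = 3, X = 23, j = 5`, and `7 y + 15 ≤ 23 + 5 y`: `y = 4`; `N = 7 < 8`, so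
`|H| ≤ 9`, `|G| ≤ 36`, Ex: `23 E < 72`, `E ≤ 3`; `|R| = 4`, so there is an element of order 2, `E = 2`: then `f i = - f i`, contradiction to SDG.Ba1 (5).
`t = 5` (`X ≤ 17`, `j ≤ 5`).  `k = 2`, `e = 3`: Cap 2 holds for `T / R` (three members `± x` would generate a cyclic group, but they generate `H`): `N ≥ 6` (`|H| ≤ 7` with `5 ≤ N < |H|` would be noncyclic of order 6 or 7), `Y ≥ 3`: `N Y ≥ 18 > 17`.
`k = 1`, `e = 4`, `Y ≥ 2`, `7 ≤ N ≤ 8`: `y (N - j) ≤ X - j Y`: `N = 8`: `y ≤ 2`, impossible; `N = 7`: `Y = 2`, `y = 3`, `X + j ≥ 21`, so `X ≥ 16`.  BI: `(b + 1) X < 2 * 21`: `b = 1` for every `i` (two members of `Out` are never in one cyclic group modulo `R`).  So Cap 2, `N = 7 < 8`: `|H| ≤ 9`.  Ex: `16 E < 2 * 27`: `E ≤ 3`;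
`|R| = 3`: `3 ∣ E`, `E = 3`, so `|G| = 3 |H|` has no element of order 2, `|H| = 9` (`8 ≤ |H|`).  For `i ∈ Out`: the other three members generate `H` (two of them, `w, w'`, with `w' ∉ ⟨w⟩`, `|⟨w⟩| = 3`), so they have `≥ 6` sums (M1P, `9 ≤ n + 2` gives `n ≥ 7`); so `lam (T/R) (π f i) ≤ 1` (SDG.Ba1 (3)).
The complement of `T / R` has two elements `c1, c2`; `lam ≤ 1` means that `c1 + w ∈ {c1, c2}` or `c2 + w ∈ {c1, c2}`, i.e. `w = ± (c1 - c2)`, for all four members `w`: contradiction to `b = 1`. -/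
def St_C56 : Prop :=
  ∀ (G H ι : Type) [AddCommGroup G] [Finite G] [AddCommGroup H] [Finite H] (π : G →+ H) (s : Finset ι) (f : ι → G) (R : AddSubgroup G) (j : ℕ),
    Ctx π s f R j → 2 ≤ crk R → ¬ s.card ≤ 6

/-! ## The theorem -/

/-- **B4** (1 h).  Four members.
Proof.  Let `d ∈ s`, `u = s.erase d` (3 members `a, b, c`), `K = gen u f = ⊤`.  None of `a, b, c` is in the group generated by the two others (otherwise `G` is generated by 2 elements: SNR.crk_bot_le, `3 ≤ crk ⊥`), so `|FS u f| = 8` (SDG.Ba1 (4) three times; `gen` of one member does not contain another one).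
`T = S' ∪ (S' + f d)`, `|T| = 8 + lam S' (f d)`, `S' = FS u f`.  Let `P = {x ∈ S' | x + f d ∈ S'}`: `|T| = 16 - |P|`.  For `x = ∑_B f ∈ P`, `x + f d = ∑_C f`: if some `a ∈ u` is in both or in none of `B, C` then `f d = ∑_C - ∑_B ∈ gen (u.erase a) f ≠ ⊤`, so `gen (s.erase a) f = gen (u.erase a ∪ {d}) f = gen (u.erase a) f ≠ ⊤`,
contradiction to no drop.  So `C = u \ B` and `2 x = ∑_u f - f d` for all `x ∈ P`.  Take `a ∈ u` and `S' = A ∪ (A + f a)` (disjoint, `A = FS (u.erase a) f`, 4 elements).  The involution `τ` of `S'`, `x ↦ x + f a` on `A`, `x ↦ x - f a` on `A + f a`, maps `P` into `S' \ P` (otherwise `2 f a = 0`, contradiction to SDG.Ba1 (5)):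
`2 |P| ≤ 8`, `|T| ≥ 12`. -/
def St_B4 : Prop :=
  ∀ (G ι : Type) [AddCommGroup G] [Finite G] (s : Finset ι) (f : ι → G), s.card = 4 → (∀ i ∈ s, f i ≠ 0) → Aper (FS s f) → gen s f = ⊤ →
    (∀ i ∈ s, gen (s.erase i) f = ⊤) → 3 ≤ crk (⊥ : AddSubgroup G) → 12 ≤ (FS s f).card

/-- the deletion statement (SBN, helper22 / helper92) -/
def St_Del : Prop :=
  ∀ (G ι : Type) [AddCommGroup G] [Finite G] (s : Finset ι) (f : ι → G), 5 ≤ s.card → 3 ≤ crk (⊥ : AddSubgroup G) → (∀ i ∈ s, f i ≠ 0) → Cap 2 s f →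
    Aper (FS s f) → gen s f = ⊤ → (∀ i ∈ s, gen (s.erase i) f = ⊤) → GR 2 (⊥ : AddSubgroup G) (FS s f).card → (FS s f).card + 1 ≤ SBN.U s.card →
    (∀ z ∈ s, (∀ i ∈ s.erase z, gen ((s.erase z).erase i) f = ⊤) → SBN.U (s.card - 1) ≤ (FS (s.erase z) f).card) →
      ∀ z ∈ s, SBN.U (s.card - 1) ≤ (FS (s.erase z) f).card

/-- **ND2** (0.8 h, from Del, Se, CA, C7, C56, B4).  The theorem.
Proof.  Strong induction on `t = |s|`.  `t ≥ 4`: SNR.crk_nodrop with `P = ⊥` (no member is 0): `crk ⊥ + 1 ≤ t`.  `t = 4`: B4, `U 4 = 12`.  `t ≥ 5`, suppose `X < U t`.  Del with the induction hypothesis (`FS (s.erase z) f` is aperiodic, Cap 2, `GR 2` by GR_mono): `X ≥ U (t-1)`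
and with `j = X - U (t-1)`: `lam T (f z) ≤ j` (SDG.Ba1 (3)).  `U (t-1) + j + 1 ≤ U t`.  So `Fam s f j`; Se gives `R, H, π`; `crk R ≤ 1` contradicts CA, `crk R ≥ 2` contradicts C7, C56. -/
def St_ND2 : Prop :=
  ∀ (G ι : Type) [AddCommGroup G] [Finite G] (s : Finset ι) (f : ι → G), 3 ≤ crk (⊥ : AddSubgroup G) → (∀ i ∈ s, f i ≠ 0) → Cap 2 s f →
    Aper (FS s f) → gen s f = ⊤ → (∀ i ∈ s, gen (s.erase i) f = ⊤) → GR 2 (⊥ : AddSubgroup G) (FS s f).card → SBN.U s.card ≤ (FS s f).card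

end Pool.Agent.SZD
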